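import Mathlib
import Pool.Agent.H71.AU.Core
import Pool.Agent.H14.HP.Defs
import Pool.Agent.H14.HR.Grp

/-! Project T4 (MP_68c2bd): a properly discontinuous affine group on `ℝ^N` that contains
`ℤ^(N-1)` is virtually solvable.  Definitions, in the linear model: the affine space is the set
`τ = 1` in `E`, `finrank E = n + 2`, `A ≅ ℤ^n`. -/

set_option autoImplicit false

namespace Pool.Agent.H30.T4

open NormedSpace Module Pool.Agent.H71.AU Pool.Agent.H14.HP Pool.Agent.H14.HR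

variable {E : Type*} [NormedAddCommGroup E] [NormedSpace ℝ E] {Γ : Type*} [Group Γ]

/-- `W` is preserved by the group. -/
def Inv (π : Γ →* (E →L[ℝ] E)) (W : Submodule ℝ E) : Prop := ∀ g, ∀ y ∈ W, π g y ∈ W

/-- A composition series of `E` (`F i = ⊥` for `i ≥ s`). -/
structure Flg (π : Γ →* (E →L[ℝ] E)) (F : ℕ → Submodule ℝ E) (s : ℕ) : Prop where
  top : F 0 = ⊤
  bot : F s = ⊥
  anti : ∀ i, F (i + 1) ≤ F i
  inv : ∀ i, Inv π (F i)
  irr : ∀ i (W : Submodule ℝ E), Inv π W → F (i + 1) ≤ W → W ≤ F i → W = F (i + 1) ∨ W = F i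

/-- The maps that shift the series `F`. -/
def JJ (F : ℕ → Submodule ℝ E) : Submodule ℝ (E →L[ℝ] E) where
  carrier := {b | ∀ i, ∀ y ∈ F i, b y ∈ F (i + 1)}
  add_mem' := by
    intro b c hb hc i y hy
    exact (F (i + 1)).add_mem (hb i y hy) (hc i y hy)
  zero_mem' := by
    intro i y _
    exact (F (i + 1)).zero_mem
  smul_mem' := by
    intro t b hb i y hy
    exact (F (i + 1)).smul_mem t (hb i y hy)

theorem mem_JJ {F : ℕ → Submodule ℝ E} {b : E →L[ℝ] E} :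
    b ∈ JJ F ↔ ∀ i, ∀ y ∈ F i, b y ∈ F (i + 1) := Iff.rfl

/-- Iterated commutators: `cl S (k + 1)` is the set of `[s, u]`, `s ∈ S`, `u ∈ cl S k`. -/
def cl (S : Set Γ) : ℕ → Set Γ
  | 0 => S
  | k + 1 => {z | ∃ s ∈ S, ∃ u ∈ cl S k, z = s * u * s⁻¹ * u⁻¹}

variable [CompleteSpace E]

/-- The real span of the logarithms of `A`. -/
noncomputable def hh (π : Γ →* (E →L[ℝ] E)) (A : Subgroup Γ) : Submodule ℝ (E →L[ℝ] E) :=
  Submodule.span ℝ {X | ∃ a ∈ A, X = lg (π a)}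

/-- The situation after the reduction: `A` is free abelian of rank `n`, unipotent, and no proper
subspace that meets `τ = 1` is preserved by `A`. -/
structure Cf (π : Γ →* (E →L[ℝ] E)) (τ : E →L[ℝ] ℝ) (x₀ : E) (A : Subgroup Γ) (n : ℕ) :
    Prop where
  sys : Sys π τ
  inj : Function.Injective π
  tx : τ x₀ = 1
  comm : ∀ a ∈ A, ∀ b ∈ A, a * b = b * a
  uni : ∀ a ∈ A, IsNilpotent (π a - 1)
  fr : ∃ f : (Fin n → ℤ) →+ Additive A, Function.Bijective f
  dim : finrank ℝ E = n + 2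
  cyc : ∀ M : Submodule ℝ E, (∀ a ∈ A, ∀ y ∈ M, π a y ∈ M) → (∃ x ∈ M, τ x = 1) → M = ⊤

/-- The algebra generated by the logarithms of `A`. -/
noncomputable def AA (π : Γ →* (E →L[ℝ] E)) (A : Subgroup Γ) : Subalgebra ℝ (E →L[ℝ] E) :=
  Algebra.adjoin ℝ (hh π A : Set (E →L[ℝ] E))

/-- The product of the conjugates `π g * exp X * π g⁻¹` over a list of pairs `(g, X)`. -/
noncomputable def pr (π : Γ →* (E →L[ℝ] E)) (l : List (Γ × (E →L[ℝ] E))) : E →L[ℝ] E :=
  (l.map (fun q => π q.1 * exp q.2 * π q.1⁻¹)).prod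

/-- The maps of `hh` that shift the series. -/
noncomputable def hu (π : Γ →* (E →L[ℝ] E)) (A : Subgroup Γ) (F : ℕ → Submodule ℝ E) :
    Submodule ℝ (E →L[ℝ] E) := hh π A ⊓ JJ F

/-- The span of the images of the maps of `hu`. -/
noncomputable def Vu (π : Γ →* (E →L[ℝ] E)) (A : Subgroup Γ) (F : ℕ → Submodule ℝ E) :
    Submodule ℝ E :=
  Submodule.span ℝ {z | ∃ X ∈ hu π A F, ∃ y, X y = z}

/-- The theorem in the linear model, for the rank `n`. -/
def Thm (n : ℕ) : Prop :=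
  ∀ (E : Type) [NormedAddCommGroup E] [NormedSpace ℝ E] [CompleteSpace E]
    [FiniteDimensional ℝ E] (Γ : Type) [Group Γ] (π : Γ →* (E →L[ℝ] E)) (τ : E →L[ℝ] ℝ)
    (A : Subgroup Γ), Sys π τ → Function.Injective π → (∃ x, τ x = 1) →
    (∀ a ∈ A, ∀ b ∈ A, a * b = b * a) →
    (∃ f : (Fin n → ℤ) →+ Additive A, Function.Injective f) → finrank ℝ E = n + 2 → VS Γ

end Pool.Agent.H30.T4
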