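import Pool.Agent.H20.T4.Stm
import Pool.Agent.H9.TC.Basic

/-!
Project TM4 (MP_b6022c_nt), row (B5): density of `Bad5` in a block, for one pair.
-/

namespace Pool.Agent.H30.T4

open Finset Pool.Agent.H9.TC Pool.Agent.H20.TM Pool.Agent.H20.T4

theorem ndvd_mul {a b : ℕ} {x y : ℤ} (hx : ¬ (2 : ℤ) ^ a ∣ x) (hy : ¬ (2 : ℤ) ^ b ∣ y) :
    ¬ (2 : ℤ) ^ (a + b) ∣ x * y := by
  induction a generalizing x with
  | zero => exact absurd (by simp) hx
  | succ a ih =>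
    by_cases h2 : (2 : ℤ) ∣ x
    · obtain ⟨x', rfl⟩ := h2
      have hx' : ¬ (2 : ℤ) ^ a ∣ x' := by
        intro h
        apply hx
        rw [pow_succ, mul_comm]
        exact mul_dvd_mul_left 2 h
      intro h
      apply ih hx'
      have e : (2 : ℤ) ^ (a + 1 + b) = 2 * 2 ^ (a + b) := by ring
      rw [e, mul_assoc] at h
      exact (mul_dvd_mul_iff_left (by norm_num : (2 : ℤ) ≠ 0)).1 h
    · intro h
      have hp : Prime (2 : ℤ) := Int.prime_two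
      have hc : IsCoprime ((2 : ℤ) ^ (a + 1 + b)) x :=
        IsCoprime.pow_left ((Prime.coprime_iff_not_dvd hp).2 h2)
      have h3 := hc.dvd_of_dvd_mul_left h
      exact hy ((pow_dvd_pow 2 (by omega)).trans h3)

theorem ndvd_of_abs_lt {a : ℕ} {x : ℤ} (h0 : x ≠ 0) (h : |x| < 2 ^ a) : ¬ (2 : ℤ) ^ a ∣ x := by
  intro hd
  have := Int.le_of_dvd (abs_pos.2 h0) ((dvd_abs _ _).2 hd)
  omega

theorem b5 (hLIN : LINStmt) : B5Stmt := by
  classical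
  intro q L g9 hq hL1
  refine ⟨L + g9 + 1, ?_⟩
  intro p hp uf σ R β huf hR Δ Δ1 hΔ hΔR n1
  have hqp : 8 * p + 0 ≤ (4 * q + 4) * p := by nlinarith
  have e10 : (10 * q + 10) * p = (8 * q + 8) * p + (2 * q + 2) * p := by ring
  have e8 : (8 * q + 8) * p = (4 * q + 4) * p + (4 * q + 4) * p := by ring
  have e4 : (4 * q + 4) * p = (2 * q + 2) * p + (2 * q + 2) * p := by ring
  have hKKp : (0 : ℤ) < 2 * 4 ^ (L + g9) := by positivity
  obtain ⟨KK, hKK⟩ : ∃ KK : ℤ, KK = 2 * 4 ^ (L + g9) := ⟨_, rfl⟩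
  obtain ⟨I, hI⟩ : ∃ I : Finset (ℕ × ℤ), I = (range (2 ^ ((2 * q + 2) * p)) ×ˢ Icc (-KK) KK).filter
    (fun tk => 1 ≤ tk.1 ∧ ¬ (2 : ℤ) ^ L ∣ tk.2) := ⟨_, rfl⟩
  have h1 : cnt (2 ^ β) (fun b => Bad5 q L g9 p uf σ Δ Δ1 (n1 + b)) ≤
      cnt (2 ^ β) (fun b => ∃ tk ∈ I, small (uf + L) ((2 : ℤ) ^ (uf + L + (2 * q + 2) * p - σ))
        ((n1 + b) * (2 * tk.1 * tk.2 * Δ) + tk.1 * tk.2 * Δ1)) := by
    refine cnt_mono ?_
    rintro b _ ⟨t, K, ht1, ht, hK, hKd, hs⟩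
    refine ⟨(t, K), ?_, ?_⟩
    · rw [hI, mem_filter, mem_product, mem_range, mem_Icc]
      rw [abs_le] at hK
      exact ⟨⟨ht, by rw [hKK]; exact hK.1, by rw [hKK]; exact hK.2⟩, ht1, hKd⟩
    · have e : ((n1 + (b : ℤ)) * (2 * (t : ℤ) * K * Δ) + (t : ℤ) * K * Δ1) =
        (t : ℤ) * K * (2 * (n1 + (b : ℤ)) * Δ + Δ1) := by ring
      simp only
      rw [e]
      exact hs
  have h2 := cnt_exists (2 ^ β) I (fun tk b => small (uf + L)
    ((2 : ℤ) ^ (uf + L + (2 * q + 2) * p - σ))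
        ((n1 + b) * (2 * tk.1 * tk.2 * Δ) + tk.1 * tk.2 * Δ1))
  have h3 : ∀ tk ∈ I, (cnt (2 ^ β) (fun b => small (uf + L)
      ((2 : ℤ) ^ (uf + L + (2 * q + 2) * p - σ))
        ((n1 + b) * (2 * tk.1 * tk.2 * Δ) + tk.1 * tk.2 * Δ1)) : ℝ) * 2 ^ σ ≤
        2 ^ β * (4 * 2 ^ ((2 * q + 2) * p)) := by
    rintro ⟨t, K⟩ htk
    rw [hI, mem_filter, mem_product, mem_range, mem_Icc] at htk
    obtain ⟨⟨ht, hK⟩, ht1, hKd⟩ := htk
    simp only at ht hK ht1 hKd ⊢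
    have hnd : ¬ (2 : ℤ) ^ (2 + (2 * q + 2) * p + L + (R + 1)) ∣ 2 * t * K * Δ := by
      refine ndvd_mul (ndvd_mul (ndvd_mul (a := 2) ?_ ?_) hKd) ?_
      · intro h
        have := Int.le_of_dvd (by norm_num) h
        norm_num at this
      · refine ndvd_of_abs_lt (by positivity) ?_
        rw [abs_of_nonneg (by positivity)]
        exact_mod_cast ht
      · refine ndvd_of_abs_lt hΔ ?_
        rw [pow_succ]
        have : (0 : ℤ) < 2 ^ R := by positivity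
        linarith
    have hW0 : (0 : ℤ) ≤ 2 ^ (uf + L + (2 * q + 2) * p - σ) := by positivity
    have h4 := hLIN (2 * t * K * Δ) (t * K * Δ1) n1 (uf + L) (2 + (2 * q + 2) * p + L + (R + 1)) β
      (2 ^ (uf + L + (2 * q + 2) * p - σ)) hnd (by omega) huf hW0
    have hE : (0 : ℝ) < 2 ^ (uf + L) := by positivity
    have h5 : (2 : ℝ) ^ σ * 2 ^ (uf + L + (2 * q + 2) * p - σ) =
        2 ^ ((2 * q + 2) * p) * 2 ^ (uf + L) := by
      rw [← pow_add, ← pow_add]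
      congr 1
      omega
    have h6 : (2 : ℝ) ^ σ ≤ 2 ^ (uf + L) := pow_le_pow_right₀ (by norm_num) (by omega)
    have h7 : (2 : ℝ) ^ σ * 2 ^ (2 + (2 * q + 2) * p + L + (R + 1)) ≤ 2 ^ (uf + L) := by
      rw [← pow_add]
      exact pow_le_pow_right₀ (by norm_num) (by omega)
    have h8 : (1 : ℝ) ≤ 2 ^ ((2 * q + 2) * p) := one_le_pow₀ (by norm_num)
    push_cast at h4
    have h9 : (cnt (2 ^ β) (fun b => small (uf + L)
      ((2 : ℤ) ^ (uf + L + (2 * q + 2) * p - σ))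
        ((n1 + b) * (2 * t * K * Δ) + t * K * Δ1)) : ℝ) * 2 ^ σ * 2 ^ (uf + L) ≤
        2 ^ β * (4 * 2 ^ ((2 * q + 2) * p)) * 2 ^ (uf + L) := by
      calc _ = (cnt (2 ^ β) (fun b => small (uf + L)
            ((2 : ℤ) ^ (uf + L + (2 * q + 2) * p - σ))
            ((n1 + b) * (2 * t * K * Δ) + t * K * Δ1)) : ℝ) * 2 ^ (uf + L) * 2 ^ σ := by ring
        _ ≤ (2 ^ β * (2 * 2 ^ (uf + L + (2 * q + 2) * p - σ) + 1 +
            2 ^ (2 + (2 * q + 2) * p + L + (R + 1)))) * 2 ^ σ :=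
            mul_le_mul_of_nonneg_right h4 (by positivity)
        _ = 2 ^ β * (2 * (2 ^ σ * 2 ^ (uf + L + (2 * q + 2) * p - σ)) + 2 ^ σ +
            2 ^ σ * 2 ^ (2 + (2 * q + 2) * p + L + (R + 1))) := by ring
        _ ≤ 2 ^ β * (2 * (2 ^ ((2 * q + 2) * p) * 2 ^ (uf + L)) + 2 ^ (uf + L) +
            2 ^ (uf + L)) := by
            rw [h5]
            refine mul_le_mul_of_nonneg_left ?_ (by positivity)
            linarith
        _ ≤ 2 ^ β * (4 * (2 ^ ((2 * q + 2) * p) * 2 ^ (uf + L))) := by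
            refine mul_le_mul_of_nonneg_left ?_ (by positivity)
            nlinarith
        _ = _ := by ring
    exact le_of_mul_le_mul_right h9 hE
  have hcard : (I.card : ℝ) ≤ 2 ^ ((2 * q + 2) * p) * 2 ^ (2 * (L + g9) + 3) := by
    have hc1 : I.card ≤ 2 ^ ((2 * q + 2) * p) * 2 ^ (2 * (L + g9) + 3) := by
      rw [hI]
      refine (card_filter_le _ _).trans ?_
      rw [card_product, card_range, Int.card_Icc]
      refine Nat.mul_le_mul_left _ ?_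
      have e : (2 : ℤ) ^ (2 * (L + g9) + 3) = 8 * 4 ^ (L + g9) := by
        rw [pow_add, pow_mul]; norm_num; ring
      have h1 : (1 : ℤ) ≤ 4 ^ (L + g9) := one_le_pow₀ (by norm_num)
      rw [Int.toNat_le]
      push_cast
      rw [e, hKK]
      linarith
    exact_mod_cast hc1
  have hsum : (cnt (2 ^ β) (fun b => Bad5 q L g9 p uf σ Δ Δ1 (n1 + b)) : ℝ) ≤
      ∑ tk ∈ I, (cnt (2 ^ β) (fun b => small (uf + L)
        ((2 : ℤ) ^ (uf + L + (2 * q + 2) * p - σ))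
        ((n1 + b) * (2 * tk.1 * tk.2 * Δ) + tk.1 * tk.2 * Δ1)) : ℝ) := by
    exact_mod_cast h1.trans h2
  calc (cnt (2 ^ β) (fun b => Bad5 q L g9 p uf σ Δ Δ1 (n1 + b)) : ℝ) * 2 ^ σ
      ≤ (∑ tk ∈ I, (cnt (2 ^ β) (fun b => small (uf + L)
        ((2 : ℤ) ^ (uf + L + (2 * q + 2) * p - σ))
        ((n1 + b) * (2 * tk.1 * tk.2 * Δ) + tk.1 * tk.2 * Δ1)) : ℝ)) * 2 ^ σ :=
        mul_le_mul_of_nonneg_right hsum (by positivity)
    _ = ∑ tk ∈ I, (cnt (2 ^ β) (fun b => small (uf + L)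
        ((2 : ℤ) ^ (uf + L + (2 * q + 2) * p - σ))
        ((n1 + b) * (2 * tk.1 * tk.2 * Δ) + tk.1 * tk.2 * Δ1)) : ℝ) * 2 ^ σ := by
        rw [sum_mul]
    _ ≤ ∑ tk ∈ I, (2 : ℝ) ^ β * (4 * 2 ^ ((2 * q + 2) * p)) := sum_le_sum h3
    _ = (I.card : ℝ) * (2 ^ β * (4 * 2 ^ ((2 * q + 2) * p))) := by
        rw [sum_const, nsmul_eq_mul]
    _ ≤ (2 ^ ((2 * q + 2) * p) * 2 ^ (2 * (L + g9) + 3)) *
        (2 ^ β * (4 * 2 ^ ((2 * q + 2) * p))) :=
        mul_le_mul_of_nonneg_right hcard (by positivity)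
    _ = 2 ^ β * 2 ^ ((2 * q + 2) * p + (2 * q + 2) * p + (2 * (L + g9) + 5)) := by
        rw [pow_add, pow_add, pow_add _ _ 3, pow_add _ _ 5]
        ring
    _ ≤ 2 ^ β * 2 ^ ((8 * q + 8) * p) := by
        refine mul_le_mul_of_nonneg_left ?_ (by positivity)
        exact pow_le_pow_right₀ (by norm_num) (by omega)

end Pool.Agent.H30.T4
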