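import Pool.Agent.H20.T4.Stm
import Pool.Agent.H9.TC.Basic

/-!
Project TM4 (MP_b6022c_nt), row MOST, clause 3: the rows of most cells have good base points.
-/

namespace Pool.Agent.H30.T4

open Finset Pool.Agent.H9.TC Pool.Agent.H20.TM Pool.Agent.H20.T4

/-- (MOST, clause 3). -/
def Most3Stmt : Prop :=
  ∀ (q1 c Cf kk Kn CR : ℕ) (ε1 ε : ℝ), 1 ≤ q1 → 1 ≤ c → 2000 ≤ CR → 0 < ε1 → 0 < ε →
    ∀ d e : Fin q1 → ℤ, (∀ i, |d i| ≤ Cf) → ∀ L g9 : ℕ, 1 ≤ L → ∃ w0 : ℕ, ∀ w ≥ w0,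
    ∀ ν a β p v1 K1 K2 : ℕ, a + w = ν → β + 3 * (CR * w) = ν → 10 * (CR * w) ≤ ν →
    w = C1 (q1 * 2 ^ kk) * p → K1 ≤ Kn → K2 ≤ Kn →
    CR * w + 2000 * w ≤ v1 + K1 * p → v1 + K1 * p ≤ CR * w + 2100 * w →
    v1 + K1 * p + L + (2 * (q1 * 2 ^ kk) + 4) * p + K2 * p = a →
    ∀ Dd : ℕ → ℕ, (∀ b, Dd b ≤ 2 ^ (CR * w)) →
      (cnt (2 ^ a) (fun n0 => ¬ ((cnt (2 ^ (18 * w)) (fun x => ¬ Gb (q1 * 2 ^ kk) p L g9 v1 K1 K2
        (400 * w) (72 * w) (18 * w) c (Dd (n0 / 2 ^ β)) d e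
          ((n0 : ℤ) + (Dd (n0 / 2 ^ β) : ℕ) * x)) : ℝ) ≤ ε1 * 2 ^ (18 * w))) : ℝ) ≤ ε * 2 ^ a

open Classical in
theorem cnt_eq_sum (M : ℕ) (P : ℕ → Prop) :
    cnt M P = ∑ m ∈ range M, (if P m then 1 else 0) := by
  unfold cnt
  rw [card_filter]

theorem cnt_add (A B : ℕ) (P : ℕ → Prop) :
    cnt (A + B) P = cnt A P + cnt B (fun y => P (A + y)) := by
  classical
  rw [cnt_eq_sum, cnt_eq_sum, cnt_eq_sum, sum_range_add]

theorem cnt_blocks (A B : ℕ) (P : ℕ → Prop) :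
    ∑ b ∈ range A, cnt B (fun y => P (b * B + y)) = cnt (A * B) P := by
  induction A with
  | zero => simp [cnt]
  | succ A ih =>
    rw [sum_range_succ, ih, Nat.succ_mul, cnt_add]

theorem cnt_swap (M N : ℕ) (P : ℕ → ℕ → Prop) :
    ∑ y ∈ range N, cnt M (fun s => P s y) = ∑ s ∈ range M, cnt N (fun y => P s y) := by
  classical
  simp only [cnt_eq_sum]
  rw [sum_comm]

theorem cnt2_one (B : ℕ) (P : ℕ → ℕ → Prop) : cnt2 1 B P = cnt B (fun x => P 0 x) := by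
  classical
  unfold cnt2
  rw [cnt_eq_sum]
  refine sum_congr rfl fun x _ => ?_
  rw [cnt_eq_sum, sum_range_one]

/-- Markov for double counts. -/
theorem cnt_cnt (M N T : ℕ) (P : ℕ → ℕ → Prop) (X : ℝ)
    (h : ∀ s < M, (cnt N (fun y => P s y) : ℝ) ≤ X) :
    (cnt N (fun y => ¬ cnt M (fun s => P s y) ≤ T) : ℝ) * T ≤ M * X := by
  have h1 := cnt_markov (M := N) (P := fun y => ¬ cnt M (fun s => P s y) ≤ T)
    (f := fun y => (cnt M (fun s => P s y) : ℝ)) (c := T) (fun _ _ => Nat.cast_nonneg _)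
    (fun m _ hm => by
      have := le_of_lt (not_le.1 hm)
      exact_mod_cast this)
  have h2 : ∑ y ∈ range N, (cnt M (fun s => P s y) : ℝ) =
      ∑ s ∈ range M, (cnt N (fun y => P s y) : ℝ) := by
    exact_mod_cast cnt_swap M N P
  rw [h2] at h1
  have h3 : ∑ s ∈ range M, (cnt N (fun y => P s y) : ℝ) ≤ ∑ s ∈ range M, X :=
    sum_le_sum fun s hs => h s (mem_range.1 hs)
  rw [sum_const, card_range, nsmul_eq_mul] at h3
  linarith

/-- Bad5 for a block, all pairs of shifts. -/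
theorem five (hB5 : B5Stmt) (q c L g9 q1 : ℕ) (hq : 1 ≤ q) (hL : 1 ≤ L) (Cf : ℕ)
    (d e : Fin q1 → ℤ) (hd : ∀ i, |d i| ≤ Cf) :
    ∃ p0 : ℕ, ∀ p ≥ p0, ∀ uf w κ β D : ℕ, uf + L ≤ β → D ≤ 2 ^ κ → 100 * w ≤ κ →
      20 * (q * p) + 20 * p ≤ w → κ + 600 * w ≤ uf → ∀ n1 : ℤ,
      (cnt (2 ^ β) (fun y => ∃ i i' : Fin q1, ∃ h h' t t' : ℤ, |h| ≤ 2 ^ (72 * w) ∧
        |h'| ≤ 2 ^ (72 * w) ∧ |t| ≤ 2 ^ (18 * w) ∧ |t'| ≤ 2 ^ (18 * w) ∧
        del c (d i) (d i') (h + D * t) (h' + D * t') ≠ 0 ∧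
        Bad5 q L g9 p uf (400 * w) (del c (d i) (d i') (h + D * t) (h' + D * t'))
          (del1 c (d i) (d i') (e i) (e i') (h + D * t) (h' + D * t')) (n1 + y)) : ℝ) * 2 ^ p
        ≤ 2 ^ β := by
  classical
  obtain ⟨p0, hp0⟩ := hB5 q L g9 hq hL
  refine ⟨max p0 (48 * c + 6 * Cf + q1 * q1 + 8), ?_⟩
  intro p hp uf w κ β D huf hD hκ hw hu n1
  have hp1 : p0 ≤ p := (le_max_left _ _).trans hp
  have hp2 : 48 * c + 6 * Cf + q1 * q1 + 8 ≤ p := (le_max_right _ _).trans hp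
  have hpw : p ≤ w := by nlinarith [Nat.zero_le (q * p)]
  obtain ⟨I, hI⟩ : ∃ I : Finset ((Fin q1 × Fin q1) × (ℤ × ℤ) × (ℤ × ℤ)), I =
    ((univ : Finset (Fin q1 × Fin q1)) ×ˢ
      ((Icc (-(2 : ℤ) ^ (72 * w)) (2 ^ (72 * w))) ×ˢ (Icc (-(2 : ℤ) ^ (72 * w)) (2 ^ (72 * w)))) ×ˢ
      ((Icc (-(2 : ℤ) ^ (18 * w)) (2 ^ (18 * w))) ×ˢ
        (Icc (-(2 : ℤ) ^ (18 * w)) (2 ^ (18 * w))))).filter
      (fun z : (Fin q1 × Fin q1) × (ℤ × ℤ) × (ℤ × ℤ) => del c (d z.1.1) (d z.1.2) (z.2.1.1 + D * z.2.2.1) (z.2.1.2 + D * z.2.2.2) ≠ 0) :=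
    ⟨_, rfl⟩
  obtain ⟨Q, hQ⟩ : ∃ Q : ((Fin q1 × Fin q1) × (ℤ × ℤ) × (ℤ × ℤ)) → ℕ → Prop, Q = fun (z : (Fin q1 × Fin q1) × (ℤ × ℤ) × (ℤ × ℤ)) (y : ℕ) =>
    Bad5 q L g9 p uf (400 * w)
      (del c (d z.1.1) (d z.1.2) (z.2.1.1 + D * z.2.2.1) (z.2.1.2 + D * z.2.2.2))
      (del1 c (d z.1.1) (d z.1.2) (e z.1.1) (e z.1.2)
        (z.2.1.1 + D * z.2.2.1) (z.2.1.2 + D * z.2.2.2)) (n1 + y) := ⟨_, rfl⟩
  have h1 : cnt (2 ^ β) (fun y => ∃ i i' : Fin q1, ∃ h h' t t' : ℤ, |h| ≤ 2 ^ (72 * w) ∧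
        |h'| ≤ 2 ^ (72 * w) ∧ |t| ≤ 2 ^ (18 * w) ∧ |t'| ≤ 2 ^ (18 * w) ∧
        del c (d i) (d i') (h + D * t) (h' + D * t') ≠ 0 ∧
        Bad5 q L g9 p uf (400 * w) (del c (d i) (d i') (h + D * t) (h' + D * t'))
          (del1 c (d i) (d i') (e i) (e i') (h + D * t) (h' + D * t')) (n1 + y)) ≤
      cnt (2 ^ β) (fun y => ∃ z ∈ I, Q z y) := by
    refine cnt_mono ?_
    rintro y _ ⟨i, i', h, h', t, t', hh, hh', ht, ht', hne, hbad⟩
    refine ⟨((i, i'), (h, h'), (t, t')), ?_, ?_⟩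
    · rw [hI, mem_filter]
      rw [abs_le] at hh hh' ht ht'
      refine ⟨?_, hne⟩
      simp only [mem_product, mem_univ, mem_Icc, true_and]
      exact ⟨⟨hh, hh'⟩, ht, ht'⟩
    · rw [hQ]
      exact hbad
  have h2 := cnt_exists (2 ^ β) I Q
  have hD' : (D : ℤ) ≤ 2 ^ κ := by exact_mod_cast hD
  have h3 : ∀ z ∈ I, (cnt (2 ^ β) (Q z) : ℝ) * 2 ^ (400 * w) ≤
      2 ^ β * 2 ^ ((8 * q + 8) * p) := by
    rintro ⟨⟨i, i'⟩, ⟨h, h'⟩, ⟨t, t'⟩⟩ hz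
    rw [hI, mem_filter] at hz
    simp only [mem_product, mem_univ, mem_Icc, true_and] at hz
    obtain ⟨⟨⟨hh, hh'⟩, ht, ht'⟩, hne⟩ := hz
    rw [← abs_le] at hh hh' ht ht'
    rw [hQ]
    refine hp0 p hp1 uf (400 * w) (κ + 100 * w) β huf ?_ _ _ hne ?_ n1
    · have e1 : (10 * q + 10) * p = 10 * (q * p) + 10 * p := by ring
      rw [e1]
      omega
    · -- size of del
      have hH : ∀ x : ℤ, ∀ y : ℤ, |x| ≤ 2 ^ (72 * w) → |y| ≤ 2 ^ (18 * w) →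
          |x + D * y| ≤ 2 * 2 ^ (κ + 18 * w) := by
        intro x y hx hy
        have a1 : |x + D * y| ≤ |x| + |(D : ℤ) * y| := abs_add_le _ _
        have a2 : |(D : ℤ) * y| ≤ 2 ^ κ * 2 ^ (18 * w) := by
          rw [abs_mul, abs_of_nonneg (by positivity : (0 : ℤ) ≤ (D : ℤ))]
          exact mul_le_mul hD' hy (abs_nonneg _) (by positivity)
        have a3 : (2 : ℤ) ^ (72 * w) ≤ 2 ^ (κ + 18 * w) :=
          pow_le_pow_right₀ (by norm_num) (by omega)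
        rw [pow_add] at a3 ⊢
        linarith
      have b1 := hH h t hh ht
      have b2 := hH h' t' hh' ht'
      have b3 : |(h + D * t) - (h' + D * t')| ≤ 4 * 2 ^ (κ + 18 * w) := by
        rw [abs_le] at b1 b2 ⊢
        constructor <;> linarith [b1.1, b1.2, b2.1, b2.2]
      have b4 : |d i - d i'| ≤ 2 * Cf := by
        have c1 := hd i
        have c2 := hd i'
        rw [abs_le] at c1 c2 ⊢
        constructor <;> linarith [c1.1, c1.2, c2.1, c2.2]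
      have b5 : |del c (d i) (d i') (h + D * t) (h' + D * t')| ≤
          12 * c * (4 * 2 ^ (κ + 18 * w)) + 3 * (2 * Cf) := by
        unfold del
        refine (abs_add_le _ _).trans ?_
        rw [abs_mul (12 * (c : ℤ)), abs_mul (3 : ℤ),
          abs_of_nonneg (by positivity : (0 : ℤ) ≤ 12 * (c : ℤ)),
          abs_of_nonneg (by norm_num : (0 : ℤ) ≤ 3)]
        refine add_le_add ?_ ?_
        · exact mul_le_mul_of_nonneg_left b3 (by positivity)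
        · exact mul_le_mul_of_nonneg_left b4 (by norm_num)
      refine b5.trans ?_
      have b6 : (1 : ℤ) ≤ 2 ^ (κ + 18 * w) := one_le_pow₀ (by norm_num)
      have b7 : ((48 * c + 6 * Cf : ℕ) : ℤ) ≤ 2 ^ (82 * w) := by
        have : 48 * c + 6 * Cf ≤ 2 ^ (82 * w) := by
          calc 48 * c + 6 * Cf ≤ 82 * w := by omega
            _ ≤ 2 ^ (82 * w) := Nat.lt_two_pow_self.le
        exact_mod_cast this
      have b8 : (2 : ℤ) ^ (κ + 100 * w) = 2 ^ (82 * w) * 2 ^ (κ + 18 * w) := by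
        rw [← pow_add]
        congr 1
        omega
      rw [b8]
      push_cast at b7
      calc 12 * (c : ℤ) * (4 * 2 ^ (κ + 18 * w)) + 3 * (2 * (Cf : ℤ)) ≤
          (48 * (c : ℤ) + 6 * (Cf : ℤ)) * 2 ^ (κ + 18 * w) := by
            have : (0 : ℤ) ≤ (Cf : ℤ) := by positivity
            nlinarith
        _ ≤ 2 ^ (82 * w) * 2 ^ (κ + 18 * w) := mul_le_mul_of_nonneg_right b7 (by positivity)
  have hcard : (I.card : ℝ) ≤ 2 ^ w * 2 ^ (8 + 180 * w) := by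
    have hIcc : ∀ n : ℕ, (Icc (-(2 : ℤ) ^ n) (2 ^ n)).card ≤ 2 ^ (n + 2) := by
      intro n
      rw [Int.card_Icc, Int.toNat_le]
      have : (1 : ℤ) ≤ 2 ^ n := one_le_pow₀ (by norm_num)
      push_cast
      rw [pow_add]
      linarith
    have hc1 : I.card ≤ 2 ^ w * 2 ^ (8 + 180 * w) := by
      rw [hI]
      refine (card_filter_le _ _).trans ?_
      rw [card_product, card_product, card_product, card_product, card_univ, Fintype.card_prod,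
        Fintype.card_fin]
      have e1 : 2 ^ w * 2 ^ (8 + 180 * w) = 2 ^ w * ((2 ^ (72 * w + 2) * 2 ^ (72 * w + 2)) *
          (2 ^ (18 * w + 2) * 2 ^ (18 * w + 2))) := by
        have e0 : 8 + 180 * w = (72 * w + 2 + (72 * w + 2)) + (18 * w + 2 + (18 * w + 2)) := by
          omega
        rw [e0, pow_add 2 (72 * w + 2 + (72 * w + 2)), pow_add 2 (72 * w + 2) (72 * w + 2),
          pow_add 2 (18 * w + 2) (18 * w + 2)]
      rw [e1]
      refine Nat.mul_le_mul ?_ (Nat.mul_le_mul (Nat.mul_le_mul (hIcc _) (hIcc _))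
        (Nat.mul_le_mul (hIcc _) (hIcc _)))
      calc q1 * q1 ≤ w := by omega
        _ ≤ 2 ^ w := Nat.lt_two_pow_self.le
    exact_mod_cast hc1
  have hsum : (cnt (2 ^ β) (fun y => ∃ i i' : Fin q1, ∃ h h' t t' : ℤ, |h| ≤ 2 ^ (72 * w) ∧
        |h'| ≤ 2 ^ (72 * w) ∧ |t| ≤ 2 ^ (18 * w) ∧ |t'| ≤ 2 ^ (18 * w) ∧
        del c (d i) (d i') (h + D * t) (h' + D * t') ≠ 0 ∧
        Bad5 q L g9 p uf (400 * w) (del c (d i) (d i') (h + D * t) (h' + D * t'))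
          (del1 c (d i) (d i') (e i) (e i') (h + D * t) (h' + D * t')) (n1 + y)) : ℝ) ≤
      ∑ z ∈ I, (cnt (2 ^ β) (Q z) : ℝ) := by
    exact_mod_cast h1.trans h2
  have hpos : (0 : ℝ) < 2 ^ (400 * w) := by positivity
  refine le_of_mul_le_mul_right ?_ hpos
  calc _ ≤ (∑ z ∈ I, (cnt (2 ^ β) (Q z) : ℝ)) * 2 ^ p * 2 ^ (400 * w) := by
        refine mul_le_mul_of_nonneg_right ?_ (by positivity)
        exact mul_le_mul_of_nonneg_right hsum (by positivity)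
    _ = (∑ z ∈ I, (cnt (2 ^ β) (Q z) : ℝ) * 2 ^ (400 * w)) * 2 ^ p := by
        rw [← sum_mul]; ring
    _ ≤ (∑ z ∈ I, (2 : ℝ) ^ β * 2 ^ ((8 * q + 8) * p)) * 2 ^ p :=
        mul_le_mul_of_nonneg_right (sum_le_sum h3) (by positivity)
    _ = (I.card : ℝ) * (2 ^ β * 2 ^ ((8 * q + 8) * p) * 2 ^ p) := by
        rw [sum_const, nsmul_eq_mul]; ring
    _ ≤ (2 ^ w * 2 ^ (8 + 180 * w)) * (2 ^ β * 2 ^ ((8 * q + 8) * p) * 2 ^ p) :=
        mul_le_mul_of_nonneg_right hcard (by positivity)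
    _ = 2 ^ β * 2 ^ (w + (8 + 180 * w) + (8 * q + 8) * p + p) := by
        rw [pow_add _ _ p, pow_add _ _ ((8 * q + 8) * p), pow_add _ w]
        ring
    _ ≤ 2 ^ β * 2 ^ (400 * w) := by
        refine mul_le_mul_of_nonneg_left ?_ (by positivity)
        refine pow_le_pow_right₀ (by norm_num) ?_
        have e1 : (8 * q + 8) * p = 8 * (q * p) + 8 * p := by ring
        rw [e1]
        omega

/-- Union bound for the base points of a block. -/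
theorem gb_block {q1 : ℕ} (q p L g9 v1 K1 K2 σ κh κt c D N : ℕ) (d e : Fin q1 → ℤ) (n1 : ℤ) :
    cnt N (fun y => ¬ Gb q p L g9 v1 K1 K2 σ κh κt c D d e (n1 + y)) ≤
      (∑ j ∈ range K1, cnt N (fun y => ¬ cnt (2 ^ ((16 * q + 12) * p))
        (fun s1 => Bad2 q c L g9 p (v1 + (j + 1) * p) (v1 + K1 * p) (σ - (16 * q + 12) * p) κh κt D
        (n1 + y + s1 * 2 ^ (σ - (16 * q + 12) * p))) ≤ 2 ^ ((14 * q + 10) * p))) +
      (cnt N (fun y => Bad3 q c L g9 p (v1 + K1 * p + L) (v1 + K1 * p) σ (n1 + y)) +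
      ((∑ j ∈ range K2, cnt N (fun y => Bad3 q c L g9 p
        (v1 + K1 * p + L + (2 * q + 4) * p + (j + 1) * p) (v1 + K1 * p) σ (n1 + y))) +
      cnt N (fun y => ∃ i i' : Fin q1, ∃ h h' t t' : ℤ, |h| ≤ 2 ^ κh ∧
        |h'| ≤ 2 ^ κh ∧ |t| ≤ 2 ^ κt ∧ |t'| ≤ 2 ^ κt ∧
        del c (d i) (d i') (h + D * t) (h' + D * t') ≠ 0 ∧
        Bad5 q L g9 p (v1 + K1 * p) σ (del c (d i) (d i') (h + D * t) (h' + D * t'))
          (del1 c (d i) (d i') (e i) (e i') (h + D * t) (h' + D * t')) (n1 + y)))) := by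
  classical
  have h0 : cnt N (fun y => ¬ Gb q p L g9 v1 K1 K2 σ κh κt c D d e (n1 + y)) ≤
      cnt N (fun y => (∃ j ∈ range K1, ¬ cnt (2 ^ ((16 * q + 12) * p))
        (fun s1 => Bad2 q c L g9 p (v1 + (j + 1) * p) (v1 + K1 * p) (σ - (16 * q + 12) * p) κh κt D
        (n1 + y + s1 * 2 ^ (σ - (16 * q + 12) * p))) ≤ 2 ^ ((14 * q + 10) * p)) ∨
        (Bad3 q c L g9 p (v1 + K1 * p + L) (v1 + K1 * p) σ (n1 + y) ∨
        ((∃ j ∈ range K2, Bad3 q c L g9 p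
          (v1 + K1 * p + L + (2 * q + 4) * p + (j + 1) * p) (v1 + K1 * p) σ (n1 + y)) ∨
        (∃ i i' : Fin q1, ∃ h h' t t' : ℤ, |h| ≤ 2 ^ κh ∧
          |h'| ≤ 2 ^ κh ∧ |t| ≤ 2 ^ κt ∧ |t'| ≤ 2 ^ κt ∧
          del c (d i) (d i') (h + D * t) (h' + D * t') ≠ 0 ∧
          Bad5 q L g9 p (v1 + K1 * p) σ (del c (d i) (d i') (h + D * t) (h' + D * t'))
          (del1 c (d i) (d i') (e i) (e i') (h + D * t) (h' + D * t')) (n1 + y))))) := by
    refine cnt_mono ?_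
    intro y _ hy
    by_contra hcon
    push Not at hcon
    obtain ⟨c1, c2, c3, c4⟩ := hcon
    apply hy
    refine ⟨?_, c2, ?_, ?_⟩
    · intro j hj
      exact c1 j (mem_range.2 hj)
    · intro j hj
      exact c3 j (mem_range.2 hj)
    · intro i i' h h' t t' a1 a2 a3 a4 a5
      exact c4 i i' h h' t t' a1 a2 a3 a4 a5
  refine h0.trans ((cnt_or _ _ _).trans (Nat.add_le_add (cnt_exists _ _ _) ?_))
  refine (cnt_or _ _ _).trans (Nat.add_le_add_left ?_ _)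
  exact (cnt_or _ _ _).trans (Nat.add_le_add (cnt_exists _ _ _) le_rfl)

theorem most3 (hB2 : B2Stmt) (hB3 : B3Stmt) (hB5 : B5Stmt) (hAVG : AVGStmt) : Most3Stmt := by
  classical
  intro q1 c Cf kk Kn CR ε1 ε hq1 hc hCR hε1 hε d e hd L g9 hL
  obtain ⟨q, hq⟩ : ∃ q, q = q1 * 2 ^ kk := ⟨_, rfl⟩
  have hq0 : 1 ≤ q := by
    rw [hq]
    exact Nat.mul_pos hq1 (by positivity)
  rw [← hq]
  obtain ⟨p2, hp2⟩ := hB2 q c L g9 hq0 hc hL
  obtain ⟨p3, hp3⟩ := hB3 q c L g9 hq0 hc hL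
  obtain ⟨p5, hp5⟩ := five hB5 q c L g9 q1 hq0 hL Cf d e hd
  obtain ⟨p6, hp6⟩ : ∃ p6 : ℕ, (2 * Kn + 3 : ℝ) / (ε1 * ε) < 2 ^ p6 :=
    pow_unbounded_of_one_lt _ (by norm_num)
  have hp6' : (2 * Kn + 3 : ℝ) ≤ ε1 * ε * 2 ^ p6 := by
    rw [div_lt_iff₀ (by positivity)] at hp6
    linarith
  refine ⟨C1 q * (p2 + p3 + p5 + p6 + 1) + L, ?_⟩
  intro w hw ν a β p v1 K1 K2 haw hβ h10 hwp hK1 hK2 hu1 hu2 hsum Dd hDd
  have hC1 : C1 q = 6 * q ^ 2 + 30 * q + 20 := rfl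
  have hLw : L ≤ w := by omega
  have hpp : p2 + p3 + p5 + p6 + 1 ≤ p := by
    have h1 : C1 q * (p2 + p3 + p5 + p6 + 1) ≤ C1 q * p := by rw [← hwp]; omega
    exact Nat.le_of_mul_le_mul_left h1 (by rw [hC1]; positivity)
  have hw20 : 20 * (q * p) + 20 * p ≤ w := by
    rw [hwp, hC1]
    nlinarith [Nat.zero_le (q ^ 2 * p), Nat.zero_le (q * p)]
  have hCRw : 2000 * w ≤ CR * w := Nat.mul_le_mul_right _ hCR
  have e1 : (16 * q + 12) * p = 16 * (q * p) + 12 * p := by ring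
  have e2 : (60 * q + 60) * p = 60 * (q * p) + 60 * p := by ring
  have e3 : (2 * q + 4) * p = 2 * (q * p) + 4 * p := by ring
  have e4 : (2 * q + 5) * p = 2 * (q * p) + 5 * p := by ring
  obtain ⟨qp, hqp⟩ : ∃ z, z = q * p := ⟨_, rfl⟩
  rw [← hqp] at hw20 e1 e2 e3 e4
  have hβa : β ≤ a := by omega
  have hβ1 : CR * w + 12000 * w ≤ β := by omega
  have hufβ : v1 + K1 * p + L ≤ β := by omega
  have hab : 2 ^ (a - β) * 2 ^ β = 2 ^ a := by
    rw [← pow_add]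
    congr 1
    omega
  have habR : (2 : ℝ) ^ (a - β) * 2 ^ β = 2 ^ a := by exact_mod_cast hab
  -- the estimate for one block
  have hblock : ∀ b : ℕ, (cnt (2 ^ β) (fun y => ¬ Gb q p L g9 v1 K1 K2 (400 * w) (72 * w)
      (18 * w) c (Dd b) d e (((b * 2 ^ β + y : ℕ) : ℕ) : ℤ)) : ℝ) * 2 ^ p ≤
      2 ^ β * (K1 + 1) +
      ((cnt (2 ^ β) (fun y => Bad3 q c L g9 p (v1 + K1 * p + L) (v1 + K1 * p) (400 * w)
        (((b * 2 ^ β + y : ℕ) : ℕ) : ℤ)) : ℝ) * 2 ^ p +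
      ∑ j ∈ range K2, (cnt (2 ^ β) (fun y => Bad3 q c L g9 p
        (v1 + K1 * p + L + (2 * q + 4) * p + (j + 1) * p) (v1 + K1 * p) (400 * w)
        (((b * 2 ^ β + y : ℕ) : ℕ) : ℤ)) : ℝ) * 2 ^ p) := by
    intro b
    have hg := gb_block q p L g9 v1 K1 K2 (400 * w) (72 * w) (18 * w) c (Dd b) (2 ^ β) d e
      ((b * 2 ^ β : ℕ) : ℤ)
    have hc2 : ∀ j ∈ range K1, (cnt (2 ^ β) (fun y => ¬ cnt (2 ^ ((16 * q + 12) * p))
        (fun s1 => Bad2 q c L g9 p (v1 + (j + 1) * p) (v1 + K1 * p) (400 * w - (16 * q + 12) * p)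
          (72 * w) (18 * w) (Dd b)
        (((b * 2 ^ β : ℕ) : ℤ) + y + s1 * 2 ^ (400 * w - (16 * q + 12) * p))) ≤
          2 ^ ((14 * q + 10) * p)) : ℝ) * 2 ^ p ≤ 2 ^ β := by
      intro j hj
      have hj' := mem_range.1 hj
      have hjp : (j + 1) * p ≤ K1 * p := Nat.mul_le_mul_right _ hj'
      have hX : ∀ s : ℕ, s < 2 ^ ((16 * q + 12) * p) → (cnt (2 ^ β) (fun y =>
          Bad2 q c L g9 p (v1 + (j + 1) * p) (v1 + K1 * p) (400 * w - (16 * q + 12) * p)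
          (72 * w) (18 * w) (Dd b)
          (((b * 2 ^ β : ℕ) : ℤ) + y + s * 2 ^ (400 * w - (16 * q + 12) * p))) : ℝ) ≤
          2 ^ β / 2 ^ ((10 * q + 10) * p) := by
        intro s _
        rw [le_div_iff₀ (by positivity)]
        have := hp2 p (by omega) (v1 + (j + 1) * p) (v1 + K1 * p) (400 * w - (16 * q + 12) * p)
          (72 * w) (18 * w) (Dd b) β (by omega) hufβ (by omega) (by omega)
          (((b * 2 ^ β : ℕ) : ℤ) + s * 2 ^ (400 * w - (16 * q + 12) * p))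
        have e : ∀ y : ℕ, ((b * 2 ^ β : ℕ) : ℤ) + y + s * 2 ^ (400 * w - (16 * q + 12) * p) =
          ((b * 2 ^ β : ℕ) : ℤ) + s * 2 ^ (400 * w - (16 * q + 12) * p) + y := fun y => by ring
        simp only [e]
        exact this
      have h1 := cnt_cnt (2 ^ ((16 * q + 12) * p)) (2 ^ β) (2 ^ ((14 * q + 10) * p))
        (fun s y => Bad2 q c L g9 p (v1 + (j + 1) * p) (v1 + K1 * p)
          (400 * w - (16 * q + 12) * p) (72 * w) (18 * w) (Dd b)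
          (((b * 2 ^ β : ℕ) : ℤ) + y + s * 2 ^ (400 * w - (16 * q + 12) * p))) _ hX
      push_cast at h1
      have hT : (0 : ℝ) < 2 ^ ((14 * q + 10) * p) := by positivity
      have hT2 : (0 : ℝ) < 2 ^ ((10 * q + 10) * p) := by positivity
      have h2 : (2 : ℝ) ^ p * 2 ^ ((16 * q + 12) * p) ≤
          2 ^ ((14 * q + 10) * p) * 2 ^ ((10 * q + 10) * p) := by
        rw [← pow_add, ← pow_add]
        refine pow_le_pow_right₀ (by norm_num) ?_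
        have e5 : (14 * q + 10) * p + (10 * q + 10) * p = 24 * (q * p) + 20 * p := by ring
        have e6 : p + (16 * q + 12) * p = 16 * (q * p) + 13 * p := by ring
        rw [e5, e6]
        omega
      refine le_of_mul_le_mul_right ?_ hT
      refine le_of_mul_le_mul_right ?_ hT2
      push_cast
      calc _ = ((cnt (2 ^ β) (fun y => ¬ cnt (2 ^ ((16 * q + 12) * p))
            (fun s1 => Bad2 q c L g9 p (v1 + (j + 1) * p) (v1 + K1 * p)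
            (400 * w - (16 * q + 12) * p) (72 * w) (18 * w) (Dd b)
            (((b : ℤ) * 2 ^ β) + y + s1 * 2 ^ (400 * w - (16 * q + 12) * p))) ≤
            2 ^ ((14 * q + 10) * p)) : ℝ) * 2 ^ ((14 * q + 10) * p)) * 2 ^ ((10 * q + 10) * p)
              * 2 ^ p := by ring
        _ ≤ (2 ^ ((16 * q + 12) * p) * (2 ^ β / 2 ^ ((10 * q + 10) * p))) *
              2 ^ ((10 * q + 10) * p) * 2 ^ p := by
            refine mul_le_mul_of_nonneg_right ?_ (by positivity)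
            exact mul_le_mul_of_nonneg_right h1 (by positivity)
        _ = 2 ^ β * (2 ^ p * 2 ^ ((16 * q + 12) * p)) := by
            field_simp
        _ ≤ 2 ^ β * (2 ^ ((14 * q + 10) * p) * 2 ^ ((10 * q + 10) * p)) :=
            mul_le_mul_of_nonneg_left h2 (by positivity)
        _ = _ := by ring
    have hc5 := hp5 p (by omega) (v1 + K1 * p) w (CR * w) β (Dd b) hufβ (hDd b) (by omega)
      (by rw [← hqp]; exact hw20) (by omega) ((b * 2 ^ β : ℕ) : ℤ)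
    have e : ∀ y : ℕ, (((b * 2 ^ β + y : ℕ) : ℕ) : ℤ) = ((b * 2 ^ β : ℕ) : ℤ) + y :=
        fun y => by push_cast; ring
    simp only [e]
    have hgR := (Nat.cast_le (α := ℝ)).mpr hg
    refine (mul_le_mul_of_nonneg_right hgR (by positivity)).trans ?_
    push_cast
    have hs2 := sum_le_sum hc2
    rw [sum_const, card_range, nsmul_eq_mul, ← sum_mul] at hs2
    rw [← sum_mul]
    push_cast at hs2 hc5 ⊢
    linarith
  -- sum over the blocks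
  have hBad3 : ∀ v : ℕ, (v = v1 + K1 * p + L ∨ v1 + K1 * p + L + (2 * q + 5) * p ≤ v) → v ≤ a →
      (∑ b ∈ range (2 ^ (a - β)), (cnt (2 ^ β) (fun y => Bad3 q c L g9 p v (v1 + K1 * p)
        (400 * w) (((b * 2 ^ β + y : ℕ) : ℕ) : ℤ)) : ℝ)) * 2 ^ p ≤ 2 ^ a := by
    intro v hv hva
    have h1 := hp3 p (by omega) v (v1 + K1 * p) (400 * w) a hv hva (by omega) (by omega)
    have h2 := cnt_blocks (2 ^ (a - β)) (2 ^ β)
      (fun n => Bad3 q c L g9 p v (v1 + K1 * p) (400 * w) (n : ℤ))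
    rw [hab] at h2
    have h3 : ∑ b ∈ range (2 ^ (a - β)), (cnt (2 ^ β) (fun y => Bad3 q c L g9 p v (v1 + K1 * p)
        (400 * w) (((b * 2 ^ β + y : ℕ) : ℕ) : ℤ)) : ℝ) =
        (cnt (2 ^ a) (fun n => Bad3 q c L g9 p v (v1 + K1 * p) (400 * w) (n : ℤ)) : ℝ) := by
      exact_mod_cast h2
    rw [h3]
    refine le_trans ?_ h1
    refine mul_le_mul_of_nonneg_left ?_ (by positivity)
    refine pow_le_pow_right₀ (by norm_num) ?_
    nlinarith [Nat.zero_le (q * p)]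
  have hQsum : (∑ b ∈ range (2 ^ (a - β)), (cnt (2 ^ β) (fun y => ¬ Gb q p L g9 v1 K1 K2 (400 * w)
      (72 * w) (18 * w) c (Dd b) d e (((b * 2 ^ β + y : ℕ) : ℕ) : ℤ)) : ℝ)) * 2 ^ p ≤
      2 ^ a * (2 * Kn + 2) := by
    rw [sum_mul]
    refine (sum_le_sum fun b _ => hblock b).trans ?_
    rw [sum_add_distrib, sum_add_distrib, sum_const, card_range, nsmul_eq_mul]
    have h1 := hBad3 (v1 + K1 * p + L) (Or.inl rfl) (by omega)
    rw [sum_mul] at h1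
    have h2 : ∑ b ∈ range (2 ^ (a - β)), ∑ j ∈ range K2, (cnt (2 ^ β) (fun y => Bad3 q c L g9 p
        (v1 + K1 * p + L + (2 * q + 4) * p + (j + 1) * p) (v1 + K1 * p) (400 * w)
        (((b * 2 ^ β + y : ℕ) : ℕ) : ℤ)) : ℝ) * 2 ^ p ≤ 2 ^ a * K2 := by
      rw [sum_comm]
      have h3 : ∀ j ∈ range K2, ∑ b ∈ range (2 ^ (a - β)), (cnt (2 ^ β) (fun y => Bad3 q c L g9 p
          (v1 + K1 * p + L + (2 * q + 4) * p + (j + 1) * p) (v1 + K1 * p) (400 * w)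
          (((b * 2 ^ β + y : ℕ) : ℕ) : ℤ)) : ℝ) * 2 ^ p ≤ 2 ^ a := by
        intro j hj
        have hj' := mem_range.1 hj
        have hjp : (j + 1) * p ≤ K2 * p := Nat.mul_le_mul_right _ hj'
        have hj1 : p ≤ (j + 1) * p := Nat.le_mul_of_pos_left _ (Nat.succ_pos _)
        have := hBad3 (v1 + K1 * p + L + (2 * q + 4) * p + (j + 1) * p)
          (Or.inr (by omega)) (by omega)
        rw [sum_mul] at this
        exact this
      have h4 := sum_le_sum h3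
      rw [sum_const, card_range, nsmul_eq_mul] at h4
      linarith
    have h5 : ((2 ^ (a - β) : ℕ) : ℝ) * (2 ^ β * ((K1 : ℝ) + 1)) = 2 ^ a * (K1 + 1) := by
      push_cast
      rw [← mul_assoc, habR]
    rw [h5]
    have hK1' : (K1 : ℝ) ≤ Kn := by exact_mod_cast hK1
    have hK2' : (K2 : ℝ) ≤ Kn := by exact_mod_cast hK2
    have hpa : (0 : ℝ) < 2 ^ a := by positivity
    nlinarith
  -- the average over the cells
  have hA := hAVG a β 1 (2 ^ (18 * w)) (2 ^ (18 * w + CR * w + 1)) Dd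
    (fun b y => ¬ Gb q p L g9 v1 K1 K2 (400 * w) (72 * w) (18 * w) c (Dd b) d e (y : ℤ)) hβa
    (by
      intro b
      have h1 : 2 ^ (18 * w) * Dd b ≤ 2 ^ (18 * w) * 2 ^ (CR * w) := Nat.mul_le_mul_left _ (hDd b)
      have h2 : 1 ≤ 2 ^ (18 * w) * 2 ^ (CR * w) := Nat.mul_pos (by positivity) (by positivity)
      rw [pow_succ, pow_add]
      omega)
  simp only [cnt2_one] at hA
  have hRp : ((2 ^ (18 * w + CR * w + 1) : ℕ) : ℝ) * 2 ^ p ≤ 2 ^ β := by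
    push_cast
    rw [← pow_add]
    exact pow_le_pow_right₀ (by norm_num) (by omega)
  have hsumA : (∑ n0 ∈ range (2 ^ a), (cnt (2 ^ (18 * w)) (fun x => ¬ Gb q p L g9 v1 K1 K2
        (400 * w) (72 * w) (18 * w) c (Dd (n0 / 2 ^ β)) d e
          ((n0 : ℤ) + (Dd (n0 / 2 ^ β) : ℕ) * x)) : ℝ)) * 2 ^ p ≤
      2 ^ (18 * w) * (2 ^ a * (2 * Kn + 3)) := by
    have ec : ∀ n0 x : ℕ, (((n0 + 0 + Dd (n0 / 2 ^ β) * x : ℕ) : ℕ) : ℤ) =
        (n0 : ℤ) + (Dd (n0 / 2 ^ β) : ℕ) * x := fun n0 x => by push_cast; ring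
    simp only [ec] at hA
    push_cast at hA ⊢
    rw [sum_add_distrib, sum_const, card_range, nsmul_eq_mul] at hA
    push_cast at hA hQsum hRp
    have h1 : ((2 : ℝ) ^ (a - β) * 2 ^ (18 * w + CR * w + 1)) * 2 ^ p ≤ 2 ^ a := by
      calc _ = (2 : ℝ) ^ (a - β) * (2 ^ (18 * w + CR * w + 1) * 2 ^ p) := by ring
        _ ≤ 2 ^ (a - β) * 2 ^ β := mul_le_mul_of_nonneg_left hRp (by positivity)
        _ = 2 ^ a := habR
    refine (mul_le_mul_of_nonneg_right hA (by positivity)).trans ?_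
    have hB : (0 : ℝ) < 2 ^ (18 * w) := by positivity
    calc _ = (2 : ℝ) ^ (18 * w) * ((∑ b ∈ range (2 ^ (a - β)), (cnt (2 ^ β) (fun y =>
            ¬ Gb q p L g9 v1 K1 K2 (400 * w) (72 * w) (18 * w) c (Dd b) d e
              ((b : ℤ) * 2 ^ β + (y : ℤ))) : ℝ)) * 2 ^ p +
            ((2 : ℝ) ^ (a - β) * 2 ^ (18 * w + CR * w + 1)) * 2 ^ p) := by ring
      _ ≤ 2 ^ (18 * w) * (2 ^ a * (2 * Kn + 2) + 2 ^ a) :=
          mul_le_mul_of_nonneg_left (add_le_add hQsum h1) hB.le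
      _ = _ := by ring
  have hM := cnt_markov (M := 2 ^ a)
    (P := fun n0 => ¬ ((cnt (2 ^ (18 * w)) (fun x => ¬ Gb q p L g9 v1 K1 K2
        (400 * w) (72 * w) (18 * w) c (Dd (n0 / 2 ^ β)) d e
          ((n0 : ℤ) + (Dd (n0 / 2 ^ β) : ℕ) * x)) : ℝ) ≤ ε1 * 2 ^ (18 * w)))
    (f := fun n0 => (cnt (2 ^ (18 * w)) (fun x => ¬ Gb q p L g9 v1 K1 K2
        (400 * w) (72 * w) (18 * w) c (Dd (n0 / 2 ^ β)) d e
          ((n0 : ℤ) + (Dd (n0 / 2 ^ β) : ℕ) * x)) : ℝ))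
    (c := ε1 * 2 ^ (18 * w)) (fun _ _ => Nat.cast_nonneg _)
    (fun m _ hm => (not_le.1 hm).le)
  have hpow : (2 : ℝ) ^ p6 ≤ 2 ^ p := pow_le_pow_right₀ (by norm_num) (by omega)
  have hfin : ε1 * 2 ^ (18 * w) * 2 ^ p * (cnt (2 ^ a) (fun n0 => ¬ ((cnt (2 ^ (18 * w)) (fun x =>
      ¬ Gb q p L g9 v1 K1 K2 (400 * w) (72 * w) (18 * w) c (Dd (n0 / 2 ^ β)) d e
          ((n0 : ℤ) + (Dd (n0 / 2 ^ β) : ℕ) * x)) : ℝ) ≤ ε1 * 2 ^ (18 * w))) : ℝ) ≤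
      ε1 * 2 ^ (18 * w) * 2 ^ p * (ε * 2 ^ a) := by
    calc _ = (ε1 * 2 ^ (18 * w) * (cnt (2 ^ a) (fun n0 => ¬ ((cnt (2 ^ (18 * w)) (fun x =>
          ¬ Gb q p L g9 v1 K1 K2 (400 * w) (72 * w) (18 * w) c (Dd (n0 / 2 ^ β)) d e
          ((n0 : ℤ) + (Dd (n0 / 2 ^ β) : ℕ) * x)) : ℝ) ≤ ε1 * 2 ^ (18 * w))) : ℝ)) * 2 ^ p := by
            ring
      _ ≤ 2 ^ (18 * w) * (2 ^ a * (2 * Kn + 3)) :=
          (mul_le_mul_of_nonneg_right hM (by positivity)).trans hsumA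
      _ ≤ 2 ^ (18 * w) * (2 ^ a * (ε1 * ε * 2 ^ p)) := by
          refine mul_le_mul_of_nonneg_left ?_ (by positivity)
          refine mul_le_mul_of_nonneg_left ?_ (by positivity)
          exact hp6'.trans (mul_le_mul_of_nonneg_left hpow (by positivity))
      _ = _ := by ring
  exact le_of_mul_le_mul_left hfin (by positivity)

end Pool.Agent.H30.T4
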