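import Mathlib
import Pool.Agent.H30.T4.Defs

/-! Project T4 (MP_68c2bd), T4-2: the basic properties of the space `hh` and the algebra `AA`. -/

set_option autoImplicit false

namespace Pool.Agent.H30.T4

open NormedSpace Module Pool.Agent.H71.AU Pool.Agent.H14.HP Pool.Agent.H14.HR

section A
variable {E : Type*} [NormedAddCommGroup E] [NormedSpace ℝ E] [CompleteSpace E]
  [FiniteDimensional ℝ E] {Γ : Type*} [Group Γ] {π : Γ →* (E →L[ℝ] E)} {τ : E →L[ℝ] ℝ} {x₀ : E}
  {A : Subgroup Γ} {n : ℕ}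

omit [CompleteSpace E] in
/-- A unipotent element of a subalgebra has its logarithm in the subalgebra. -/
theorem lg_mem [CompleteSpace E] (S : Subalgebra ℝ (E →L[ℝ] E)) {a : E →L[ℝ] E}
    (ha : IsNilpotent (a - 1)) (haS : a ∈ S) : lg a ∈ S := by
  have hfd : FiniteDimensional ℝ S := inferInstance
  have hcs : CompleteSpace S := FiniteDimensional.complete ℝ S
  have h1 : a - 1 ∈ S := S.sub_mem haS S.one_mem
  have hn : IsNilpotent (⟨a - 1, h1⟩ : S) := by
    obtain ⟨m, hm⟩ := ha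
    refine ⟨m, Subtype.ext ?_⟩
    rw [SubmonoidClass.coe_pow]
    exact hm
  obtain ⟨X, Y, hX, hY, hE⟩ := exists_log hn
  have hXn : IsNilpotent X := by
    rw [hX]
    exact ((hY _ (Commute.refl _)).symm).isNilpotent_mul_right hn
  obtain ⟨m, hm⟩ := hXn
  have hm' : (X : E →L[ℝ] E) ^ m = 0 := by
    have := congrArg (fun z : S => (z : E →L[ℝ] E)) hm
    simpa using this
  have hE' : exp (X : E →L[ℝ] E) = a := by
    have h2 : (exp X : S) = ∑ i ∈ Finset.range m, ((i.factorial : ℝ)⁻¹) • X ^ i :=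
      exp_eq_sum_of_pow hm
    have h3 : exp (X : E →L[ℝ] E) =
        ∑ i ∈ Finset.range m, ((i.factorial : ℝ)⁻¹) • (X : E →L[ℝ] E) ^ i :=
      exp_eq_sum_of_pow hm'
    have h4 : ((exp X : S) : E →L[ℝ] E) = exp (X : E →L[ℝ] E) := by
      rw [h2, h3]
      simp
    rw [← h4, hE]
    simp
  rw [lg_eq ha ⟨m, hm'⟩ hE']
  exact X.2

omit [FiniteDimensional ℝ E] [CompleteSpace E] in
/-- The maps that preserve `W`. -/
def pres (W : Submodule ℝ E) : Subalgebra ℝ (E →L[ℝ] E) where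
  carrier := {u | ∀ y ∈ W, u y ∈ W}
  mul_mem' := by
    intro u v hu hv y hy
    exact hu _ (hv y hy)
  one_mem' := fun y hy => hy
  add_mem' := by
    intro u v hu hv y hy
    exact W.add_mem (hu y hy) (hv y hy)
  zero_mem' := fun y _ => W.zero_mem
  algebraMap_mem' := by
    intro r y hy
    rw [Algebra.algebraMap_eq_smul_one]
    exact W.smul_mem r hy

theorem Cf.hcomm (C : Cf π τ x₀ A n) {X Y : E →L[ℝ] E} (hX : X ∈ hh π A) (hY : Y ∈ hh π A) :
    Commute X Y :=
  core_span_comm C.comm C.uni X hX Y hY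

theorem Cf.hnil (C : Cf π τ x₀ A n) {X : E →L[ℝ] E} (hX : X ∈ hh π A) : IsNilpotent X :=
  core_span_nil C.comm C.uni X hX

theorem Cf.htau (C : Cf π τ x₀ A n) {X : E →L[ℝ] E} (hX : X ∈ hh π A) (y : E) :
    τ (X y) = 0 :=
  core_span_tau C.comm C.uni C.sys.tau X hX y

theorem Cf.hinj (C : Cf π τ x₀ A n) {X : E →L[ℝ] E} (hX : X ∈ hh π A) {x : E} (hx : τ x = 1)
    (h0 : X x = 0) : X = 0 :=
  core_inj C.comm C.uni C.sys.prop hX hx h0

theorem Cf.hdim (C : Cf π τ x₀ A n) : finrank ℝ (hh π A) = n := by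
  obtain ⟨f, hf⟩ := C.fr
  refine le_antisymm ?_ (core_rank C.comm C.uni C.sys.prop C.tx n f hf.injective)
  let φ : (Fin n → ℤ) →+ (E →L[ℝ] E) :=
    { toFun := fun z => lg (π ((Additive.toMul (f z) : A) : Γ))
      map_zero' := by
        change lg (π ((Additive.toMul (f 0) : A) : Γ)) = 0
        rw [map_zero, toMul_zero, Subgroup.coe_one, map_one, core_lg_one]
      map_add' := fun z w => by
        change lg (π ((Additive.toMul (f (z + w)) : A) : Γ)) = _
        rw [map_add, toMul_add, Subgroup.coe_mul]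
        exact core_lg_mul C.comm C.uni (Subtype.mem _) (Subtype.mem _) }
  set v : Fin n → (E →L[ℝ] E) := fun i => φ (Pi.single i 1) with hv
  have hle : hh π A ≤ Submodule.span ℝ (Set.range v) := by
    refine Submodule.span_le.2 ?_
    rintro _ ⟨a, ha, rfl⟩
    obtain ⟨z, hz⟩ := hf.surjective (Additive.ofMul (⟨a, ha⟩ : A))
    have h1 : lg (π a) = φ z := by
      change lg (π a) = lg (π ((Additive.toMul (f z) : A) : Γ))
      rw [hz, toMul_ofMul]
    have h2 : φ z = ∑ i, z i • v i := by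
      have h3 : z = ∑ i, z i • (Pi.single i (1 : ℤ) : Fin n → ℤ) := by
        funext j
        simp [Finset.sum_apply, Pi.single_apply]
      conv_lhs => rw [h3]
      rw [map_sum]
      exact Finset.sum_congr rfl fun i _ => map_zsmul φ _ _
    rw [h1, h2]
    refine Submodule.sum_mem _ fun i _ => ?_
    rw [← Int.cast_smul_eq_zsmul ℝ]
    exact Submodule.smul_mem _ _ (Submodule.subset_span ⟨i, rfl⟩)
  calc finrank ℝ (hh π A) ≤ finrank ℝ (Submodule.span ℝ (Set.range v)) :=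
        Submodule.finrank_mono hle
    _ ≤ Fintype.card (Fin n) := finrank_range_le_card v
    _ = n := Fintype.card_fin n

theorem hh_le (C : Cf π τ x₀ A n) (S : Subalgebra ℝ (E →L[ℝ] E)) (hS : ∀ a ∈ A, π a ∈ S) :
    ∀ X ∈ hh π A, X ∈ S := by
  intro X hX
  have h : hh π A ≤ Subalgebra.toSubmodule S := by
    refine Submodule.span_le.2 ?_
    rintro _ ⟨a, ha, rfl⟩
    exact lg_mem S (C.uni a ha) (hS a ha)
  exact h hX

theorem Cf.hinv (C : Cf π τ x₀ A n) {X : E →L[ℝ] E} (hX : X ∈ hh π A) {W : Submodule ℝ E}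
    (hW : ∀ a ∈ A, ∀ y ∈ W, π a y ∈ W) : ∀ y ∈ W, X y ∈ W :=
  hh_le C (pres W) hW X hX

theorem Cf.acomm (C : Cf π τ x₀ A n) {u v : E →L[ℝ] E} (hu : u ∈ AA π A) (hv : v ∈ AA π A) :
    Commute u v := by
  have h1 : ∀ X ∈ hh π A, ∀ v ∈ AA π A, Commute X v := by
    intro X hX v hv
    induction hv using Algebra.adjoin_induction with
    | mem Y hY => exact C.hcomm hX hY
    | algebraMap r => exact (Algebra.commutes r X).symm
    | add a b _ _ h1 h2 => exact h1.add_right h2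
    | mul a b _ _ h1 h2 => exact h1.mul_right h2
  induction hu using Algebra.adjoin_induction with
  | mem X hX => exact h1 X hX v hv
  | algebraMap r => exact Algebra.commutes r v
  | add a b _ _ h1 h2 => exact h1.add_left h2
  | mul a b _ _ h1 h2 => exact h1.mul_left h2

theorem Cf.atau (C : Cf π τ x₀ A n) {u : E →L[ℝ] E} (hu : u ∈ AA π A) (y : E) :
    τ (u y) = τ (u x₀) * τ y := by
  induction hu using Algebra.adjoin_induction generalizing y with
  | mem X hX => rw [C.htau hX, C.htau hX, zero_mul]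
  | algebraMap r =>
    rw [Algebra.algebraMap_eq_smul_one, ContinuousLinearMap.smul_apply,
      ContinuousLinearMap.smul_apply, ContinuousLinearMap.one_apply,
      ContinuousLinearMap.one_apply, map_smul, map_smul, C.tx, smul_eq_mul, smul_eq_mul, mul_one]
  | add a b _ _ h1 h2 =>
    rw [ContinuousLinearMap.add_apply, ContinuousLinearMap.add_apply, map_add, map_add, h1 y,
      h2 y, add_mul]
  | mul a b _ _ h1 h2 =>
    rw [ContinuousLinearMap.mul_apply, ContinuousLinearMap.mul_apply, h1 (b y), h2 y,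
      h1 (b x₀), mul_assoc]

theorem Cf.anil_aux (C : Cf π τ x₀ A n) {u : E →L[ℝ] E} (hu : u ∈ AA π A) :
    IsNilpotent (u - (τ (u x₀)) • (1 : E →L[ℝ] E)) := by
  have hmem : ∀ v ∈ AA π A, ∀ c : ℝ, v - c • (1 : E →L[ℝ] E) ∈ AA π A := fun v hv c =>
    (AA π A).sub_mem hv ((AA π A).smul_mem (AA π A).one_mem c)
  have hu' := hu
  induction hu using Algebra.adjoin_induction with
  | mem X hX =>
    rw [C.htau hX, zero_smul, sub_zero]
    exact C.hnil hX
  | algebraMap r =>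
    have h : τ ((algebraMap ℝ (E →L[ℝ] E) r) x₀) = r := by
      rw [Algebra.algebraMap_eq_smul_one, ContinuousLinearMap.smul_apply,
        ContinuousLinearMap.one_apply, map_smul, C.tx, smul_eq_mul, mul_one]
    rw [h, Algebra.algebraMap_eq_smul_one, sub_self]
    exact IsNilpotent.zero
  | add a b ha hb h1 h2 =>
    have e : a + b - (τ ((a + b) x₀)) • (1 : E →L[ℝ] E) =
        (a - (τ (a x₀)) • (1 : E →L[ℝ] E)) + (b - (τ (b x₀)) • (1 : E →L[ℝ] E)) := by
      rw [ContinuousLinearMap.add_apply, map_add, add_smul]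
      abel
    rw [e]
    exact (C.acomm (hmem a ha _) (hmem b hb _)).isNilpotent_add (h1 ha) (h2 hb)
  | mul a b ha hb h1 h2 =>
    have e : a * b - (τ ((a * b) x₀)) • (1 : E →L[ℝ] E) =
        (a - (τ (a x₀)) • (1 : E →L[ℝ] E)) * b +
          (τ (a x₀)) • (b - (τ (b x₀)) • (1 : E →L[ℝ] E)) := by
      rw [ContinuousLinearMap.mul_apply, C.atau ha (b x₀), sub_mul, smul_mul_assoc, one_mul,
        smul_sub, smul_smul]
      abel
    rw [e]
    have hm1 : (a - (τ (a x₀)) • (1 : E →L[ℝ] E)) * b ∈ AA π A :=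
      (AA π A).mul_mem (hmem a ha _) hb
    have hm2 : (τ (a x₀)) • (b - (τ (b x₀)) • (1 : E →L[ℝ] E)) ∈ AA π A :=
      (AA π A).smul_mem (hmem b hb _) _
    exact (C.acomm hm1 hm2).isNilpotent_add
      ((C.acomm (hmem a ha _) hb).isNilpotent_mul_right (h1 ha)) ((h2 hb).smul _)

theorem Cf.anil (C : Cf π τ x₀ A n) {u : E →L[ℝ] E} (hu : u ∈ AA π A) (h0 : τ (u x₀) = 0) :
    IsNilpotent u := by
  have h := C.anil_aux hu
  rwa [h0, zero_smul, sub_zero] at h

theorem Cf.mem_aa (C : Cf π τ x₀ A n) {a : Γ} (ha : a ∈ A) : π a ∈ AA π A := by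
  have hX : lg (π a) ∈ hh π A := Submodule.subset_span ⟨a, ha, rfl⟩
  obtain ⟨m, hm⟩ := lg_nil (C.uni a ha)
  have h : π a = ∑ i ∈ Finset.range m, ((i.factorial : ℝ)⁻¹) • (lg (π a)) ^ i := by
    rw [← exp_eq_sum_of_pow hm, exp_lg (C.uni a ha)]
  rw [h]
  exact (AA π A).sum_mem fun i _ => (AA π A).smul_mem
    ((AA π A).pow_mem (Algebra.subset_adjoin hX) i) _

theorem Cf.ainv (C : Cf π τ x₀ A n) {u : E →L[ℝ] E} (hu : u ∈ AA π A) {W : Submodule ℝ E}
    (hW : ∀ a ∈ A, ∀ y ∈ W, π a y ∈ W) : ∀ y ∈ W, u y ∈ W := by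
  have h : AA π A ≤ pres W := Algebra.adjoin_le fun X hX => C.hinv hX hW
  exact h hu

theorem Cf.asurj (C : Cf π τ x₀ A n) (y : E) : ∃ u ∈ AA π A, u x₀ = y := by
  let M : Submodule ℝ E :=
    { carrier := {y | ∃ u ∈ AA π A, u x₀ = y}
      add_mem' := by
        rintro _ _ ⟨u, hu, rfl⟩ ⟨v, hv, rfl⟩
        exact ⟨u + v, (AA π A).add_mem hu hv, rfl⟩
      zero_mem' := ⟨0, (AA π A).zero_mem, rfl⟩
      smul_mem' := by
        rintro c _ ⟨u, hu, rfl⟩
        exact ⟨c • u, (AA π A).smul_mem hu c, rfl⟩ }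
  have hM : M = ⊤ := by
    refine C.cyc M ?_ ⟨x₀, ⟨1, (AA π A).one_mem, rfl⟩, C.tx⟩
    rintro a ha _ ⟨u, hu, rfl⟩
    exact ⟨π a * u, (AA π A).mul_mem (C.mem_aa ha) hu, rfl⟩
  have hy : y ∈ M := by rw [hM]; exact Submodule.mem_top
  exact hy

theorem Cf.ainj (C : Cf π τ x₀ A n) {u : E →L[ℝ] E} (hu : u ∈ AA π A) {x : E} (hx : τ x = 1)
    (h0 : u x = 0) : u = 0 := by
  have hK : LinearMap.ker (u : E →ₗ[ℝ] E) = ⊤ := by
    refine C.cyc _ ?_ ⟨x, h0, hx⟩
    intro a ha y hy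
    have hy' : u y = 0 := hy
    change u (π a y) = 0
    have h1 := (C.acomm hu (C.mem_aa ha)).eq
    have h2 := congrArg (fun w : E →L[ℝ] E => w y) h1
    simp only [ContinuousLinearMap.mul_apply] at h2
    rw [h2, hy', map_zero]
  ext y
  have hy : y ∈ LinearMap.ker (u : E →ₗ[ℝ] E) := by rw [hK]; exact Submodule.mem_top
  exact hy

end A

end Pool.Agent.H30.T4
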