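import Mathlib
import Pool.Agent.H30.T4.Defs
import Pool.Agent.H95.T4.FinA

/-! Project T4 (MP_68c2bd), row T4-14: step (6d). -/

set_option autoImplicit false

namespace Pool.Agent.H30.T4

open NormedSpace Module Pool.Agent.H71.AU Pool.Agent.H14.HP Pool.Agent.H14.HR

section A
variable {E : Type*} [NormedAddCommGroup E] [NormedSpace ℝ E] [CompleteSpace E]
  [FiniteDimensional ℝ E] {Γ : Type*} [Group Γ] {π : Γ →* (E →L[ℝ] E)} {τ : E →L[ℝ] ℝ} {x₀ : E}
  {A : Subgroup Γ} {n : ℕ}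

/-- The rank one map `y ↦ τ y • x₀`. -/
noncomputable def fin_R (τ : E →L[ℝ] ℝ) (x₀ : E) : E →L[ℝ] E := τ.smulRight x₀

theorem fin_R_apply (y : E) : fin_R τ x₀ y = τ y • x₀ := rfl

/-- The determinant of `1 - T` on `τ = 0`. -/
noncomputable def fin_D (τ : E →L[ℝ] ℝ) (x₀ : E) (T : E →L[ℝ] E) : ℝ :=
  LinearMap.det ((1 - T + fin_R τ x₀ : E →L[ℝ] E) : E →ₗ[ℝ] E)

/-- The matrix of a map. -/
noncomputable def fin_M (E : Type*) [NormedAddCommGroup E] [NormedSpace ℝ E]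
    [FiniteDimensional ℝ E] (T : E →L[ℝ] E) :
    Matrix (Fin (finrank ℝ E)) (Fin (finrank ℝ E)) ℝ :=
  LinearMap.toMatrix (finBasis ℝ E) (finBasis ℝ E) (T : E →ₗ[ℝ] E)

theorem fin_M_add (S T : E →L[ℝ] E) : fin_M E (S + T) = fin_M E S + fin_M E T := by
  unfold fin_M
  rw [← map_add]
  rfl

theorem fin_M_sub (S T : E →L[ℝ] E) : fin_M E (S - T) = fin_M E S - fin_M E T := by
  unfold fin_M
  rw [← map_sub]
  rfl

theorem fin_M_smul (c : ℝ) (T : E →L[ℝ] E) : fin_M E (c • T) = c • fin_M E T := by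
  unfold fin_M
  rw [← map_smul]
  rfl

theorem fin_M_mul (S T : E →L[ℝ] E) : fin_M E (S * T) = fin_M E S * fin_M E T := by
  unfold fin_M
  rw [← LinearMap.toMatrix_mul]
  rfl

theorem fin_M_one : fin_M E (1 : E →L[ℝ] E) = 1 := LinearMap.toMatrix_one _

theorem fin_M_pow (T : E →L[ℝ] E) (k : ℕ) : fin_M E (T ^ k) = fin_M E T ^ k := by
  induction k with
  | zero => rw [pow_zero, pow_zero, fin_M_one]
  | succ k ih => rw [pow_succ, pow_succ, fin_M_mul, ih]

theorem fin_M_sum (m : ℕ) (f : ℕ → (E →L[ℝ] E)) :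
    fin_M E (∑ i ∈ Finset.range m, f i) = ∑ i ∈ Finset.range m, fin_M E (f i) := by
  induction m with
  | zero =>
    rw [Finset.sum_range_zero, Finset.sum_range_zero]
    have := fin_M_smul (E := E) 0 0
    rwa [zero_smul, zero_smul] at this
  | succ m ih => rw [Finset.sum_range_succ, Finset.sum_range_succ, fin_M_add, ih]

theorem fin_det (T : E →L[ℝ] E) : LinearMap.det (T : E →ₗ[ℝ] E) = (fin_M E T).det := by
  unfold fin_M
  rw [LinearMap.det_toMatrix]

/-- The determinant of a product with a one-parameter group is a polynomial. -/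
theorem fin_poly {X : E →L[ℝ] E} (hX : IsNilpotent X) (T₁ T₂ : E →L[ℝ] E) :
    ∃ p : Polynomial ℝ, ∀ t : ℝ, p.eval t = fin_D τ x₀ (T₁ * exp (t • X) * T₂) := by
  obtain ⟨m, hm⟩ := hX
  obtain ⟨p, hp⟩ := Pool.Agent.H95.T4.det_poly (fin_M E (1 + fin_R τ x₀)) m
    (fun i => fin_M E (((i.factorial : ℝ)⁻¹) • (T₁ * X ^ i * T₂)))
  refine ⟨p, fun t => ?_⟩
  rw [hp, fin_D, fin_det]
  congr 1
  have h1 : (t • X) ^ m = 0 := by rw [smul_pow, hm, smul_zero]
  have h2 : T₁ * exp (t • X) * T₂ =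
      ∑ i ∈ Finset.range m, t ^ i • (((i.factorial : ℝ)⁻¹) • (T₁ * X ^ i * T₂)) := by
    rw [exp_eq_sum_of_pow h1, Finset.mul_sum, Finset.sum_mul]
    refine Finset.sum_congr rfl fun i _ => ?_
    rw [smul_pow, mul_smul_comm, mul_smul_comm, smul_mul_assoc, smul_mul_assoc, smul_comm]
  have h3 : (1 - T₁ * exp (t • X) * T₂ + fin_R τ x₀ : E →L[ℝ] E) =
      (1 + fin_R τ x₀) - T₁ * exp (t • X) * T₂ := by abel
  rw [h3, fin_M_sub, h2, fin_M_sum]
  congr 1
  refine Finset.sum_congr rfl fun i _ => ?_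
  rw [← fin_M_smul]

/-- The determinant vanishes if and only if there is a fixed vector in `τ = 0`. -/
theorem fin_ker {T : E →L[ℝ] E} (hT : ∀ y, τ (T y) = τ y) (hx : τ x₀ = 1)
    (h : ∀ v, τ v = 0 → T v = v → v = 0) : fin_D τ x₀ T ≠ 0 := by
  intro h0
  have h1 : (LinearMap.ker ((1 - T + fin_R τ x₀ : E →L[ℝ] E) : E →ₗ[ℝ] E)) ≠ ⊥ :=
    (LinearMap.bot_lt_ker_of_det_eq_zero h0).ne'
  obtain ⟨y, hy, hy0⟩ := (Submodule.ne_bot_iff _).1 h1
  apply hy0
  have h2 : y - T y + τ y • x₀ = 0 := by simpa [fin_R_apply] using hy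
  have h3 : τ y = 0 := by
    have := congrArg τ h2
    rw [map_add, map_sub, hT, sub_self, zero_add, map_smul, hx, smul_eq_mul, mul_one,
      map_zero] at this
    exact this
  refine h y h3 ?_
  rw [h3, zero_smul, add_zero] at h2
  exact (sub_eq_zero.1 h2).symm

theorem fin_unit {T : E →L[ℝ] E} (h : fin_D τ x₀ T ≠ 0) :
    IsUnit ((1 - T + fin_R τ x₀ : E →L[ℝ] E) : E →ₗ[ℝ] E) :=
  (LinearMap.isUnit_iff_isUnit_det _).2 (isUnit_iff_ne_zero.2 h)

theorem fin_one (hV : ∃ v, v ≠ 0 ∧ τ v = 0) : fin_D τ x₀ (1 : E →L[ℝ] E) = 0 := by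
  obtain ⟨v, hv, hv0⟩ := hV
  by_contra hne
  have h1 := LinearMap.ker_eq_bot.1 ((LinearMap.isUnit_iff_ker_eq_bot _).1 (fin_unit hne))
  apply hv
  apply h1
  rw [map_zero]
  have h3 : (1 - 1 + fin_R τ x₀ : E →L[ℝ] E) v = 0 := by
    simp [fin_R_apply, hv0]
  exact h3

/-- The determinants of the elements of the group are bounded. -/
theorem fin_bound (S : Sys π τ) (hx : τ x₀ = 1) (g : Γ) :
    |fin_D τ x₀ (π g)| ≤ 2 ^ finrank ℝ E := by
  by_cases h0 : fin_D τ x₀ (π g) = 0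
  · rw [h0, abs_zero]
    positivity
  obtain ⟨x, hx1⟩ := LinearMap.range_eq_top.1
    ((LinearMap.isUnit_iff_range_eq_top _).1 (fin_unit h0)) x₀
  have h2 : x - π g x + τ x • x₀ = x₀ := by simpa [fin_R_apply] using hx1
  have h3 : τ x = 1 := by
    have := congrArg τ h2
    rw [map_add, map_sub, S.tau, sub_self, zero_add, map_smul, hx, smul_eq_mul, mul_one] at this
    exact this
  have h4 : π g x = x := by
    rw [h3, one_smul, add_eq_right] at h2
    exact (sub_eq_zero.1 h2).symm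
  have h5 : ∀ k : ℕ, π (g ^ k) x = x := by
    intro k
    induction k with
    | zero => rw [pow_zero, map_one, ContinuousLinearMap.one_apply]
    | succ k ih => rw [pow_succ, map_mul, ContinuousLinearMap.mul_apply, h4, ih]
  have h6 : IsOfFinOrder g := by
    rw [← finite_powers]
    refine (S.prop ‖x‖).subset ?_
    rintro _ ⟨k, rfl⟩
    exact ⟨x, h3, le_rfl, by rw [h5 k]⟩
  obtain ⟨m, hm, hgm⟩ := isOfFinOrder_iff_pow_eq_one.1 h6
  have h7 : (π g) ^ m = 1 := by rw [← map_pow, hgm, map_one]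
  set Q : E →L[ℝ] E := π g - fin_R τ x₀ with hQ
  have h8 : Q * Q = π g * Q := by
    ext y
    rw [ContinuousLinearMap.mul_apply, ContinuousLinearMap.mul_apply]
    have h9 : τ (Q y) = 0 := by
      rw [hQ, ContinuousLinearMap.sub_apply, fin_R_apply, map_sub, S.tau, map_smul, hx,
        smul_eq_mul, mul_one, sub_self]
    conv_lhs => rw [hQ]
    rw [ContinuousLinearMap.sub_apply, fin_R_apply, h9, zero_smul, sub_zero]
  have h10 : ∀ k : ℕ, Q ^ (k + 1) = (π g) ^ k * Q := by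
    intro k
    induction k with
    | zero => rw [pow_zero, zero_add, pow_one, one_mul]
    | succ k ih => rw [pow_succ, ih, mul_assoc, h8, ← mul_assoc, ← pow_succ]
  have h11 : fin_M E Q ^ (m + 1) = fin_M E Q := by
    rw [← fin_M_pow, h10, h7, one_mul]
  have h12 := Pool.Agent.H95.T4.det_bd (fin_M E Q) m hm h11
  have h13 : fin_D τ x₀ (π g) = (1 - fin_M E Q).det := by
    rw [fin_D, fin_det, ← fin_M_one, ← fin_M_sub]
    congr 2
    rw [hQ]
    abel
  rw [h13]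
  exact h12

/-- The generators: the group and the one-parameter groups. -/
def fin_S (π : Γ →* (E →L[ℝ] E)) (A : Subgroup Γ) : Set (E →L[ℝ] E) :=
  {T | (∃ g, T = π g) ∨ ∃ a ∈ A, ∃ t : ℝ, T = exp (t • lg (π a))}

theorem fin_int (huni : ∀ a ∈ A, IsNilpotent (π a - 1)) {a : Γ} (ha : a ∈ A) (k : ℕ) :
    exp ((k : ℝ) • lg (π a)) = π (a ^ k) := by
  induction k with
  | zero => rw [Nat.cast_zero, zero_smul, exp_zero, pow_zero, map_one]
  | succ k ih =>
    rw [Nat.cast_add, Nat.cast_one, add_smul, one_smul,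
      exp_add_comm' (Commute.smul_left (Commute.refl _) _), ih, exp_lg (huni a ha), pow_succ,
      map_mul]

theorem fin_list (S : Sys π τ) (hx : τ x₀ = 1) (huni : ∀ a ∈ A, IsNilpotent (π a - 1))
    (l : List (E →L[ℝ] E)) (hl : ∀ T ∈ l, T ∈ fin_S π A) :
    ∀ g : Γ, |fin_D τ x₀ (π g * l.prod)| ≤ 2 ^ finrank ℝ E := by
  induction l with
  | nil =>
    intro g
    rw [List.prod_nil, mul_one]
    exact fin_bound S hx g
  | cons T l ih =>
    intro g
    have ih' := ih fun T' hT' => hl T' (List.mem_cons_of_mem _ hT')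
    rw [List.prod_cons]
    rcases hl T List.mem_cons_self with ⟨h, rfl⟩ | ⟨a, ha, t, rfl⟩
    · rw [← mul_assoc, ← map_mul]
      exact ih' (g * h)
    · obtain ⟨p, hp⟩ := fin_poly (τ := τ) (x₀ := x₀) (lg_nil (huni a ha)) (π g) l.prod
      have h1 : ∀ k : ℕ, |p.eval (k : ℝ)| ≤ 2 ^ finrank ℝ E := by
        intro k
        rw [hp, fin_int huni ha, ← map_mul]
        exact ih' (g * a ^ k)
      have h2 := Pool.Agent.H95.T4.poly_const p _ h1 t
      rw [← mul_assoc, ← hp, h2, hp, zero_smul, exp_zero, mul_one]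
      exact ih' g

theorem fin_all (S : Sys π τ) (hx : τ x₀ = 1) (huni : ∀ a ∈ A, IsNilpotent (π a - 1))
    {T : E →L[ℝ] E} (hT : T ∈ Submonoid.closure (fin_S π A)) :
    |fin_D τ x₀ T| ≤ 2 ^ finrank ℝ E := by
  obtain ⟨l, hl, rfl⟩ := Submonoid.exists_list_of_mem_closure hT
  have := fin_list S hx huni l hl 1
  rwa [map_one, one_mul] at this

/-- Elements that can be removed from a product without a change of the determinant. -/
def fin_rem (π : Γ →* (E →L[ℝ] E)) (τ : E →L[ℝ] ℝ) (x₀ : E) (A : Subgroup Γ)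
    (u : E →L[ℝ] E) : Prop :=
  u ∈ Submonoid.closure (fin_S π A) ∧ ∀ T₁ ∈ Submonoid.closure (fin_S π A),
    ∀ T₂ ∈ Submonoid.closure (fin_S π A), fin_D τ x₀ (T₁ * u * T₂) = fin_D τ x₀ (T₁ * T₂)

theorem fin_rem_one : fin_rem π τ x₀ A 1 :=
  ⟨Submonoid.one_mem _, fun T₁ _ T₂ _ => by rw [mul_one]⟩

theorem fin_rem_mul {u v : E →L[ℝ] E} (hu : fin_rem π τ x₀ A u) (hv : fin_rem π τ x₀ A v) :
    fin_rem π τ x₀ A (u * v) := by
  refine ⟨Submonoid.mul_mem _ hu.1 hv.1, fun T₁ h1 T₂ h2 => ?_⟩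
  rw [← mul_assoc, hv.2 _ (Submonoid.mul_mem _ h1 hu.1) _ h2, hu.2 _ h1 _ h2]

theorem fin_mem_pi (g : Γ) : π g ∈ Submonoid.closure (fin_S π A) :=
  Submonoid.subset_closure (Or.inl ⟨g, rfl⟩)

theorem fin_rem_conj {u : E →L[ℝ] E} (hu : fin_rem π τ x₀ A u) (g : Γ) :
    fin_rem π τ x₀ A (π g * u * π g⁻¹) := by
  refine ⟨Submonoid.mul_mem _ (Submonoid.mul_mem _ (fin_mem_pi g) hu.1) (fin_mem_pi g⁻¹),
    fun T₁ h1 T₂ h2 => ?_⟩
  have h3 : T₁ * (π g * u * π g⁻¹) * T₂ = (T₁ * π g) * u * (π g⁻¹ * T₂) := by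
    simp only [mul_assoc]
  rw [h3, hu.2 _ (Submonoid.mul_mem _ h1 (fin_mem_pi g)) _
    (Submonoid.mul_mem _ (fin_mem_pi g⁻¹) h2), ← mul_assoc, mul_assoc T₁, ← map_mul,
    mul_inv_cancel, map_one, mul_one]

theorem fin_rem_exp (S : Sys π τ) (hx : τ x₀ = 1) (hcomm : ∀ a ∈ A, ∀ b ∈ A, a * b = b * a)
    (huni : ∀ a ∈ A, IsNilpotent (π a - 1)) {X : E →L[ℝ] E} (hX : X ∈ hh π A) :
    (∀ Y ∈ hh π A, Commute X Y) ∧ ∀ t : ℝ, fin_rem π τ x₀ A (exp (t • X)) := by
  have hc : ∀ a ∈ A, ∀ Y ∈ hh π A, Commute (lg (π a)) Y := by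
    intro a ha Y hY
    induction hY using Submodule.span_induction with
    | mem Y hY =>
      obtain ⟨b, hb, rfl⟩ := hY
      exact (lg_commute (huni b hb) (lg_commute (huni a ha) (core_comm hcomm ha hb)).symm).symm
    | zero => exact Commute.zero_right _
    | add Y Z _ _ hY hZ => exact hY.add_right hZ
    | smul c Y _ hY => exact hY.smul_right c
  have hcc : ∀ X ∈ hh π A, ∀ Y ∈ hh π A, Commute X Y := by
    intro X hX Y hY
    induction hX using Submodule.span_induction with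
    | mem X hX =>
      obtain ⟨a, ha, rfl⟩ := hX
      exact hc a ha Y hY
    | zero => exact Commute.zero_left _
    | add X Z _ _ hX hZ => exact hX.add_left hZ
    | smul c X _ hX => exact hX.smul_left c
  refine ⟨fun Y hY => hcc X hX Y hY, ?_⟩
  induction hX using Submodule.span_induction with
  | mem X hX =>
    obtain ⟨a, ha, rfl⟩ := hX
    intro t
    refine ⟨Submonoid.subset_closure (Or.inr ⟨a, ha, t, rfl⟩), fun T₁ h1 T₂ h2 => ?_⟩
    obtain ⟨p, hp⟩ := fin_poly (τ := τ) (x₀ := x₀) (lg_nil (huni a ha)) T₁ T₂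
    have h3 : ∀ k : ℕ, |p.eval (k : ℝ)| ≤ 2 ^ finrank ℝ E := by
      intro k
      rw [hp]
      exact fin_all S hx huni (Submonoid.mul_mem _ (Submonoid.mul_mem _ h1
        (Submonoid.subset_closure (Or.inr ⟨a, ha, k, rfl⟩))) h2)
    rw [← hp, Pool.Agent.H95.T4.poly_const p _ h3 t, hp, zero_smul, exp_zero, mul_one]
  | zero =>
    intro t
    rw [smul_zero, exp_zero]
    exact fin_rem_one
  | add X Y hX' hY' hX hY =>
    intro t
    rw [smul_add, exp_add_comm' (((hcc X hX' Y hY').smul_left t).smul_right t)]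
    exact fin_rem_mul (hX t) (hY t)
  | smul c X _ hX =>
    intro t
    rw [smul_smul]
    exact hX (t * c)

theorem fin_lg_tau (hτ : ∀ g y, τ (π g y) = τ y) (huni : ∀ a ∈ A, IsNilpotent (π a - 1))
    {a : Γ} (ha : a ∈ A) (y : E) : τ (lg (π a) y) = 0 := by
  obtain ⟨Y, h1, -⟩ := lg_spec (huni a ha)
  rw [h1, ContinuousLinearMap.mul_apply, ContinuousLinearMap.sub_apply,
    ContinuousLinearMap.one_apply, map_sub, hτ, sub_self]

theorem fin_tau (S : Sys π τ) (huni : ∀ a ∈ A, IsNilpotent (π a - 1)) {T : E →L[ℝ] E}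
    (hT : T ∈ Submonoid.closure (fin_S π A)) : ∀ y, τ (T y) = τ y := by
  induction hT using Submonoid.closure_induction with
  | mem T hT =>
    intro y
    rcases hT with ⟨g, rfl⟩ | ⟨a, ha, t, rfl⟩
    · exact S.tau g y
    · have hn : IsNilpotent (t • lg (π a)) := by
        obtain ⟨m, hm⟩ := lg_nil (huni a ha)
        exact ⟨m, by rw [smul_pow, hm, smul_zero]⟩
      refine core_tau_exp hn τ ?_ y
      intro z
      rw [ContinuousLinearMap.smul_apply, map_smul, fin_lg_tau S.tau huni ha, smul_zero]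
  | one => intro y; rw [ContinuousLinearMap.one_apply]
  | mul T U _ _ hT hU => intro y; rw [ContinuousLinearMap.mul_apply, hT, hU]

-- T4-14 Fin.lean
theorem contra (S : Sys π τ) (hx : ∃ x, τ x = 1) (hcomm : ∀ a ∈ A, ∀ b ∈ A, a * b = b * a)
    (huni : ∀ a ∈ A, IsNilpotent (π a - 1)) (hV : ∃ v, v ≠ 0 ∧ τ v = 0)
    (l : List (Γ × (E →L[ℝ] E))) (hl : ∀ q ∈ l, q.2 ∈ hh π A)
    (hinj : ∀ v, τ v = 0 → pr π l v = v → v = 0) : False := by
  obtain ⟨x₀, hx₀⟩ := hx
  have h1 : ∀ l : List (Γ × (E →L[ℝ] E)), (∀ q ∈ l, q.2 ∈ hh π A) →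
      fin_rem π τ x₀ A (pr π l) := by
    intro l
    induction l with
    | nil =>
      intro _
      exact fin_rem_one
    | cons q l ih =>
      intro hl
      have h2 : pr π (q :: l) = (π q.1 * exp q.2 * π q.1⁻¹) * pr π l := by
        rw [pr, List.map_cons, List.prod_cons, pr]
      rw [h2]
      refine fin_rem_mul (fin_rem_conj ?_ q.1) (ih fun q' hq' => hl q' (List.mem_cons_of_mem _ hq'))
      have h3 := (fin_rem_exp S hx₀ hcomm huni (hl q List.mem_cons_self)).2 1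
      rwa [one_smul] at h3
  have h2 := h1 l hl
  have h3 := h2.2 1 (Submonoid.one_mem _) 1 (Submonoid.one_mem _)
  rw [mul_one, one_mul, mul_one, fin_one hV] at h3
  exact fin_ker (fin_tau S huni h2.1) hx₀ hinj h3

end A

end Pool.Agent.H30.T4
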