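import Mathlib
import Pool.Agent.H30.T4.Defs

/-! Project T4, row T4-1: composition series and the radical test. -/

set_option autoImplicit false

namespace Pool.Agent.H30.T4

open NormedSpace Module Pool.Agent.H71.AU Pool.Agent.H14.HP Pool.Agent.H14.HR

section A
variable {E : Type*} [NormedAddCommGroup E] [NormedSpace ℝ E] [CompleteSpace E]
  [FiniteDimensional ℝ E] {Γ : Type*} [Group Γ] {π : Γ →* (E →L[ℝ] E)} {τ : E →L[ℝ] ℝ} {x₀ : E}
  {A : Subgroup Γ} {n : ℕ}

omit [CompleteSpace E] in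
/-- A composition series below an invariant subspace. -/
theorem flg_below (π : Γ →* (E →L[ℝ] E)) (N : ℕ) :
    ∀ V : Submodule ℝ E, Inv π V → finrank ℝ V ≤ N →
      ∃ (F : ℕ → Submodule ℝ E) (s : ℕ), F 0 = V ∧ F s = ⊥ ∧ (∀ i, F (i + 1) ≤ F i) ∧
        (∀ i, Inv π (F i)) ∧
        ∀ i (W : Submodule ℝ E), Inv π W → F (i + 1) ≤ W → W ≤ F i → W = F (i + 1) ∨ W = F i := by
  have hbot : Inv π (⊥ : Submodule ℝ E) := by
    intro g y hy
    rw [Submodule.mem_bot] at hy ⊢
    rw [hy, map_zero]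
  have triv : ∃ (F : ℕ → Submodule ℝ E) (s : ℕ), F 0 = ⊥ ∧ F s = ⊥ ∧
      (∀ i, F (i + 1) ≤ F i) ∧ (∀ i, Inv π (F i)) ∧
        ∀ i (W : Submodule ℝ E), Inv π W → F (i + 1) ≤ W → W ≤ F i → W = F (i + 1) ∨ W = F i :=
    ⟨fun _ => ⊥, 0, rfl, rfl, fun _ => le_refl _, fun _ => hbot,
      fun _ W _ _ h2 => Or.inl (le_bot_iff.1 h2)⟩
  induction N with
  | zero =>
    intro V _ hd
    have hV : V = ⊥ := Submodule.finrank_eq_zero.1 (Nat.le_zero.1 hd)
    subst hV
    exact triv
  | succ N ih =>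
    intro V hV hd
    by_cases hb : V = ⊥
    · subst hb
      exact triv
    -- a maximal proper invariant subspace
    classical
    have hex : ∃ d, ∃ W : Submodule ℝ E, Inv π W ∧ W < V ∧ finrank ℝ W = d :=
      ⟨_, ⊥, hbot, bot_lt_iff_ne_bot.2 hb, rfl⟩
    have hbd : ∀ d, (∃ W : Submodule ℝ E, Inv π W ∧ W < V ∧ finrank ℝ W = d) → d ≤ N := by
      rintro d ⟨W, _, hW, rfl⟩
      have := Submodule.finrank_lt_finrank_of_lt hW
      omega
    obtain ⟨V', hV', hlt, hmax⟩ : ∃ V' : Submodule ℝ E, Inv π V' ∧ V' < V ∧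
        ∀ W : Submodule ℝ E, Inv π W → W < V → finrank ℝ W ≤ finrank ℝ V' := by
      obtain ⟨d0, hd0⟩ := hex
      have h1 := Nat.findGreatest_spec (P := fun d => ∃ W : Submodule ℝ E, Inv π W ∧ W < V ∧
        finrank ℝ W = d) (hbd d0 hd0) hd0
      obtain ⟨V', h2, h3, h4⟩ := h1
      refine ⟨V', h2, h3, ?_⟩
      intro W hW hWV
      rw [h4]
      exact Nat.le_findGreatest (hbd _ ⟨W, hW, hWV, rfl⟩) ⟨W, hW, hWV, rfl⟩
    obtain ⟨F, s, h0, hs, hanti, hinv, hirr⟩ := ih V' hV' (hbd _ ⟨V', hV', hlt, rfl⟩)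
    refine ⟨fun i => Nat.casesOn i V F, s + 1, rfl, hs, ?_, ?_, ?_⟩
    · intro i
      cases i with
      | zero =>
        change F 0 ≤ V
        rw [h0]
        exact hlt.le
      | succ i => exact hanti i
    · intro i
      cases i with
      | zero => exact hV
      | succ i => exact hinv i
    · intro i W hW h1 h2
      cases i with
      | zero =>
        change F 0 ≤ W at h1
        change W ≤ V at h2
        change W = F 0 ∨ W = V
        rw [h0] at h1 ⊢
        by_cases hWV : W = V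
        · exact Or.inr hWV
        · left
          exact (Submodule.eq_of_le_of_finrank_le h1
            (hmax W hW (lt_of_le_of_ne h2 hWV))).symm
      | succ i => exact hirr i W hW h1 h2

omit [CompleteSpace E] in
theorem flg_exists (π : Γ →* (E →L[ℝ] E)) : ∃ F s, Flg π F s := by
  obtain ⟨F, s, h0, hs, hanti, hinv, hirr⟩ := flg_below π (finrank ℝ (⊤ : Submodule ℝ E)) ⊤
    (fun _ _ _ => Submodule.mem_top) (le_refl _)
  exact ⟨F, s, h0, hs, hanti, hinv, hirr⟩

omit [CompleteSpace E] [FiniteDimensional ℝ E] in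
theorem rad_mem {F : ℕ → Submodule ℝ E} {s : ℕ} (hF : Flg π F s) (b : E →L[ℝ] E)
    (hb : ∀ i, ∀ y ∈ F i, b y ∈ F i)
    (hnil : ∃ M : ℕ, ∀ l : List Γ, M ≤ l.length → (l.map (fun g => π g * b)).prod ∈ JJ F) :
    b ∈ JJ F := by
  obtain ⟨M, hM⟩ := hnil
  rw [mem_JJ]
  intro i y hy
  set S : Submodule ℝ E := Submodule.span ℝ {z | ∃ (g : Γ) (x : E), x ∈ F i ∧ z = π g (b x)}
    with hS
  have hSinv : ∀ g : Γ, ∀ z ∈ S, π g z ∈ S := by
    intro g z hz
    have h1 : S ≤ S.comap (π g : E →ₗ[ℝ] E) := by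
      rw [hS, Submodule.span_le]
      rintro z ⟨h, x, hx, rfl⟩
      refine Submodule.subset_span ⟨g * h, x, hx, ?_⟩
      rw [map_mul]
      rfl
    exact h1 hz
  have hUinv : Inv π (F (i + 1) ⊔ S) := by
    intro g z hz
    obtain ⟨u, hu, v, hv, rfl⟩ := Submodule.mem_sup.1 hz
    rw [map_add]
    exact Submodule.add_mem_sup (hF.inv (i + 1) g u hu) (hSinv g v hv)
  have hSle : S ≤ F i := by
    rw [hS, Submodule.span_le]
    rintro z ⟨g, x, hx, rfl⟩
    exact hF.inv i g _ (hb i x hx)
  have hyS : b y ∈ S := Submodule.subset_span ⟨1, y, hy, by rw [map_one]; rfl⟩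
  rcases hF.irr i (F (i + 1) ⊔ S) hUinv le_sup_left (sup_le (hF.anti i) hSle) with h1 | h1
  · rw [← h1]
    exact Submodule.mem_sup_right hyS
  · -- the space of the products of length `k`
    have hpres : ∀ l : List Γ, ∀ z ∈ F (i + 1), (l.map (fun g => π g * b)).prod z ∈ F (i + 1) := by
      intro l
      induction l with
      | nil => intro z hz; simpa using hz
      | cons g l ih =>
        intro z hz
        rw [List.map_cons, List.prod_cons]
        exact hF.inv (i + 1) g _ (hb (i + 1) _ (ih z hz))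
    have key : ∀ k : ℕ, F i ≤ F (i + 1) ⊔
        Submodule.span ℝ {z | ∃ (l : List Γ) (x : E), l.length = k ∧ x ∈ F i ∧
          z = (l.map (fun g => π g * b)).prod x} := by
      intro k
      induction k with
      | zero =>
        intro x hx
        refine Submodule.mem_sup_right (Submodule.subset_span ⟨[], x, rfl, hx, ?_⟩)
        simp
      | succ k ih =>
        refine ih.trans (sup_le le_sup_left ?_)
        rw [Submodule.span_le]
        rintro z ⟨l, x, hl, hx, rfl⟩
        have hx' : x ∈ F (i + 1) ⊔ S := by rw [h1]; exact hx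
        obtain ⟨u, hu, v, hv, rfl⟩ := Submodule.mem_sup.1 hx'
        rw [map_add]
        refine Submodule.add_mem _ (Submodule.mem_sup_left (hpres l u hu)) ?_
        refine Submodule.mem_sup_right ?_
        have h2 : S ≤ (Submodule.span ℝ {z | ∃ (l : List Γ) (x : E), l.length = k + 1 ∧
            x ∈ F i ∧ z = (l.map (fun g => π g * b)).prod x}).comap
              ((l.map (fun g => π g * b)).prod : E →ₗ[ℝ] E) := by
          rw [hS, Submodule.span_le]
          rintro z ⟨g, x, hx, rfl⟩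
          refine Submodule.subset_span ⟨l ++ [g], x, by simp [hl], hx, ?_⟩
          rw [List.map_append, List.prod_append]
          simp
        exact h2 hv
    have hle : F i ≤ F (i + 1) := by
      refine (key M).trans (sup_le (le_refl _) ?_)
      rw [Submodule.span_le]
      rintro z ⟨l, x, hl, hx, rfl⟩
      exact mem_JJ.1 (hM l (by omega)) i x hx
    exact hle (hb i y hy)

end A

end Pool.Agent.H30.T4
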