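import Mathlib
import Pool.Agent.H30.T4.Basic

/-! Project T4 (MP_68c2bd), row T4-8a: a unipotent group that contains `A` and normalises the span
of the logarithms of `A` is a finite extension of `A`, or acts cocompactly. -/

set_option autoImplicit false

namespace Pool.Agent.H30.T4

open NormedSpace Module Pool.Agent.H71.AU Pool.Agent.H14.HP Pool.Agent.H14.HR

variable {E : Type*} [NormedAddCommGroup E] [NormedSpace ℝ E] [CompleteSpace E]
  [FiniteDimensional ℝ E] {Γ : Type*} [Group Γ] {π : Γ →* (E →L[ℝ] E)} {τ : E →L[ℝ] ℝ} {x₀ : E}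
  {A : Subgroup Γ} {n : ℕ}

/-- The maximal ideal of the algebra `AA`. -/
noncomputable def com_m (π : Γ →* (E →L[ℝ] E)) (τ : E →L[ℝ] ℝ) (x₀ : E) (A : Subgroup Γ) :
    Submodule ℝ (E →L[ℝ] E) where
  carrier := {u | u ∈ AA π A ∧ τ (u x₀) = 0}
  add_mem' := by
    rintro u v ⟨h1, h2⟩ ⟨h3, h4⟩
    exact ⟨(AA π A).add_mem h1 h3, by rw [ContinuousLinearMap.add_apply, map_add, h2, h4,
      add_zero]⟩
  zero_mem' := ⟨(AA π A).zero_mem, by simp⟩
  smul_mem' := by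
    rintro c u ⟨h1, h2⟩
    exact ⟨(AA π A).smul_mem h1 c, by rw [ContinuousLinearMap.smul_apply, map_smul, h2,
      smul_zero]⟩

theorem mem_com_m {u : E →L[ℝ] E} :
    u ∈ com_m π τ x₀ A ↔ u ∈ AA π A ∧ τ (u x₀) = 0 := Iff.rfl

theorem com_hh_le (C : Cf π τ x₀ A n) : hh π A ≤ com_m π τ x₀ A := by
  intro X hX
  exact ⟨Algebra.subset_adjoin hX, C.htau hX x₀⟩

/-- The algebra is its own centralizer. -/
theorem com_cent (C : Cf π τ x₀ A n) {Z : E →L[ℝ] E} (hZ : ∀ u ∈ AA π A, Commute Z u) :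
    Z ∈ AA π A := by
  obtain ⟨v, hv, hvx⟩ := C.asurj (Z x₀)
  have h : Z = v := by
    ext y
    obtain ⟨u, hu, rfl⟩ := C.asurj y
    have h1 : Z (u x₀) = u (Z x₀) := by
      rw [← ContinuousLinearMap.mul_apply, (hZ u hu).eq, ContinuousLinearMap.mul_apply]
    have h2 : v (u x₀) = u (v x₀) := by
      rw [← ContinuousLinearMap.mul_apply, (C.acomm hv hu).eq, ContinuousLinearMap.mul_apply]
    rw [h1, h2, hvx]
  rw [h]
  exact hv

/-- Logarithmic coordinates on `τ = 1`. -/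
theorem com_log (C : Cf π τ x₀ A n) {y : E} (hy : τ y = 1) :
    ∃ l ∈ com_m π τ x₀ A, y = exp l x₀ := by
  obtain ⟨u, hu, rfl⟩ := C.asurj y
  have h1 : u - 1 ∈ AA π A := (AA π A).sub_mem hu (AA π A).one_mem
  have h2 : τ ((u - 1) x₀) = 0 := by
    rw [ContinuousLinearMap.sub_apply, ContinuousLinearMap.one_apply, map_sub, hy, C.tx, sub_self]
  have h3 : IsNilpotent (u - 1) := C.anil h1 h2
  obtain ⟨Y, hY, hYc⟩ := lg_spec h3
  have hYm : Y ∈ AA π A := com_cent C fun v hv => hYc v (C.acomm hu hv)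
  refine ⟨lg u, ⟨?_, ?_⟩, ?_⟩
  · rw [hY]
    exact (AA π A).mul_mem h1 hYm
  · rw [hY, ContinuousLinearMap.mul_apply, C.atau h1, h2, zero_mul]
  · rw [exp_lg h3]

theorem com_fin (C : Cf π τ x₀ A n) : finrank ℝ (com_m π τ x₀ A) = n + 1 := by
  have hsurj : Function.Surjective (τ : E →ₗ[ℝ] ℝ) := by
    intro c
    exact ⟨c • x₀, by simp [C.tx]⟩
  have hker : finrank ℝ (LinearMap.ker (τ : E →ₗ[ℝ] ℝ)) + 1 = finrank ℝ E := by
    have h1 := LinearMap.finrank_range_add_finrank_ker (τ : E →ₗ[ℝ] ℝ)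
    rw [LinearMap.range_eq_top.2 hsurj, finrank_top, finrank_self] at h1
    omega
  let f : com_m π τ x₀ A →ₗ[ℝ] LinearMap.ker (τ : E →ₗ[ℝ] ℝ) :=
    { toFun := fun u => ⟨(u : E →L[ℝ] E) x₀, u.2.2⟩
      map_add' := fun u v => rfl
      map_smul' := fun c u => rfl }
  have hf : Function.Bijective f := by
    constructor
    · rw [injective_iff_map_eq_zero]
      intro u hu
      have h1 : (u : E →L[ℝ] E) x₀ = 0 := congrArg Subtype.val hu
      exact Subtype.ext (C.ainj u.2.1 C.tx h1)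
    · rintro ⟨y, hy⟩
      obtain ⟨u, hu, rfl⟩ := C.asurj y
      exact ⟨⟨u, hu, hy⟩, rfl⟩
  have h1 := (LinearEquiv.ofBijective f hf).finrank_eq
  have h2 := C.dim
  omega

/-- A functional with kernel `hh` on the maximal ideal. -/
theorem com_fun (C : Cf π τ x₀ A n) : ∃ w ∈ com_m π τ x₀ A, ∃ φ : (E →L[ℝ] E) →ₗ[ℝ] ℝ,
    φ w = 1 ∧ (∀ X ∈ hh π A, φ X = 0) ∧ ∀ l ∈ com_m π τ x₀ A, l - φ l • w ∈ hh π A := by
  have hle := com_hh_le C
  have h1 := C.hdim
  have h2 := com_fin C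
  have hne : ¬ com_m π τ x₀ A ≤ hh π A := by
    intro h
    have := Submodule.finrank_mono h
    omega
  obtain ⟨w, hw, hwh⟩ := Set.not_subset.1 hne
  obtain ⟨ψ, hψ, hψh⟩ := Submodule.exists_le_ker_of_notMem hwh
  obtain ⟨w₁, hw₁, hall⟩ := mem_of_finrank_succ hle (by omega)
  have hψh' : ∀ X ∈ hh π A, ψ X = 0 := fun X hX => hψh hX
  refine ⟨w, hw, (ψ w)⁻¹ • ψ, ?_, ?_, ?_⟩
  · rw [LinearMap.smul_apply, smul_eq_mul, inv_mul_cancel₀ hψ]
  · intro X hX
    rw [LinearMap.smul_apply, hψh' X hX, smul_zero]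
  · intro l hl
    obtain ⟨c, u, hu, hwc⟩ := hall w hw
    obtain ⟨d, v, hv, hlc⟩ := hall l hl
    have hc : c ≠ 0 := by
      rintro rfl
      rw [zero_smul, zero_add] at hwc
      exact hwh (hwc ▸ hu)
    have e1 : ψ w = c * ψ w₁ := by
      rw [hwc, map_add, map_smul, hψh' u hu, add_zero, smul_eq_mul]
    have e2 : ψ l = d * ψ w₁ := by
      rw [hlc, map_add, map_smul, hψh' v hv, add_zero, smul_eq_mul]
    have hw₁0 : ψ w₁ ≠ 0 := by
      intro h0
      exact hψ (by rw [e1, h0, mul_zero])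
    have e3 : ((ψ w)⁻¹ • ψ) l = d / c := by
      rw [LinearMap.smul_apply, smul_eq_mul, e1, e2]
      field_simp
    rw [e3]
    have e4 : l - (d / c) • w = v - (d / c) • u := by
      rw [hlc, hwc, smul_add, smul_smul, div_mul_cancel₀ d hc]
      abel
    rw [e4]
    exact sub_mem hv (Submodule.smul_mem _ _ hu)

/-- Conjugation preserves the maximal ideal. -/
theorem com_ad (C : Cf π τ x₀ A n) {b : Γ}
    (hb : ∀ X ∈ hh π A, π b * X * π b⁻¹ ∈ hh π A) :
    ∀ l ∈ com_m π τ x₀ A, π b * l * π b⁻¹ ∈ com_m π τ x₀ A := by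
  have h1 : π b * π b⁻¹ = 1 := by rw [← map_mul, mul_inv_cancel, map_one]
  have h2 : π b⁻¹ * π b = 1 := by rw [← map_mul, inv_mul_cancel, map_one]
  have h3 : ∀ u ∈ AA π A, π b * u * π b⁻¹ ∈ AA π A := by
    intro u hu
    induction hu using Algebra.adjoin_induction with
    | mem X hX => exact Algebra.subset_adjoin (hb X hX)
    | algebraMap r =>
      have e : π b * algebraMap ℝ (E →L[ℝ] E) r * π b⁻¹ = algebraMap ℝ (E →L[ℝ] E) r := by
        rw [← Algebra.commutes r (π b), mul_assoc, h1, mul_one]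
      rw [e]
      exact (AA π A).algebraMap_mem r
    | add u v _ _ h4 h5 =>
      rw [mul_add, add_mul]
      exact (AA π A).add_mem h4 h5
    | mul u v _ _ h4 h5 =>
      have e : π b * (u * v) * π b⁻¹ = (π b * u * π b⁻¹) * (π b * v * π b⁻¹) := by
        calc π b * (u * v) * π b⁻¹ = π b * u * (1 * (v * π b⁻¹)) := by
              rw [one_mul]
              simp only [mul_assoc]
          _ = (π b * u * π b⁻¹) * (π b * v * π b⁻¹) := by
              rw [← h2]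
              simp only [mul_assoc]
      rw [e]
      exact (AA π A).mul_mem h4 h5
  rintro l ⟨hl, hl0⟩
  refine ⟨h3 l hl, ?_⟩
  rw [ContinuousLinearMap.mul_apply, ContinuousLinearMap.mul_apply, C.sys.tau, C.atau hl, hl0,
    zero_mul]

/-- Conjugation by a unipotent element does not change the functional. -/
theorem com_phi (C : Cf π τ x₀ A n) {b : Γ} (hub : IsNilpotent (π b - 1))
    (hub' : IsNilpotent (π b⁻¹ - 1))
    (hb : ∀ X ∈ hh π A, π b * X * π b⁻¹ ∈ hh π A) {w : E →L[ℝ] E} (hw : w ∈ com_m π τ x₀ A)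
    {φ : (E →L[ℝ] E) →ₗ[ℝ] ℝ} (hφw : φ w = 1) (hφh : ∀ X ∈ hh π A, φ X = 0)
    (hφ : ∀ l ∈ com_m π τ x₀ A, l - φ l • w ∈ hh π A) :
    ∀ l ∈ com_m π τ x₀ A, φ (π b * l * π b⁻¹) = φ l := by
  -- the conjugation minus one is nilpotent
  let T : (E →L[ℝ] E) →ₗ[ℝ] (E →L[ℝ] E) :=
    LinearMap.mulLeft ℝ (π b - 1) * LinearMap.mulRight ℝ (π b⁻¹) +
      LinearMap.mulRight ℝ (π b⁻¹ - 1)
  have hT : ∀ X, T X = π b * X * π b⁻¹ - X := by
    intro X
    change (π b - 1) * (X * π b⁻¹) + X * (π b⁻¹ - 1) = π b * X * π b⁻¹ - X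
    noncomm_ring
  have hTn : IsNilpotent T := by
    have n1 : IsNilpotent (LinearMap.mulLeft ℝ (π b - 1)) :=
      (LinearMap.isNilpotent_mulLeft_iff ℝ _).2 hub
    have n2 : IsNilpotent (LinearMap.mulRight ℝ (π b⁻¹ - 1)) :=
      (LinearMap.isNilpotent_mulRight_iff ℝ _).2 hub'
    have c1 : Commute (LinearMap.mulLeft ℝ (π b - 1)) (LinearMap.mulRight ℝ (π b⁻¹)) :=
      LinearMap.commute_mulLeft_right _ _
    have n3 := c1.isNilpotent_mul_right n1
    have c2 : Commute (LinearMap.mulLeft ℝ (π b - 1) * LinearMap.mulRight ℝ (π b⁻¹))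
        (LinearMap.mulRight ℝ (π b⁻¹ - 1)) := by
      refine Commute.mul_left (LinearMap.commute_mulLeft_right _ _) ?_
      ext X y
      simp [mul_sub, sub_mul, mul_assoc]
    exact c2.isNilpotent_add n3 n2
  have had := com_ad C hb
  have hTm : ∀ l ∈ com_m π τ x₀ A, T l ∈ com_m π τ x₀ A := by
    intro l hl
    rw [hT]
    exact sub_mem (had l hl) hl
  -- the factor on the quotient
  set c : ℝ := φ (T w) with hc
  have hTh : ∀ X ∈ hh π A, T X ∈ hh π A := by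
    intro X hX
    rw [hT]
    exact sub_mem (hb X hX) hX
  have hTφ : ∀ l ∈ com_m π τ x₀ A, φ (T l) = c * φ l := by
    intro l hl
    have h1 := hφh _ (hTh _ (hφ l hl))
    rw [map_sub, map_smul, map_sub, map_smul, ← hc, smul_eq_mul, sub_eq_zero] at h1
    rw [h1, mul_comm]
  have hpow : ∀ k : ℕ, (T ^ k) w ∈ com_m π τ x₀ A ∧ φ ((T ^ k) w) = c ^ k := by
    intro k
    induction k with
    | zero => exact ⟨by simpa using hw, by simpa using hφw⟩
    | succ k ih =>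
      rw [pow_succ', Module.End.mul_apply]
      exact ⟨hTm _ ih.1, by rw [hTφ _ ih.1, ih.2, pow_succ']⟩
  have hc0 : c = 0 := by
    obtain ⟨k, hk⟩ := hTn
    have h1 := (hpow k).2
    rw [hk, LinearMap.zero_apply, map_zero] at h1
    exact IsNilpotent.eq_zero ⟨k, h1.symm⟩
  intro l hl
  have h1 := hTφ l hl
  rw [hT, map_sub, hc0, zero_mul, sub_eq_zero] at h1
  exact h1

theorem com_exp_conj (b : Γ) (l : E →L[ℝ] E) :
    π b * exp l = exp (π b * l * π b⁻¹) * π b := by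
  have h3 := congrArg (fun u : (E →L[ℝ] E)ˣ => (u : E →L[ℝ] E)) (core_ue_conj (π := π) b l)
  simpa using h3

theorem com_or (C : Cf π τ x₀ A n) (B : Subgroup Γ) (hAB : A ≤ B)
    (huB : ∀ b ∈ B, IsNilpotent (π b - 1))
    (hcom : ∀ b ∈ B, ∀ X ∈ hh π A, π b * X * π b⁻¹ ∈ hh π A) :
    (∃ Φ : Set Γ, Φ.Finite ∧ ∀ b ∈ B, ∃ a ∈ A, ∃ φ ∈ Φ, b = a * φ) ∨
    ∃ R : ℝ, ∀ y, τ y = 1 → ∃ g ∈ B, ‖π g y‖ ≤ R := by
  obtain ⟨w, hw, φ, hφw, hφh, hφ⟩ := com_fun C
  have hAd : ∀ b ∈ B, ∀ l ∈ com_m π τ x₀ A, π b * l * π b⁻¹ ∈ com_m π τ x₀ A ∧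
      φ (π b * l * π b⁻¹) = φ l := by
    intro b hb l hl
    exact ⟨com_ad C (hcom b hb) l hl, com_phi C (huB b hb) (huB _ (B.inv_mem hb)) (hcom b hb) hw
      hφw hφh hφ l hl⟩
  -- translation parts
  let Q : Γ → ℝ → Prop := fun g t => ∃ l ∈ com_m π τ x₀ A, φ l = t ∧ π g x₀ = exp l x₀
  have hact : ∀ b ∈ B, ∀ s t : ℝ, Q b s → ∀ y, (∃ l ∈ com_m π τ x₀ A, φ l = t ∧ y = exp l x₀) →
      ∃ l ∈ com_m π τ x₀ A, φ l = t + s ∧ π b y = exp l x₀ := by
    rintro b hb s t ⟨l, hl, rfl, hbl⟩ y ⟨k, hk, rfl, rfl⟩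
    obtain ⟨h1, h2⟩ := hAd b hb k hk
    refine ⟨π b * k * π b⁻¹ + l, add_mem h1 hl, by rw [map_add, h2], ?_⟩
    rw [← ContinuousLinearMap.mul_apply, com_exp_conj, ContinuousLinearMap.mul_apply, hbl,
      ← ContinuousLinearMap.mul_apply, ← exp_add_comm' (C.acomm h1.1 hl.1)]
  have hpow : ∀ b ∈ B, ∀ s : ℝ, Q b s → ∀ k : ℕ, Q (b ^ k) (k * s) := by
    intro b hb s hs k
    induction k with
    | zero => exact ⟨0, zero_mem _, by simp, by simp [exp_zero]⟩
    | succ k ih =>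
      obtain ⟨l, hl, h1, h2⟩ := hact b hb s (k * s) hs (π (b ^ k) x₀) ih
      refine ⟨l, hl, by rw [h1]; push_cast; ring, ?_⟩
      rw [pow_succ', map_mul, ContinuousLinearMap.mul_apply, h2]
  have hinv : ∀ b ∈ B, ∀ s : ℝ, Q b s → Q b⁻¹ (-s) := by
    rintro b hb s ⟨l, hl, rfl, hbl⟩
    obtain ⟨h1, h2⟩ := hAd b⁻¹ (B.inv_mem hb) l hl
    rw [inv_inv] at h1 h2
    refine ⟨-(π b⁻¹ * l * π b), neg_mem h1, by rw [map_neg, h2], ?_⟩
    have h3 : x₀ = exp (π b⁻¹ * l * π b) (π b⁻¹ x₀) := by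
      have h4 := com_exp_conj (π := π) b⁻¹ l
      rw [inv_inv] at h4
      rw [← ContinuousLinearMap.mul_apply, ← h4, ContinuousLinearMap.mul_apply, ← hbl,
        ← ContinuousLinearMap.mul_apply, ← map_mul, inv_mul_cancel, map_one,
        ContinuousLinearMap.one_apply]
    conv_rhs => rw [h3]
    rw [← ContinuousLinearMap.mul_apply, exp_neg_mul_exp, ContinuousLinearMap.one_apply]
  -- cocompactness of `A` on the orbits of `hh`
  obtain ⟨R, hR⟩ := cobounded (core_Lam π A C.comm C.uni)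
  obtain ⟨K, hK⟩ := core_exp_bdd (M := E) R
  by_cases hall : ∀ b ∈ B, Q b 0
  · left
    refine ⟨{g : Γ | ‖π g x₀‖ ≤ K * ‖x₀‖}, core_fin_pt C.sys.prop C.tx _, fun b hb => ?_⟩
    obtain ⟨l, hl, h0, h1⟩ := hall b hb
    have hlh : l ∈ hh π A := by
      have h2 := hφ l hl
      rwa [h0, zero_smul, sub_zero] at h2
    obtain ⟨a, ha, -, h4⟩ := core_near C.comm C.uni hR hK hlh x₀
    refine ⟨a, ha, a⁻¹ * b, ?_, by rw [mul_inv_cancel_left]⟩
    rw [Set.mem_setOf_eq, map_mul, ContinuousLinearMap.mul_apply, h1]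
    exact h4
  · right
    rw [not_forall] at hall
    obtain ⟨b, hall⟩ := hall
    rw [Classical.not_imp] at hall
    obtain ⟨hb, hb0⟩ := hall
    obtain ⟨lb, hlb, hlbx⟩ := com_log C (y := π b x₀) (by rw [C.sys.tau, C.tx])
    set c : ℝ := φ lb with hc
    have hQ : Q b c := ⟨lb, hlb, rfl, hlbx⟩
    have hc0 : c ≠ 0 := by
      intro h
      rw [h] at hQ
      exact hb0 hQ
    have hz : ∀ k : ℤ, ∃ g ∈ B, Q g (k * c) := by
      intro k
      obtain ⟨m, rfl | rfl⟩ := k.eq_nat_or_neg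
      · exact ⟨b ^ m, B.pow_mem hb m, by simpa using hpow b hb c hQ m⟩
      · refine ⟨(b ^ m)⁻¹, B.inv_mem (B.pow_mem hb m), ?_⟩
        have h1 := hinv (b ^ m) (B.pow_mem hb m) _ (hpow b hb c hQ m)
        have h2 : ((-(m : ℤ) : ℤ) : ℝ) * c = -(m * c) := by push_cast; ring
        rw [h2]
        exact h1
    obtain ⟨K', hK'⟩ := core_exp_bdd (M := E) (|c| * ‖w‖)
    refine ⟨max K 0 * (K' * ‖x₀‖), fun y hy => ?_⟩
    obtain ⟨l, hl, hly⟩ := com_log C hy
    obtain ⟨g, hg, hQg⟩ := hz (-⌊φ l / c⌋)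
    obtain ⟨l', hl', h1, h2⟩ := hact g hg _ (φ l) hQg y ⟨l, hl, rfl, hly⟩
    have h3 : φ l' = Int.fract (φ l / c) * c := by
      rw [h1, ← Int.self_sub_floor]
      push_cast
      field_simp
      ring
    have h4 : |φ l'| ≤ |c| := by
      rw [h3, abs_mul, abs_of_nonneg (Int.fract_nonneg _)]
      have h5 := (Int.fract_lt_one (φ l / c)).le
      nlinarith [abs_nonneg c]
    have h5 : ‖exp (φ l' • w) x₀‖ ≤ K' * ‖x₀‖ := by
      refine (ContinuousLinearMap.le_opNorm _ _).trans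
        (mul_le_mul_of_nonneg_right (hK' _ ?_) (norm_nonneg _))
      rw [norm_smul, Real.norm_eq_abs]
      exact mul_le_mul_of_nonneg_right h4 (norm_nonneg _)
    have h6 := hφ l' hl'
    obtain ⟨a, ha, -, h7⟩ := core_near C.comm C.uni hR hK h6 (exp (φ l' • w) x₀)
    have h8 : Commute (l' - φ l' • w) (φ l' • w) :=
      C.acomm (com_hh_le C h6).1 ((com_m π τ x₀ A).smul_mem _ hw).1
    refine ⟨a⁻¹ * g, B.mul_mem (B.inv_mem (hAB ha)) hg, ?_⟩
    have h9 : exp l' x₀ = exp (l' - φ l' • w) (exp (φ l' • w) x₀) := by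
      rw [← ContinuousLinearMap.mul_apply, ← exp_add_comm' h8, sub_add_cancel]
    rw [map_mul, ContinuousLinearMap.mul_apply, h2, h9]
    refine h7.trans ?_
    exact (mul_le_mul_of_nonneg_right (le_max_left K 0) (norm_nonneg _)).trans
      (mul_le_mul_of_nonneg_left h5 (le_max_right K 0))

end Pool.Agent.H30.T4
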