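import Mathlib
import Pool.Agent.H30.T4.Defs
import Pool.Agent.H30.T4.Com

/-! T4-8b: a unipotent group that contains `A` is finite over `A`, or the whole group is virtually
solvable. -/

set_option autoImplicit false

namespace Pool.Agent.H30.T4

open scoped commutatorElement
open NormedSpace Module Pool.Agent.H71.AU Pool.Agent.H14.HP Pool.Agent.H14.HR

variable {E : Type*} [NormedAddCommGroup E] [NormedSpace ℝ E] [CompleteSpace E]
  [FiniteDimensional ℝ E] {Γ : Type*} [Group Γ] {π : Γ →* (E →L[ℝ] E)} {τ : E →L[ℝ] ℝ} {x₀ : E}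
  {A : Subgroup Γ} {n : ℕ}

omit [CompleteSpace E] [FiniteDimensional ℝ E] in
private theorem LemU_II (B : Subgroup Γ) :
    Submodule.span ℝ {x : E →L[ℝ] E | ∃ b ∈ B, x = π b - 1} *
      Submodule.span ℝ {x : E →L[ℝ] E | ∃ b ∈ B, x = π b - 1} ≤
    Submodule.span ℝ {x : E →L[ℝ] E | ∃ b ∈ B, x = π b - 1} := by
  rw [Submodule.span_mul_span, Submodule.span_le]
  rintro _ ⟨_, ⟨b, hb, rfl⟩, _, ⟨c, hc, rfl⟩, rfl⟩
  have h1 : (π b - 1) * (π c - 1) = (π (b * c) - 1) - (π b - 1) - (π c - 1) := by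
    rw [map_mul]
    noncomm_ring
  show (π b - 1) * (π c - 1) ∈ _
  rw [h1]
  refine Submodule.sub_mem _ (Submodule.sub_mem _ ?_ ?_) ?_
  · exact Submodule.subset_span ⟨b * c, B.mul_mem hb hc, rfl⟩
  · exact Submodule.subset_span ⟨b, hb, rfl⟩
  · exact Submodule.subset_span ⟨c, hc, rfl⟩

private theorem LemU_pow {R : Type*} [Semiring R] [Algebra ℝ R] {I : Submodule ℝ R}
    (h : I * I ≤ I) (k : ℕ) : I ^ (k + 1 + 1) ≤ I ^ (k + 1) := by
  rw [pow_succ I (k + 1), pow_succ I k, mul_assoc]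
  exact mul_le_mul' le_rfl h

omit [CompleteSpace E] [FiniteDimensional ℝ E] in
/-- A group of operators with vanishing products of the `π b - 1` is nilpotent. -/
private theorem LemU_nil (hinj : Function.Injective π) (B : Subgroup Γ)
    (hB : ∃ M : ℕ, ∀ l : List Γ, (∀ b ∈ l, b ∈ B) → M ≤ l.length →
      (l.map (fun b => π b - 1)).prod = 0) : Group.IsNilpotent B := by
  obtain ⟨M, hM⟩ := hB
  set I : Submodule ℝ (E →L[ℝ] E) := Submodule.span ℝ {x | ∃ b ∈ B, x = π b - 1} with hI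
  have hII : I * I ≤ I := LemU_II B
  have hmem : ∀ b ∈ B, π b - 1 ∈ I := fun b hb => Submodule.subset_span ⟨b, hb, rfl⟩
  have hIM : I ^ (M + 1) = ⊥ := by
    rw [hI, Submodule.span_pow, Submodule.span_eq_bot]
    intro x hx
    rw [Set.mem_pow] at hx
    obtain ⟨f, hf⟩ := hx
    have hc : ∀ i, ∃ b ∈ B, (f i : E →L[ℝ] E) = π b - 1 := fun i => (f i).2
    choose b hb hfb using hc
    have h1 := hM (List.ofFn b) (by
      intro c hc
      obtain ⟨i, rfl⟩ := (List.mem_ofFn' b c).1 hc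
      exact hb i) (by simp)
    rw [List.map_ofFn] at h1
    rw [← hf, ← h1]
    congr 2
    funext i
    exact hfb i
  let H : ℕ → Subgroup B := fun k =>
    { carrier := {g | π (g : Γ) - 1 ∈ I ^ (k + 1)}
      one_mem' := by
        show π ((1 : B) : Γ) - 1 ∈ I ^ (k + 1)
        rw [OneMemClass.coe_one, map_one, sub_self]
        exact Submodule.zero_mem _
      mul_mem' := by
        intro g h hg hh'
        show π ((g * h : B) : Γ) - 1 ∈ I ^ (k + 1)
        have hg' : π (g : Γ) - 1 ∈ I ^ (k + 1) := hg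
        have hh'' : π (h : Γ) - 1 ∈ I ^ (k + 1) := hh'
        have h1 : π ((g * h : B) : Γ) - 1 =
            (π (g : Γ) - 1) * (π (h : Γ) - 1) + (π (g : Γ) - 1) + (π (h : Γ) - 1) := by
          rw [Subgroup.coe_mul, map_mul]
          noncomm_ring
        rw [h1]
        refine Submodule.add_mem _ (Submodule.add_mem _ (LemU_pow hII k ?_) hg') hh''
        rw [pow_succ I (k + 1)]
        exact Submodule.mul_mem_mul hg' (hmem _ h.2)
      inv_mem' := by
        intro g hg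
        show π ((g⁻¹ : B) : Γ) - 1 ∈ I ^ (k + 1)
        have hg' : π (g : Γ) - 1 ∈ I ^ (k + 1) := hg
        have h2 : π (g : Γ) * π ((g : Γ)⁻¹) = 1 := by
          rw [← map_mul, mul_inv_cancel, map_one]
        have h1 : π ((g⁻¹ : B) : Γ) - 1 =
            -((π (g : Γ) - 1) * (π ((g : Γ)⁻¹) - 1)) - (π (g : Γ) - 1) := by
          rw [Subgroup.coe_inv]
          have h3 : (π (g : Γ) - 1) * (π ((g : Γ)⁻¹) - 1) =
              π (g : Γ) * π ((g : Γ)⁻¹) - π (g : Γ) - π ((g : Γ)⁻¹) + 1 := by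
            noncomm_ring
          rw [h3, h2]
          abel
        rw [h1]
        refine Submodule.sub_mem _ (Submodule.neg_mem _ (LemU_pow hII k ?_)) hg'
        rw [pow_succ I (k + 1)]
        exact Submodule.mul_mem_mul hg' (hmem _ (B.inv_mem g.2)) }
  rw [Subgroup.nilpotent_iff_finite_descending_central_series]
  refine ⟨M, H, ⟨?_, ?_⟩, ?_⟩
  · rw [eq_top_iff]
    intro g _
    show π (g : Γ) - 1 ∈ I ^ (0 + 1)
    rw [zero_add, pow_one]
    exact hmem _ g.2
  · intro x k hx g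
    have hx' : π (x : Γ) - 1 ∈ I ^ (k + 1) := hx
    show π ((⁅x, g⁆ : B) : Γ) - 1 ∈ I ^ (k + 1 + 1)
    have h1 : π ((⁅x, g⁆ : B) : Γ) - 1 =
        ((π (x : Γ) - 1) * (π (g : Γ) - 1) - (π (g : Γ) - 1) * (π (x : Γ) - 1)) +
        ((π (x : Γ) - 1) * (π (g : Γ) - 1) - (π (g : Γ) - 1) * (π (x : Γ) - 1)) *
          (π ((x : Γ)⁻¹ * (g : Γ)⁻¹) - 1) := by
      have h2 : ((⁅x, g⁆ : B) : Γ) = (x : Γ) * (g : Γ) * ((x : Γ)⁻¹ * (g : Γ)⁻¹) := by
        rw [commutatorElement_def, Subgroup.coe_mul, Subgroup.coe_mul, Subgroup.coe_mul,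
          Subgroup.coe_inv, Subgroup.coe_inv]
        group
      have h3 : π (g : Γ) * π (x : Γ) * π ((x : Γ)⁻¹ * (g : Γ)⁻¹) = 1 := by
        rw [← map_mul, ← map_mul]
        have : (g : Γ) * (x : Γ) * ((x : Γ)⁻¹ * (g : Γ)⁻¹) = 1 := by group
        rw [this, map_one]
      rw [h2, map_mul, map_mul]
      have h4 : ∀ a b c : E →L[ℝ] E, b * a * c = 1 → a * b * c - 1 =
          ((a - 1) * (b - 1) - (b - 1) * (a - 1)) +
          ((a - 1) * (b - 1) - (b - 1) * (a - 1)) * (c - 1) := by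
        intro a b c h
        have h5 : ((a - 1) * (b - 1) - (b - 1) * (a - 1)) +
          ((a - 1) * (b - 1) - (b - 1) * (a - 1)) * (c - 1) = a * b * c - b * a * c := by
          noncomm_ring
        rw [h5, h]
      exact h4 _ _ _ h3
    have hZ : (π (x : Γ) - 1) * (π (g : Γ) - 1) - (π (g : Γ) - 1) * (π (x : Γ) - 1) ∈
        I ^ (k + 1 + 1) := by
      refine Submodule.sub_mem _ ?_ ?_
      · rw [pow_succ I (k + 1)]
        exact Submodule.mul_mem_mul hx' (hmem _ g.2)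
      · rw [pow_succ' I (k + 1)]
        exact Submodule.mul_mem_mul (hmem _ g.2) hx'
    rw [h1]
    refine Submodule.add_mem _ hZ (LemU_pow hII (k + 1) ?_)
    rw [pow_succ I (k + 1 + 1)]
    exact Submodule.mul_mem_mul hZ (hmem _ (B.mul_mem (B.inv_mem x.2) (B.inv_mem g.2)))
  · rw [eq_bot_iff]
    intro g hg
    have hg' : π (g : Γ) - 1 ∈ I ^ (M + 1) := hg
    rw [hIM, Submodule.mem_bot, sub_eq_zero] at hg'
    rw [Subgroup.mem_bot]
    apply Subtype.ext
    apply hinj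
    rw [hg', OneMemClass.coe_one, map_one]

omit [FiniteDimensional ℝ E] in
private theorem LemU_lgpow {x : E →L[ℝ] E} (hx : IsNilpotent (x - 1)) (m : ℕ) :
    IsNilpotent (x ^ m - 1) ∧ lg (x ^ m) = (m : ℝ) • lg x := by
  induction m with
  | zero =>
    have h1 : IsNilpotent ((1 : E →L[ℝ] E) - 1) := by rw [sub_self]; exact IsNilpotent.zero
    refine ⟨by rw [pow_zero]; exact h1, ?_⟩
    rw [pow_zero, Nat.cast_zero, zero_smul]
    exact lg_eq h1 IsNilpotent.zero exp_zero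
  | succ m ih =>
    have h1 := lg_mul ih.1 hx ((Commute.refl x).pow_left m)
    rw [← pow_succ] at h1
    refine ⟨h1.1, ?_⟩
    rw [h1.2, ih.2, Nat.cast_add, Nat.cast_one, add_smul, one_smul]

omit [CompleteSpace E] [FiniteDimensional ℝ E] in
private theorem LemU_fin (S : Sys π τ) (hx : τ x₀ = 1) (B : Subgroup Γ) (R : ℝ)
    (hR : ∀ y, τ y = 1 → ∃ g ∈ B, ‖π g y‖ ≤ R) : B.FiniteIndex := by
  have hfin := S.prop (max R ‖x₀‖)
  have hF : Finite ↥{g : Γ | ∃ x, τ x = 1 ∧ ‖x‖ ≤ max R ‖x₀‖ ∧ ‖π g x‖ ≤ max R ‖x₀‖} :=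
    hfin.to_subtype
  have hq : Finite (Γ ⧸ B) := by
    refine Finite.of_surjective
      (fun f : ↥{g : Γ | ∃ x, τ x = 1 ∧ ‖x‖ ≤ max R ‖x₀‖ ∧ ‖π g x‖ ≤ max R ‖x₀‖} =>
        (((f : Γ)⁻¹ : Γ) : Γ ⧸ B)) ?_
    intro q
    induction q using QuotientGroup.induction_on with
    | H γ =>
      obtain ⟨g, hg, hgn⟩ := hR (π γ⁻¹ x₀) (by rw [S.tau, hx])
      refine ⟨⟨g * γ⁻¹, x₀, hx, le_max_right _ _, ?_⟩, ?_⟩
      · rw [map_mul]
        exact hgn.trans (le_max_left _ _)
      · show (((g * γ⁻¹)⁻¹ : Γ) : Γ ⧸ B) = (γ : Γ ⧸ B)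
        rw [QuotientGroup.eq]
        have : ((g * γ⁻¹)⁻¹)⁻¹ * γ = g := by group
        rw [this]
        exact hg
  exact Subgroup.finiteIndex_of_finite_quotient

private theorem LemU_pigeon {G : Type*} [Group G] (A B : Subgroup G)
    (Φ : Set G) (hΦ : Φ.Finite) (h : ∀ b ∈ B, ∃ a ∈ A, ∃ φ ∈ Φ, b = a * φ) :
    ∃ m : ℕ, 0 < m ∧ ∀ b ∈ B, b ^ m ∈ A := by
  classical
  refine ⟨(hΦ.toFinset.card).factorial, Nat.factorial_pos _, fun b hb => ?_⟩
  have hc : ∀ k : ℕ, ∃ a ∈ A, ∃ φ ∈ Φ, b ^ k = a * φ := fun k => h _ (B.pow_mem hb k)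
  choose a ha φ hφ he using hc
  obtain ⟨i, hi, j, hj, hij, hφij⟩ := Finset.exists_ne_map_eq_of_card_lt_of_maps_to
    (s := Finset.range (hΦ.toFinset.card + 1)) (t := hΦ.toFinset) (by simp)
    (f := φ) (fun k _ => by
      simp only [Set.Finite.coe_toFinset]
      exact hφ k)
  wlog hlt : i < j generalizing i j
  · exact this j hj i hi hij.symm hφij.symm (lt_of_le_of_ne (not_lt.1 hlt) hij.symm)
  have h1 : b ^ (j - i) ∈ A := by
    have h2 : b ^ (j - i) = a j * (a i)⁻¹ := by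
      have h3 : b ^ (j - i) = b ^ j * (b ^ i)⁻¹ := pow_sub b hlt.le
      rw [h3, he i, he j, hφij]
      group
    rw [h2]
    exact A.mul_mem (ha j) (A.inv_mem (ha i))
  have h4 : j - i ∣ (hΦ.toFinset.card).factorial := by
    refine Nat.dvd_factorial (by omega) ?_
    have := Finset.mem_range.1 hj
    omega
  obtain ⟨c, hc⟩ := h4
  rw [hc, pow_mul]
  exact A.pow_mem h1 c

omit [FiniteDimensional ℝ E] in
/-- The elements of `B` that preserve the span of the logarithms. -/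
private def LemU_star (π : Γ →* (E →L[ℝ] E)) (A B : Subgroup Γ) : Subgroup Γ where
  carrier := {b | b ∈ B ∧ (∀ X ∈ hh π A, π b * X * π b⁻¹ ∈ hh π A) ∧
    ∀ X ∈ hh π A, π b⁻¹ * X * π b ∈ hh π A}
  one_mem' := by
    refine ⟨B.one_mem, fun X hX => ?_, fun X hX => ?_⟩
    · rw [inv_one, map_one, one_mul, mul_one]
      exact hX
    · rw [inv_one, map_one, one_mul, mul_one]
      exact hX
  mul_mem' := by
    rintro b c ⟨hb, hb1, hb2⟩ ⟨hc, hc1, hc2⟩
    refine ⟨B.mul_mem hb hc, fun X hX => ?_, fun X hX => ?_⟩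
    · have h := hb1 _ (hc1 X hX)
      rw [mul_inv_rev, map_mul, map_mul]
      simpa only [mul_assoc] using h
    · have h := hc2 _ (hb2 X hX)
      rw [mul_inv_rev, map_mul, map_mul]
      simpa only [mul_assoc] using h
  inv_mem' := by
    rintro b ⟨hb, hb1, hb2⟩
    refine ⟨B.inv_mem hb, fun X hX => ?_, fun X hX => ?_⟩
    · rw [inv_inv]
      exact hb2 X hX
    · rw [inv_inv]
      exact hb1 X hX

theorem lemU (C : Cf π τ x₀ A n) (B : Subgroup Γ) (hAB : A ≤ B)
    (hB : ∃ M : ℕ, ∀ l : List Γ, (∀ b ∈ l, b ∈ B) → M ≤ l.length →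
      (l.map (fun b => π b - 1)).prod = 0) :
    (∃ m : ℕ, 0 < m ∧ ∀ b ∈ B, b ^ m ∈ A) ∨ VS Γ := by
  have huB : ∀ b ∈ B, IsNilpotent (π b - 1) := by
    obtain ⟨M, hM⟩ := hB
    intro b hb
    refine ⟨M, ?_⟩
    have h1 := hM (List.replicate M b) (fun c hc => by rw [List.eq_of_mem_replicate hc]; exact hb)
      (by simp)
    simpa using h1
  have hnil : Group.IsNilpotent B := LemU_nil C.inj B hB
  set B' : Subgroup Γ := LemU_star π A B with hB'
  have hB'B : B' ≤ B := fun b hb => hb.1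
  have hAB' : A ≤ B' := by
    intro a ha
    have hcm : ∀ X ∈ hh π A, Commute (π a) X := by
      intro X hX
      refine Submodule.span_induction (p := fun X _ => Commute (π a) X) ?_ ?_ ?_ ?_ hX
      · rintro _ ⟨c, hc, rfl⟩
        exact (lg_commute (C.uni c hc) (core_comm C.comm hc ha)).symm
      · exact Commute.zero_right _
      · intro X Y _ _ h1 h2
        exact h1.add_right h2
      · intro t X _ h1
        exact h1.smul_right t
    have h1 : π a * π a⁻¹ = 1 := by rw [← map_mul, mul_inv_cancel, map_one]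
    have h2 : π a⁻¹ * π a = 1 := by rw [← map_mul, inv_mul_cancel, map_one]
    refine ⟨hAB ha, fun X hX => ?_, fun X hX => ?_⟩
    · rw [(hcm X hX).eq, mul_assoc, h1, mul_one]
      exact hX
    · rw [mul_assoc, ← (hcm X hX).eq, ← mul_assoc, h2, one_mul]
      exact hX
  rcases com_or C B' hAB' (fun b hb => huB b (hB'B hb)) (fun b hb => hb.2.1) with
    ⟨Φ, hΦ, hAΦ⟩ | ⟨R, hR⟩
  · left
    obtain ⟨m, hm, hpow⟩ := LemU_pigeon A B' Φ hΦ hAΦ
    have hkey : ∀ b : Γ, (∀ h ∈ B', b * h * b⁻¹ ∈ B') → ∀ X ∈ hh π A,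
        π b * X * π b⁻¹ ∈ hh π A := by
      intro b hb X hX
      refine Submodule.span_induction (p := fun X _ => π b * X * π b⁻¹ ∈ hh π A) ?_ ?_ ?_ ?_ hX
      · rintro _ ⟨a, ha, rfl⟩
        have h1 : (b * a * b⁻¹) ^ m ∈ A := hpow _ (hb a (hAB' ha))
        let u : (E →L[ℝ] E)ˣ := ⟨π b, π b⁻¹, by rw [← map_mul, mul_inv_cancel, map_one],
          by rw [← map_mul, inv_mul_cancel, map_one]⟩
        have h2 := lg_conj u (C.uni a ha)
        have h3 : (u : E →L[ℝ] E) * π a * ((u⁻¹ : (E →L[ℝ] E)ˣ) : E →L[ℝ] E) =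
            π (b * a * b⁻¹) := by
          rw [map_mul, map_mul]
          rfl
        rw [h3] at h2
        have h4 := LemU_lgpow h2.1 m
        rw [← map_pow] at h4
        have h5 : lg (π ((b * a * b⁻¹) ^ m)) ∈ hh π A :=
          Submodule.subset_span ⟨_, h1, rfl⟩
        rw [h4.2, h2.2] at h5
        have h6 : (m : ℝ) ≠ 0 := by exact_mod_cast hm.ne'
        have h7 := (hh π A).smul_mem (m : ℝ)⁻¹ h5
        rw [smul_smul, inv_mul_cancel₀ h6, one_smul] at h7
        exact h7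
      · rw [mul_zero, zero_mul]
        exact Submodule.zero_mem _
      · intro X Y _ _ h1 h2
        rw [mul_add, add_mul]
        exact Submodule.add_mem _ h1 h2
      · intro t X _ h1
        rw [mul_smul_comm, smul_mul_assoc]
        exact Submodule.smul_mem _ t h1
    have htop : B'.subgroupOf B = ⊤ := by
      have hN := Group.normalizerCondition_of_isNilpotent (G := B)
      rw [normalizerCondition_iff_only_full_group_self_normalizing] at hN
      refine hN _ (le_antisymm ?_ Subgroup.le_normalizer)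
      intro b hb
      rw [Subgroup.mem_normalizer_iff] at hb
      rw [Subgroup.mem_subgroupOf]
      have h1 : ∀ h ∈ B', (b : Γ) * h * (b : Γ)⁻¹ ∈ B' := by
        intro h hh'
        have h2 := (hb ⟨h, hB'B hh'⟩).1 (Subgroup.mem_subgroupOf.2 hh')
        exact Subgroup.mem_subgroupOf.1 h2
      have h3 : ∀ h ∈ B', (b : Γ)⁻¹ * h * ((b : Γ)⁻¹)⁻¹ ∈ B' := by
        intro h hh'
        have h4 := (hb ⟨(b : Γ)⁻¹ * h * (b : Γ),
          B.mul_mem (B.mul_mem (B.inv_mem b.2) (hB'B hh')) b.2⟩).2 (by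
            rw [Subgroup.mem_subgroupOf]
            have h5 : ((b * ⟨(b : Γ)⁻¹ * h * (b : Γ),
              B.mul_mem (B.mul_mem (B.inv_mem b.2) (hB'B hh')) b.2⟩ * b⁻¹ : B) : Γ) = h := by
              show (b : Γ) * ((b : Γ)⁻¹ * h * (b : Γ)) * (b : Γ)⁻¹ = h
              group
            rw [h5]
            exact hh')
        rw [inv_inv]
        exact Subgroup.mem_subgroupOf.1 h4
      refine ⟨b.2, hkey _ h1, fun X hX => ?_⟩
      have h6 := hkey _ h3 X hX
      rw [inv_inv] at h6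
      exact h6
    have hBB' : B ≤ B' := Subgroup.subgroupOf_eq_top.1 htop
    exact ⟨m, hm, fun b hb => hpow b (hBB' hb)⟩
  · right
    have hfi := LemU_fin C.sys C.tx B' R hR
    have hsol : Group.IsSolvable B := inferInstance
    exact ⟨B', hfi, Group.isSolvable_of_isSolvable_injective
      (Subgroup.inclusion_injective hB'B)⟩

end Pool.Agent.H30.T4
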