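import Pool.Agent.H30.T4.Cap
import Pool.Agent.H30.T4.LemU

/-!
# The subgroup of the elements which are trivial on the factors of the composition series
-/

set_option autoImplicit false

namespace Pool.Agent.H30.T4

open NormedSpace Module Pool.Agent.H71.AU Pool.Agent.H14.HP Pool.Agent.H14.HR

section Alg

variable {E : Type*} [NormedAddCommGroup E] [NormedSpace ℝ E]

theorem gam_jl {F : ℕ → Submodule ℝ E} {b c : E →L[ℝ] E} (hb : ∀ i, ∀ y ∈ F i, b y ∈ F i)
    (hc : c ∈ JJ F) : b * c ∈ JJ F := fun i y hy => hb (i + 1) _ (hc i y hy)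

theorem gam_jr {F : ℕ → Submodule ℝ E} {b c : E →L[ℝ] E} (hb : ∀ i, ∀ y ∈ F i, b y ∈ F i)
    (hc : c ∈ JJ F) : c * b ∈ JJ F := fun i y hy => hc i _ (hb i y hy)

/-- A product of commuting nilpotent maps, at least as many as the dimension. -/
theorem gam_rank [FiniteDimensional ℝ E] (P : Set (E →L[ℝ] E))
    (hc : ∀ x ∈ P, ∀ y ∈ P, x * y = y * x) (hn : ∀ x ∈ P, IsNilpotent x) :
    ∀ l : List (E →L[ℝ] E), (∀ x ∈ l, x ∈ P) →
      finrank ℝ (LinearMap.range (l.prod : E →L[ℝ] E).toLinearMap) + l.length ≤ finrank ℝ E ∨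
        l.prod = 0 := by
  intro l
  induction l with
  | nil =>
    intro _
    left
    rw [List.length_nil, add_zero]
    exact Submodule.finrank_le _
  | cons b l ih =>
    intro hl
    have hbP : b ∈ P := hl b (List.mem_cons_self)
    rcases ih (fun x hx => hl x (List.mem_cons_of_mem _ hx)) with h | h
    swap
    · right
      rw [List.prod_cons, h, mul_zero]
    by_cases h0 : b * l.prod = 0
    · right
      rw [List.prod_cons, h0]
    left
    have hcomm : b * l.prod = l.prod * b := by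
      have : ∀ l' : List (E →L[ℝ] E), (∀ x ∈ l', x ∈ P) → b * l'.prod = l'.prod * b := by
        intro l'
        induction l' with
        | nil => intro _; simp
        | cons c l' ih' =>
          intro h'
          rw [List.prod_cons, ← mul_assoc, hc b hbP c (h' c List.mem_cons_self), mul_assoc,
            ih' (fun x hx => h' x (List.mem_cons_of_mem _ hx)), mul_assoc]
      exact this l fun x hx => hl x (List.mem_cons_of_mem _ hx)
    set W := LinearMap.range (l.prod : E →L[ℝ] E).toLinearMap with hW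
    set W' := LinearMap.range ((b :: l).prod : E →L[ℝ] E).toLinearMap with hW'
    have hle : W' ≤ W := by
      rintro _ ⟨y, rfl⟩
      refine ⟨b y, ?_⟩
      change l.prod (b y) = ((b :: l).prod) y
      rw [List.prod_cons, hcomm]
      rfl
    have hlt : W' < W := by
      refine lt_of_le_of_ne hle ?_
      intro he
      -- then `b` is surjective on `W`, so all powers of `b` times the product are nonzero
      have hW0 : ∀ k : ℕ, ∀ z ∈ W, ∃ y ∈ W, (b ^ k) y = z := by
        intro k
        induction k with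
        | zero => intro z hz; exact ⟨z, hz, rfl⟩
        | succ k ihk =>
          intro z hz
          obtain ⟨y, hy, hyz⟩ := ihk z hz
          rw [← he] at hy
          obtain ⟨w, hw⟩ := hy
          refine ⟨l.prod w, ⟨w, rfl⟩, ?_⟩
          rw [pow_succ]
          change (b ^ k) (b (l.prod w)) = z
          have : b (l.prod w) = y := by
            rw [← hw]
            change b (l.prod w) = ((b :: l).prod) w
            rw [List.prod_cons]
            rfl
          rw [this, hyz]
      obtain ⟨k, hk⟩ := hn b hbP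
      apply h0
      ext y
      obtain ⟨w, hw, hwz⟩ := hW0 k (l.prod (b y)) ⟨b y, rfl⟩
      rw [hk] at hwz
      rw [hcomm]
      change l.prod (b y) = 0
      rw [← hwz]
      rfl
    have h1 := Submodule.finrank_lt_finrank_of_lt hlt
    rw [List.length_cons]
    omega

end Alg

variable {E : Type*} [NormedAddCommGroup E] [NormedSpace ℝ E] [CompleteSpace E]
  [FiniteDimensional ℝ E] {Γ : Type*} [Group Γ] {π : Γ →* (E →L[ℝ] E)} {τ : E →L[ℝ] ℝ} {x₀ : E}
  {A : Subgroup Γ} {n : ℕ}

omit [CompleteSpace E] [FiniteDimensional ℝ E] in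
theorem gam_conj {F : ℕ → Submodule ℝ E} {s : ℕ} (hF : Flg π F s) (g : Γ) {X : E →L[ℝ] E}
    (hX : X ∈ JJ F) : π g * X * π g⁻¹ ∈ JJ F :=
  gam_jr (fun i y hy => hF.inv i g⁻¹ y hy) (gam_jl (fun i y hy => hF.inv i g y hy) hX)

omit [CompleteSpace E] [FiniteDimensional ℝ E] in
theorem gam_mul_inv (g : Γ) : π g * π g⁻¹ = 1 := by
  rw [← map_mul, mul_inv_cancel, map_one]

/-- The elements that act trivially on the factors of the series. -/
def gam_G (π : Γ →* (E →L[ℝ] E)) {F : ℕ → Submodule ℝ E} {s : ℕ} (hF : Flg π F s) :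
    Subgroup Γ where
  carrier := {g | π g - 1 ∈ JJ F}
  one_mem' := by
    show π 1 - 1 ∈ JJ F
    rw [map_one, sub_self]
    exact (JJ F).zero_mem
  mul_mem' := by
    intro g h hg hh'
    show π (g * h) - 1 ∈ JJ F
    have h1 : π (g * h) - 1 = π g * (π h - 1) + (π g - 1) := by
      rw [map_mul, mul_sub, mul_one]
      abel
    rw [h1]
    exact (JJ F).add_mem (gam_jl (fun i y hy => hF.inv i g y hy) hh') hg
  inv_mem' := by
    intro g hg
    show π g⁻¹ - 1 ∈ JJ F
    have h1 : π g⁻¹ - 1 = -(π g⁻¹ * (π g - 1)) := by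
      rw [mul_sub, mul_one, ← map_mul, inv_mul_cancel, map_one]
      abel
    rw [h1]
    exact (JJ F).neg_mem (gam_jl (fun i y hy => hF.inv i g⁻¹ y hy) hg)

omit [CompleteSpace E] [FiniteDimensional ℝ E] in
theorem gam_normal {F : ℕ → Submodule ℝ E} {s : ℕ} (hF : Flg π F s) :
    (gam_G π hF).Normal := by
  constructor
  intro u hu g
  show π (g * u * g⁻¹) - 1 ∈ JJ F
  have h1 : π (g * u * g⁻¹) - 1 = π g * (π u - 1) * π g⁻¹ := by
    rw [map_mul, map_mul, mul_sub, sub_mul, mul_one, gam_mul_inv]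
  rw [h1]
  exact gam_conj hF g hu

theorem gam_fin (C : Cf π τ x₀ A n) {F : ℕ → Submodule ℝ E} {s : ℕ} (hF : Flg π F s)
    (hV : ¬ VS Γ) : ∃ m : ℕ, 0 < m ∧ ∀ g : Γ, π g - 1 ∈ JJ F → g ^ m ∈ A := by
  have hN := gam_normal hF
  -- elements of `A G_u`
  have hdec : ∀ b ∈ A ⊔ gam_G π hF, ∃ a ∈ A, π b - 1 - (π a - 1) ∈ JJ F := by
    intro b hb
    rw [Subgroup.mem_sup_of_normal_right] at hb
    obtain ⟨a, ha, u, hu, rfl⟩ := hb
    refine ⟨a, ha, ?_⟩
    have h1 : π (a * u) - 1 - (π a - 1) = π a * (π u - 1) := by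
      rw [map_mul, mul_sub, mul_one]
      abel
    rw [h1]
    exact gam_jl (fun i y hy => hF.inv i a y hy) hu
  have hpres : ∀ g : Γ, ∀ i, ∀ y ∈ F i, (π g - 1) y ∈ F i := fun g i y hy =>
    (F i).sub_mem (hF.inv i g y hy) hy
  have hpresl : ∀ l : List Γ, ∀ i, ∀ y ∈ F i, (l.map (fun b => π b - 1)).prod y ∈ F i := by
    intro l
    induction l with
    | nil => intro i y hy; simpa using hy
    | cons b l ih =>
      intro i y hy
      rw [List.map_cons, List.prod_cons]
      exact hpres b i _ (ih i y hy)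
  have hlist : ∀ l : List Γ, (∀ b ∈ l, b ∈ A ⊔ gam_G π hF) → ∃ l' : List Γ,
      (∀ a ∈ l', a ∈ A) ∧ l'.length = l.length ∧
      (l.map (fun b => π b - 1)).prod - (l'.map (fun a => π a - 1)).prod ∈ JJ F := by
    intro l
    induction l with
    | nil =>
      intro _
      exact ⟨[], by simp, rfl, by simp⟩
    | cons b l ih =>
      intro hl
      obtain ⟨l', h1, h2, h3⟩ := ih fun x hx => hl x (List.mem_cons_of_mem _ hx)
      obtain ⟨a, ha, hab⟩ := hdec b (hl b List.mem_cons_self)
      refine ⟨a :: l', ?_, by rw [List.length_cons, List.length_cons, h2], ?_⟩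
      · intro x hx
        rcases List.mem_cons.1 hx with rfl | hx
        · exact ha
        · exact h1 x hx
      · rw [List.map_cons, List.prod_cons, List.map_cons, List.prod_cons]
        have h4 : (π b - 1) * (l.map (fun b => π b - 1)).prod -
            (π a - 1) * (l'.map (fun a => π a - 1)).prod =
            (π b - 1 - (π a - 1)) * (l.map (fun b => π b - 1)).prod +
            (π a - 1) * ((l.map (fun b => π b - 1)).prod -
              (l'.map (fun a => π a - 1)).prod) := by
          rw [sub_mul _ (π a - 1), mul_sub (π a - 1)]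
          abel
        rw [h4]
        exact (JJ F).add_mem (gam_jr (hpresl l) hab) (gam_jl (hpres a) h3)
  -- products of `finrank E` factors
  have hA0 : ∀ l' : List Γ, (∀ a ∈ l', a ∈ A) → finrank ℝ E + 1 ≤ l'.length →
      (l'.map (fun a => π a - 1)).prod = 0 := by
    intro l' hl' hlen
    rcases gam_rank {x : E →L[ℝ] E | ∃ a ∈ A, x = π a - 1} (by
        rintro _ ⟨a, ha, rfl⟩ _ ⟨b, hb, rfl⟩
        have hc : Commute (π a) (π b) := by
          show π a * π b = π b * π a
          rw [← map_mul, ← map_mul, C.comm a ha b hb]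
        exact ((hc.sub_left (Commute.one_left _)).sub_right (Commute.one_right _)).eq) (by
        rintro _ ⟨a, ha, rfl⟩
        exact C.uni a ha) (l'.map (fun a => π a - 1)) (by
        intro x hx
        obtain ⟨a, ha, rfl⟩ := List.mem_map.1 hx
        exact ⟨a, hl' a ha, rfl⟩) with h | h
    · exfalso
      rw [List.length_map] at h
      omega
    · exact h
  have hJ : ∀ l : List Γ, (∀ b ∈ l, b ∈ A ⊔ gam_G π hF) → finrank ℝ E + 1 ≤ l.length →
      (l.map (fun b => π b - 1)).prod ∈ JJ F := by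
    intro l hl hlen
    obtain ⟨l', h1, h2, h3⟩ := hlist l hl
    rw [hA0 l' h1 (by omega), sub_zero] at h3
    exact h3
  have hB : ∃ M : ℕ, ∀ l : List Γ, (∀ b ∈ l, b ∈ A ⊔ gam_G π hF) → M ≤ l.length →
      (l.map (fun b => π b - 1)).prod = 0 := by
    refine ⟨(finrank ℝ E + 1) * s, ?_⟩
    have key : ∀ k : ℕ, ∀ l : List Γ, (∀ b ∈ l, b ∈ A ⊔ gam_G π hF) →
        (finrank ℝ E + 1) * k ≤ l.length →
        ∀ y, (l.map (fun b => π b - 1)).prod y ∈ F k := by
      intro k
      induction k with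
      | zero =>
        intro l _ _ y
        rw [hF.top]
        exact Submodule.mem_top
      | succ k ih =>
        intro l hl hlen y
        rw [mul_add, mul_one] at hlen
        have h1 : l = l.take (finrank ℝ E + 1) ++ l.drop (finrank ℝ E + 1) :=
          (List.take_append_drop _ _).symm
        rw [h1, List.map_append, List.prod_append]
        have h2 : (((l.take (finrank ℝ E + 1)).map (fun b => π b - 1)).prod) ∈ JJ F := by
          refine hJ _ (fun b hb => hl b (List.mem_of_mem_take hb)) ?_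
          rw [List.length_take]
          omega
        refine h2 k _ (ih _ (fun b hb => hl b (List.mem_of_mem_drop hb)) ?_ y)
        rw [List.length_drop]
        omega
    intro l hl hlen
    ext y
    have h1 := key s l hl hlen y
    rw [hF.bot] at h1
    rw [(Submodule.mem_bot ℝ).1 h1]
    rfl
  rcases lemU C (A ⊔ gam_G π hF) le_sup_left hB with ⟨m, hm, h⟩ | h
  · exact ⟨m, hm, fun g hg => h g (Subgroup.mem_sup_right hg)⟩
  · exact absurd h hV

omit [FiniteDimensional ℝ E] in
theorem gam_lg_pow {a : Γ} (ha : IsNilpotent (π a - 1)) (m : ℕ) :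
    IsNilpotent (π (a ^ m) - 1) ∧ lg (π (a ^ m)) = (m : ℝ) • lg (π a) := by
  induction m with
  | zero =>
    refine ⟨by simp, ?_⟩
    rw [pow_zero, map_one, Nat.cast_zero, zero_smul]
    exact lg_eq (by simp) IsNilpotent.zero exp_zero
  | succ m ih =>
    have hc : Commute (π (a ^ m)) (π a) := by
      show π (a ^ m) * π a = π a * π (a ^ m)
      rw [← map_mul, ← map_mul, ← pow_succ, ← pow_succ']
    have h1 := lg_mul ih.1 ha hc
    rw [pow_succ, map_mul]
    refine ⟨h1.1, ?_⟩
    rw [h1.2, ih.2, Nat.cast_succ, add_smul, one_smul]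

theorem gam_inv (C : Cf π τ x₀ A n) {F : ℕ → Submodule ℝ E} {s : ℕ} (hF : Flg π F s)
    (hm : ∃ m : ℕ, 0 < m ∧ ∀ g : Γ, π g - 1 ∈ JJ F → g ^ m ∈ A) :
    ∀ g : Γ, ∀ X ∈ hu π A F, π g * X * π g⁻¹ ∈ hu π A F := by
  obtain ⟨m, hm0, hm⟩ := hm
  intro g X hX
  refine ⟨?_, gam_conj hF g hX.2⟩
  have h1 := cap C hF X hX.1 hX.2
  have hgen : ∀ Y ∈ {Y | ∃ a ∈ A, π a - 1 ∈ JJ F ∧ Y = lg (π a)}, π g * Y * π g⁻¹ ∈ hh π A := by
    rintro _ ⟨a, ha, haJ, rfl⟩
    have h2 := lg_conj (π.toHomUnits g) (C.uni a ha)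
    rw [← map_inv, MonoidHom.coe_toHomUnits, MonoidHom.coe_toHomUnits] at h2
    have h3 : π (g * a * g⁻¹) = π g * π a * π g⁻¹ := by rw [map_mul, map_mul]
    rw [← h3] at h2
    have h4 : (g * a * g⁻¹) ^ m ∈ A := by
      refine hm _ ?_
      have h5 : π (g * a * g⁻¹) - 1 = π g * (π a - 1) * π g⁻¹ := by
        rw [h3, mul_sub, sub_mul, mul_one, gam_mul_inv]
      rw [h5]
      exact gam_conj hF g haJ
    have h5 := gam_lg_pow h2.1 m
    have h6 : lg (π ((g * a * g⁻¹) ^ m)) ∈ hh π A := Submodule.subset_span ⟨_, h4, rfl⟩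
    rw [h5.2] at h6
    have hm0' : (m : ℝ) ≠ 0 := by
      exact_mod_cast hm0.ne'
    have h7 := (hh π A).smul_mem ((m : ℝ)⁻¹) h6
    rw [smul_smul, inv_mul_cancel₀ hm0', one_smul, h2.2] at h7
    exact h7
  refine Submodule.span_induction (p := fun Y _ => π g * Y * π g⁻¹ ∈ hh π A) hgen ?_ ?_ ?_ h1
  · rw [mul_zero, zero_mul]
    exact (hh π A).zero_mem
  · intro Y Z _ _ hY hZ
    rw [mul_add, add_mul]
    exact (hh π A).add_mem hY hZ
  · intro t Y _ hY
    rw [mul_smul_comm, smul_mul_assoc]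
    exact (hh π A).smul_mem t hY

end Pool.Agent.H30.T4
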