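import Mathlib
import Pool.Agent.H30.T4.Defs
import Pool.Agent.H71.AU.Grp

/-! T4-9b: not all of `hh` is in `JJ F`. -/

set_option autoImplicit false

namespace Pool.Agent.H30.T4

open NormedSpace Module Pool.Agent.H71.AU Pool.Agent.H14.HP Pool.Agent.H14.HR

section A
variable {E : Type*} [NormedAddCommGroup E] [NormedSpace ℝ E] [CompleteSpace E]
  [FiniteDimensional ℝ E] {Γ : Type*} [Group Γ] {π : Γ →* (E →L[ℝ] E)} {τ : E →L[ℝ] ℝ} {x₀ : E}
  {A : Subgroup Γ} {n : ℕ}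

private theorem GamNe_inv_mul (g : Γ) (y : E) : π g⁻¹ (π g y) = y := by
  rw [← ContinuousLinearMap.mul_apply, ← map_mul, inv_mul_cancel, map_one]
  rfl

/-- The subgroup of the `g` with `π g - 1 ∈ JJ F`. -/
private def GamNe_G (π : Γ →* (E →L[ℝ] E)) (F : ℕ → Submodule ℝ E)
    (hF : ∀ i, Inv π (F i)) : Subgroup Γ where
  carrier := {g | π g - 1 ∈ JJ F}
  one_mem' := by
    show π 1 - 1 ∈ JJ F
    rw [map_one, sub_self]
    exact (JJ F).zero_mem
  mul_mem' := by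
    intro g h hg hh' i y hy
    have h1 : (π (g * h) - 1) y = (π g - 1) (π h y) + (π h - 1) y := by
      rw [map_mul]
      show π g (π h y) - y = (π g (π h y) - π h y) + (π h y - y)
      abel
    rw [h1]
    exact (F (i + 1)).add_mem (hg i _ (hF i h y hy)) (hh' i y hy)
  inv_mem' := by
    intro g hg i y hy
    have h1 : (π g⁻¹ - 1) y = -(π g⁻¹ ((π g - 1) y)) := by
      show π g⁻¹ y - y = -(π g⁻¹ (π g y - y))
      rw [map_sub, GamNe_inv_mul]
      abel
    rw [h1]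
    exact (F (i + 1)).neg_mem (hF (i + 1) g⁻¹ _ (hg i y hy))

private theorem GamNe_mem {F : ℕ → Submodule ℝ E} {hF : ∀ i, Inv π (F i)} {g : Γ} :
    g ∈ GamNe_G π F hF ↔ π g - 1 ∈ JJ F := Iff.rfl

private theorem GamNe_normal (F : ℕ → Submodule ℝ E) (hF : ∀ i, Inv π (F i)) :
    (GamNe_G π F hF).Normal := by
  refine ⟨fun g hg k => ?_⟩
  intro i y hy
  have h1 : (π (k * g * k⁻¹) - 1) y = π k ((π g - 1) (π k⁻¹ y)) := by
    rw [map_mul, map_mul]
    show π k (π g (π k⁻¹ y)) - y = π k (π g (π k⁻¹ y) - π k⁻¹ y)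
    have h2 : π k (π k⁻¹ y) = y := by
      rw [← ContinuousLinearMap.mul_apply, ← map_mul, mul_inv_cancel, map_one]
      rfl
    rw [map_sub, h2]
  rw [h1]
  exact hF (i + 1) k _ (hg i _ (hF i k⁻¹ y hy))

private theorem GamNe_pow_mem {F : ℕ → Submodule ℝ E} {X : E →L[ℝ] E} (hX : X ∈ JJ F) (k : ℕ) :
    ∀ i, ∀ y ∈ F i, (X ^ k) y ∈ F (i + k) := by
  induction k with
  | zero =>
    intro i y hy
    exact hy
  | succ k ih =>
    intro i y hy
    rw [pow_succ']
    exact hX (i + k) _ (ih i y hy)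

private theorem GamNe_anti {F : ℕ → Submodule ℝ E} (hF : ∀ i, F (i + 1) ≤ F i) (i k : ℕ) :
    F (i + k) ≤ F i := by
  induction k with
  | zero => exact le_rfl
  | succ k ih => exact (hF (i + k)).trans ih

private theorem GamNe_nil {F : ℕ → Submodule ℝ E} {s : ℕ} (hF : Flg π F s) {X : E →L[ℝ] E}
    (hX : X ∈ JJ F) : IsNilpotent X := by
  refine ⟨s, ?_⟩
  ext1 y
  have h1 := GamNe_pow_mem hX s 0 y (by rw [hF.top]; trivial)
  rw [zero_add, hF.bot, Submodule.mem_bot] at h1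
  rw [h1]
  rfl

private theorem GamNe_exp {F : ℕ → Submodule ℝ E} {s : ℕ} (hF : Flg π F s) {X : E →L[ℝ] E}
    (hX : X ∈ JJ F) : exp X - 1 ∈ JJ F := by
  obtain ⟨M, hM⟩ := GamNe_nil hF hX
  have hM' : X ^ (M + 1) = 0 := pow_eq_zero_of_le (Nat.le_succ M) hM
  rw [exp_eq_sum_of_pow hM', Finset.sum_range_succ']
  have h0 : ((Nat.factorial 0 : ℝ))⁻¹ • X ^ 0 = (1 : E →L[ℝ] E) := by
    rw [pow_zero, Nat.factorial_zero, Nat.cast_one, inv_one, one_smul]
  rw [h0, add_sub_cancel_right]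
  refine Submodule.sum_mem _ fun j _ => Submodule.smul_mem _ _ ?_
  intro i y hy
  have h1 := GamNe_pow_mem hX (j + 1) i y hy
  have h2 : i + (j + 1) = (i + 1) + j := by omega
  rw [h2] at h1
  exact GamNe_anti hF.anti (i + 1) j h1

private theorem GamNe_lg_pow {a : E →L[ℝ] E} (ha : IsNilpotent (a - 1)) (m : ℕ) :
    IsNilpotent (a ^ m - 1) ∧ lg (a ^ m) = (m : ℝ) • lg a := by
  induction m with
  | zero =>
    refine ⟨by rw [pow_zero, sub_self]; exact IsNilpotent.zero, ?_⟩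
    rw [pow_zero, Nat.cast_zero, zero_smul]
    exact lg_eq (by rw [sub_self]; exact IsNilpotent.zero) IsNilpotent.zero exp_zero
  | succ m ih =>
    obtain ⟨h1, h2⟩ := ih
    obtain ⟨h3, h4⟩ := lg_mul h1 ha ((Commute.refl a).pow_left m)
    rw [pow_succ]
    refine ⟨h3, ?_⟩
    rw [h4, h2, Nat.cast_succ, add_smul, one_smul]

theorem gam_ne (C : Cf π τ x₀ A n) {F : ℕ → Submodule ℝ E} {s : ℕ} (hF : Flg π F s)
    (hm : ∃ m : ℕ, 0 < m ∧ ∀ g : Γ, π g - 1 ∈ JJ F → g ^ m ∈ A)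
    (hV : ¬ VS Γ) : ∃ X ∈ hh π A, X ∉ JJ F := by
  by_contra hcon
  push Not at hcon
  obtain ⟨m, hm0, hm⟩ := hm
  apply hV
  set G : Subgroup Γ := GamNe_G π F hF.inv with hG
  haveI hGn : G.Normal := GamNe_normal F hF.inv
  have huni : ∀ g ∈ G, IsNilpotent (π g - 1) := fun g hg => GamNe_nil hF hg
  have hAG : A ≤ G := by
    intro a ha
    show π a - 1 ∈ JJ F
    have h1 : lg (π a) ∈ JJ F := hcon _ (Submodule.subset_span ⟨a, ha, rfl⟩)
    have h2 := GamNe_exp hF h1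
    rwa [exp_lg (C.uni a ha)] at h2
  have hcomm : ∀ a ∈ G, ∀ b ∈ G, a * b = b * a := by
    intro a ha b hb
    have ham : a ^ m ∈ A := hm a ha
    have hbm : b ^ m ∈ A := hm b hb
    have h1 : Commute (π (a ^ m)) (π (b ^ m)) := by
      show π (a ^ m) * π (b ^ m) = π (b ^ m) * π (a ^ m)
      rw [← map_mul, ← map_mul, C.comm _ ham _ hbm]
    have h2 : Commute (lg (π (a ^ m))) (lg (π (b ^ m))) := by
      have h3 := lg_commute (C.uni _ ham) h1
      exact (lg_commute (C.uni _ hbm) h3.symm).symm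
    rw [map_pow, map_pow, (GamNe_lg_pow (huni a ha) m).2, (GamNe_lg_pow (huni b hb) m).2] at h2
    have hm1 : (m : ℝ) ≠ 0 := by exact_mod_cast hm0.ne'
    have h4 : Commute (lg (π a)) (lg (π b)) := by
      have h5 := (h2.smul_left ((m : ℝ)⁻¹)).smul_right ((m : ℝ)⁻¹)
      rwa [inv_smul_smul₀ hm1, inv_smul_smul₀ hm1] at h5
    have h6 : Commute (π a) (π b) := by
      have h7 := commute_exp h4
      rw [exp_lg (huni a ha)] at h7
      have h8 := commute_exp h7.symm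
      rw [exp_lg (huni b hb)] at h8
      exact h8.symm
    apply C.inj
    rw [map_mul, map_mul]
    exact h6
  obtain ⟨f₀, hf₀⟩ := C.fr
  let f : (Fin n → ℤ) →+ Additive G :=
    (MonoidHom.toAdditive (Subgroup.inclusion hAG)).comp f₀
  have hf : Function.Injective f := by
    intro x y hxy
    apply hf₀.1
    exact Additive.toMul.injective (Subgroup.inclusion_injective hAG
      (Additive.ofMul.injective hxy))
  obtain ⟨e, Φ, hΦ, h⟩ := core π τ x₀ C.tx C.sys.tau C.sys.prop G hcomm huni n f hf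
    (by rw [C.dim]; omega)
  exact grp G hcomm e Φ hΦ h

end A

end Pool.Agent.H30.T4
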