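import Pool.Agent.H30.T4.GenLin
import Pool.Agent.H71.AU.Exp

/-! Row T4-13: products of conjugates of a transvection without nonzero fixed vectors. -/

set_option autoImplicit false

namespace Pool.Agent.H30.T4

open NormedSpace Module Pool.Agent.H71.AU

section

variable {V : Type*} [NormedAddCommGroup V] [NormedSpace ℝ V] [CompleteSpace V]
  [FiniteDimensional ℝ V] {Γ : Type*} [Group Γ] (ρ : Γ →* (V →L[ℝ] V)) (X₀ : V →L[ℝ] V)
  (f : V →L[ℝ] ℝ) (w : V)

/-- The functional of the conjugate of `X₀` by `g`. -/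
noncomputable def Fn (g : Γ) : Module.Dual ℝ V := (f : V →ₗ[ℝ] ℝ).comp (ρ g⁻¹ : V →ₗ[ℝ] V)

omit [CompleteSpace V] [FiniteDimensional ℝ V] in
theorem Fn_apply (g : Γ) (v : V) : Fn ρ f g v = f (ρ g⁻¹ v) := rfl

omit [CompleteSpace V] [FiniteDimensional ℝ V] in
theorem conj_apply (hX : ∀ v, X₀ v = f v • w) (g : Γ) (v : V) :
    ρ g (X₀ (ρ g⁻¹ v)) = Fn ρ f g v • ρ g w := by
  rw [hX, map_smul]
  rfl

omit [FiniteDimensional ℝ V] in
theorem fac_apply (hX : ∀ v, X₀ v = f v • w) (hfw : f w = 0) (g : Γ) (v : V) :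
    (ρ g * exp X₀ * ρ g⁻¹) v = v + Fn ρ f g v • ρ g w := by
  have h2 : X₀ ^ 2 = 0 := by
    ext y
    change X₀ (X₀ y) = 0
    rw [hX y, map_smul, hX w, hfw, zero_smul, smul_zero]
  have h3 : exp X₀ = 1 + X₀ := by
    rw [exp_eq_sum_of_pow h2]
    simp [Finset.sum_range_succ]
  have h4 : (ρ g * exp X₀ * ρ g⁻¹) v = ρ g (exp X₀ (ρ g⁻¹ v)) := rfl
  rw [h4, h3]
  have h5 : (1 + X₀) (ρ g⁻¹ v) = ρ g⁻¹ v + X₀ (ρ g⁻¹ v) := rfl
  rw [h5, map_add, Gen.rho_inv, conj_apply ρ X₀ f w hX]

open Classical in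
theorem list_fix (hX : ∀ v, X₀ v = f v • w) (hfw : f w = 0) (S : Finset Γ)
    (hS : Gen.rk (fun g => ρ g w) S = S.card) (L : List Γ) (hL : L.Nodup)
    (hLS : ∀ g ∈ L, g ∈ S) :
    (∀ v, pr ρ (L.map fun g => (g, X₀)) v - v ∈
      Submodule.span ℝ ((fun g => ρ g w) '' (L.toFinset : Set Γ))) ∧
    ∀ v, pr ρ (L.map fun g => (g, X₀)) v = v → ∀ g ∈ L, Fn ρ f g v = 0 := by
  induction L with
  | nil =>
    constructor
    · intro v
      have : pr ρ (([] : List Γ).map fun g => (g, X₀)) v = v := rfl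
      rw [this, sub_self]
      exact Submodule.zero_mem _
    · intro v _ g hg
      exact absurd hg List.not_mem_nil
  | cons g L ih =>
    rw [List.nodup_cons] at hL
    obtain ⟨ih1, ih2⟩ := ih hL.2 (fun h hh => hLS h (List.mem_cons_of_mem _ hh))
    have hcons : ∀ v, pr ρ ((g :: L).map fun g => (g, X₀)) v =
        pr ρ (L.map fun g => (g, X₀)) v +
          Fn ρ f g (pr ρ (L.map fun g => (g, X₀)) v) • ρ g w := by
      intro v
      have h1 : pr ρ ((g :: L).map fun g => (g, X₀)) v =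
          (ρ g * exp X₀ * ρ g⁻¹) (pr ρ (L.map fun g => (g, X₀)) v) := by
        unfold pr
        rw [List.map_cons, List.map_cons, List.prod_cons]
        rfl
      rw [h1, fac_apply ρ X₀ f w hX hfw]
    have hsub : Submodule.span ℝ ((fun g => ρ g w) '' (L.toFinset : Set Γ)) ≤
        Submodule.span ℝ ((fun g => ρ g w) '' ((g :: L).toFinset : Set Γ)) := by
      apply Submodule.span_mono
      apply Set.image_mono
      intro h hh
      rw [Finset.mem_coe, List.mem_toFinset] at hh ⊢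
      exact List.mem_cons_of_mem _ hh
    have hg : ρ g w ∈ Submodule.span ℝ ((fun g => ρ g w) '' ((g :: L).toFinset : Set Γ)) := by
      apply Submodule.subset_span
      refine ⟨g, ?_, rfl⟩
      rw [Finset.mem_coe, List.mem_toFinset]
      exact List.mem_cons_self
    constructor
    · intro v
      rw [hcons v, add_sub_right_comm]
      exact Submodule.add_mem _ (hsub (ih1 v)) (Submodule.smul_mem _ _ hg)
    · intro v hv
      have h1 := hcons v
      rw [hv] at h1
      have h2 := ih1 v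
      have hnot : ρ g w ∉ Submodule.span ℝ ((fun g => ρ g w) '' (L.toFinset : Set Γ)) := by
        apply Gen.notMem_of_rk (fun g => ρ g w) hS (X := L.toFinset) (e := g)
        · rw [List.mem_toFinset]
          exact hL.1
        · intro h hh
          rw [Finset.mem_insert, List.mem_toFinset] at hh
          rcases hh with rfl | hh
          · exact hLS _ List.mem_cons_self
          · exact hLS _ (List.mem_cons_of_mem _ hh)
      have h3 : Fn ρ f g (pr ρ (L.map fun g => (g, X₀)) v) = 0 := by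
        by_contra hne
        apply hnot
        have h4 : ρ g w = (Fn ρ f g (pr ρ (L.map fun g => (g, X₀)) v))⁻¹ •
            (-(pr ρ (L.map fun g => (g, X₀)) v - v)) := by
          rw [eq_inv_smul_iff₀ hne]
          rw [neg_sub, eq_sub_iff_add_eq, add_comm]
          exact h1.symm
        rw [h4]
        exact Submodule.smul_mem _ _ (Submodule.neg_mem _ h2)
      rw [h3, zero_smul, add_zero] at h1
      intro h hh
      rcases List.mem_cons.1 hh with rfl | hh
      · rw [← h1] at h3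
        exact h3
      · exact ih2 v h1.symm h hh

open Classical in
theorem cover (hirr : ∀ W : Submodule ℝ V, Inv ρ W → W = ⊥ ∨ W = ⊤)
    (hX : ∀ v, X₀ v = f v • w) (hf : f ≠ 0) (hw : w ≠ 0) :
    ∃ E : Finset Γ, ∀ A B, A ∪ B = E →
      finrank ℝ V ≤ Gen.rk (fun g => ρ g w) A + Gen.rk (Fn ρ f) B := by
  -- a finite set of conjugates spans all conjugates
  obtain ⟨x, hx⟩ : ∃ x : Γ → (V →ₗ[ℝ] V), ∀ g v, x g v = Fn ρ f g v • ρ g w :=
    ⟨fun g => (Fn ρ f g).smulRight (ρ g w), fun g v => rfl⟩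
  obtain ⟨s, hs, hspan⟩ := (Submodule.fg_span_iff_fg_span_finset_subset (R := ℝ)
    (Set.range x)).1 (IsNoetherian.noetherian _)
  choose! c hc using fun (T : V →ₗ[ℝ] V) (hT : T ∈ s) => hs hT
  have h0 : Gen.TT ρ X₀ ⊤ ≠ ⊥ := by
    obtain ⟨v, hv⟩ : ∃ v, f v ≠ 0 := by
      by_contra hcon
      push Not at hcon
      exact hf (ContinuousLinearMap.ext hcon)
    intro h
    have h1 : ρ 1 (X₀ (ρ 1⁻¹ v)) ∈ Gen.TT ρ X₀ ⊤ := Submodule.subset_span ⟨1, v, trivial, rfl⟩
    rw [h, Submodule.mem_bot, inv_one, map_one] at h1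
    have h2 : X₀ v = 0 := h1
    rw [hX, smul_eq_zero] at h2
    tauto
  refine ⟨s.image c, fun A B hAB => ?_⟩
  set Φ : Submodule ℝ (Module.Dual ℝ V) := Submodule.span ℝ (Fn ρ f '' (B : Set Γ)) with hΦ
  have h1 := Subspace.finrank_add_finrank_dualCoannihilator_eq Φ
  have h2 := Gen.dim_le ρ X₀ hirr h0 Φ.dualCoannihilator
  have hall : ∀ T ∈ Submodule.span ℝ (Set.range x), ∀ v ∈ Φ.dualCoannihilator,
      T v ∈ Submodule.span ℝ ((fun g => ρ g w) '' (A : Set Γ)) := by
    rw [hspan]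
    intro T hT v hv
    induction hT using Submodule.span_induction with
    | mem T hT =>
      have hcT := hc T hT
      rw [← hcT, hx]
      have hmem : c T ∈ A ∪ B := by
        rw [hAB]
        exact Finset.mem_image_of_mem c hT
      rcases Finset.mem_union.1 hmem with h | h
      · exact Submodule.smul_mem _ _ (Submodule.subset_span ⟨c T, h, rfl⟩)
      · have h3 : Fn ρ f (c T) v = 0 := by
          rw [Submodule.mem_dualCoannihilator] at hv
          exact hv _ (Submodule.subset_span ⟨c T, h, rfl⟩)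
        rw [h3, zero_smul]
        exact Submodule.zero_mem _
    | zero => exact Submodule.zero_mem _
    | add S T _ _ h3 h4 => exact Submodule.add_mem _ h3 h4
    | smul a T _ h3 => exact Submodule.smul_mem _ _ h3
  have h3 : Gen.TT ρ X₀ Φ.dualCoannihilator ≤
      Submodule.span ℝ ((fun g => ρ g w) '' (A : Set Γ)) := by
    apply Submodule.span_le.2
    rintro z ⟨g, v, hv, rfl⟩
    rw [conj_apply ρ X₀ f w hX, ← hx]
    exact hall _ (Submodule.subset_span ⟨g, rfl⟩) v hv
  have h4 := Submodule.finrank_mono h3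
  unfold Gen.rk
  rw [← hΦ]
  omega

/-- **T4-13.** -/
theorem gen_inj {V : Type*} [NormedAddCommGroup V] [NormedSpace ℝ V] [CompleteSpace V]
    [FiniteDimensional ℝ V] {Γ : Type*} [Group Γ] (ρ : Γ →* (V →L[ℝ] V))
    (hirr : ∀ W : Submodule ℝ V, Inv ρ W → W = ⊥ ∨ W = ⊤) (H : Submodule ℝ (V →L[ℝ] V))
    (hnil : ∀ X ∈ H, IsNilpotent X) (X₀ : V →L[ℝ] V) (hX₀ : X₀ ∈ H) (f : V →L[ℝ] ℝ) (w : V)
    (hX : ∀ v, X₀ v = f v • w) (hf : f ≠ 0) (hw : w ≠ 0) (hfw : f w = 0) :
    ∃ l : List (Γ × (V →L[ℝ] V)), (∀ q ∈ l, q.2 ∈ H) ∧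
      ∀ v, pr ρ l v = v → v = 0 := by
  classical
  obtain ⟨E, hE⟩ := cover ρ X₀ f w hirr hX hf hw
  obtain ⟨S, -, hcard, hS1, hS2⟩ := Gen.mi (Gen.rk fun g => ρ g w) (Gen.rk (Fn ρ f))
    (Gen.rk_mono _) (Gen.rk_mono _) (Gen.rk_sub _) (Gen.rk_sub _) (Gen.rk_one _) (Gen.rk_one _)
    E ∅ (finrank ℝ V) (Finset.disjoint_empty_right E) (Gen.rk_empty _) (Gen.rk_empty _)
    (fun A B hAB => by
      rw [Finset.union_empty, Finset.union_empty, Finset.card_empty, mul_zero, add_zero]
      exact hE A B hAB)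
  rw [Finset.union_empty, Finset.card_empty, add_zero] at hS1 hS2
  have hlist := list_fix ρ X₀ f w hX hfw S (by rw [hS1, hcard]) S.toList S.nodup_toList
    (fun g hg => Finset.mem_toList.1 hg)
  refine ⟨S.toList.map fun g => (g, X₀), ?_, fun v hv => ?_⟩
  · intro q hq
    obtain ⟨g, -, rfl⟩ := List.mem_map.1 hq
    exact hX₀
  · have h1 := hlist.2 v hv
    have h2 : Submodule.span ℝ (Fn ρ f '' (S : Set Γ)) = ⊤ := by
      apply Submodule.eq_top_of_finrank_eq
      rw [Subspace.dual_finrank_eq]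
      exact hS2
    have h3 : ∀ φ : Module.Dual ℝ V, φ v = 0 := by
      intro φ
      have h4 : φ ∈ Submodule.span ℝ (Fn ρ f '' (S : Set Γ)) := by
        rw [h2]
        trivial
      induction h4 using Submodule.span_induction with
      | mem φ hφ =>
        obtain ⟨g, hg, rfl⟩ := hφ
        exact h1 g (Finset.mem_toList.2 hg)
      | zero => rfl
      | add a b _ _ ha hb => rw [LinearMap.add_apply, ha, hb, add_zero]
      | smul a b _ hb => rw [LinearMap.smul_apply, hb, smul_zero]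
    exact (Module.forall_dual_apply_eq_zero_iff ℝ v).1 h3

end

end Pool.Agent.H30.T4
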