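import Mathlib
import Pool.Agent.H30.T4.Defs
import Pool.Agent.H30.T4.Basic
import Pool.Agent.H30.T4.Flag

/-! T4-12a: the socle. -/

set_option autoImplicit false

namespace Pool.Agent.H30.T4

open NormedSpace Module Pool.Agent.H71.AU Pool.Agent.H14.HP Pool.Agent.H14.HR

variable {E : Type*} [NormedAddCommGroup E] [NormedSpace ℝ E] [CompleteSpace E]
  [FiniteDimensional ℝ E] {Γ : Type*} [Group Γ] {π : Γ →* (E →L[ℝ] E)} {τ : E →L[ℝ] ℝ} {x₀ : E}
  {A : Subgroup Γ} {n : ℕ}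

/-- In an invariant subspace not contained in `S` there is a vector outside `S` which is sent
into `S` by the maximal ideal. -/
theorem minl63 (C : Cf π τ x₀ A n) (S U₀ : Submodule ℝ E)
    (hinv : ∀ u ∈ AA π A, ∀ y ∈ U₀, u y ∈ U₀) (hne : ¬ U₀ ≤ S) :
    ∃ u ∈ U₀, u ∉ S ∧ ∀ m ∈ AA π A, τ (m x₀) = 0 → m u ∈ S := by
  classical
  have hex : ∃ k : ℕ, ∃ U : Submodule ℝ E, finrank ℝ U = k ∧ (∀ u ∈ AA π A, ∀ y ∈ U, u y ∈ U) ∧
      U ≤ U₀ ∧ ¬ U ≤ S := ⟨_, U₀, rfl, hinv, le_rfl, hne⟩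
  obtain ⟨U, hUk, hUinv, hUt, hUn⟩ := Nat.find_spec hex
  have hmin : ∀ W : Submodule ℝ E, (∀ u ∈ AA π A, ∀ y ∈ W, u y ∈ W) → W ≤ U₀ →
      ¬ W ≤ S → finrank ℝ U ≤ finrank ℝ W := by
    intro W h1 h2 h3
    rw [hUk]
    exact Nat.find_min' hex ⟨W, rfl, h1, h2, h3⟩
  have hm : ∀ m ∈ AA π A, τ (m x₀) = 0 → ∀ y ∈ U, m y ∈ S := by
    intro m hmA hmt
    by_contra hcon
    push Not at hcon
    obtain ⟨y0, hy0, hy0'⟩ := hcon
    have hWle : U.map (m : E →ₗ[ℝ] E) ≤ U := by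
      rintro _ ⟨y, hy, rfl⟩
      exact hUinv m hmA y hy
    have h1 : finrank ℝ U ≤ finrank ℝ (U.map (m : E →ₗ[ℝ] E)) := by
      refine hmin _ ?_ (hWle.trans hUt) ?_
      · rintro u hu _ ⟨y, hy, rfl⟩
        refine ⟨u y, hUinv u hu y hy, ?_⟩
        have := congrArg (fun T : E →L[ℝ] E => T y) (C.acomm hmA hu).eq
        exact this
      · intro hle
        exact hy0' (hle ⟨y0, hy0, rfl⟩)
    have h2 : U.map (m : E →ₗ[ℝ] E) = U := Submodule.eq_of_le_of_finrank_le hWle h1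
    obtain ⟨j, hj⟩ := C.anil hmA hmt
    have h3 : ∀ i : ℕ, ∀ y ∈ U, ∃ z ∈ U, (m ^ i) z = y := by
      intro i
      induction i with
      | zero => intro y hy; exact ⟨y, hy, by simp⟩
      | succ i ih =>
        intro y hy
        obtain ⟨z, hz, hzy⟩ := ih y hy
        rw [← h2] at hz
        obtain ⟨z', hz', hz'z⟩ := hz
        refine ⟨z', hz', ?_⟩
        rw [pow_succ]
        change (m ^ i) (m z') = y
        have : m z' = z := hz'z
        rw [this, hzy]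
    apply hUn
    intro y hy
    obtain ⟨z, -, hz⟩ := h3 j y hy
    rw [hj] at hz
    have : y = 0 := hz.symm
    rw [this]
    exact Submodule.zero_mem _
  obtain ⟨u, huU, hun⟩ := Set.not_subset.mp hUn
  exact ⟨u, hUt huU, hun, fun m hmA hmt => hm m hmA hmt u huU⟩

/-- Evaluation at a vector. -/
def evl63 (z : E) : (E →L[ℝ] E) →ₗ[ℝ] E where
  toFun u := u z
  map_add' _ _ := rfl
  map_smul' _ _ := rfl


/-- An element of the algebra that kills a nonzero vector is in the maximal ideal. -/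
theorem tau_zero_of_kill (C : Cf π τ x₀ A n) {m : E →L[ℝ] E} (hm : m ∈ AA π A) {z : E}
    (hz : z ≠ 0) (hmz : m z = 0) : τ (m x₀) = 0 := by
  by_contra hne
  have h1 : m - (τ (m x₀)) • (1 : E →L[ℝ] E) ∈ AA π A :=
    (AA π A).sub_mem hm ((AA π A).smul_mem (AA π A).one_mem _)
  have h2 : τ ((m - (τ (m x₀)) • (1 : E →L[ℝ] E)) x₀) = 0 := by
    change τ (m x₀ - (τ (m x₀)) • x₀) = 0
    rw [map_sub, map_smul, C.tx, smul_eq_mul, mul_one, sub_self]
  obtain ⟨j, hj⟩ := C.anil h1 h2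
  have h3 : ∀ i : ℕ, ((m - (τ (m x₀)) • (1 : E →L[ℝ] E)) ^ i) z =
      (-(τ (m x₀))) ^ i • z := by
    intro i
    induction i with
    | zero => simp
    | succ i ih =>
      rw [pow_succ']
      change (m - (τ (m x₀)) • (1 : E →L[ℝ] E))
        (((m - (τ (m x₀)) • (1 : E →L[ℝ] E)) ^ i) z) = _
      rw [ih, map_smul]
      change (-(τ (m x₀))) ^ i • (m z - (τ (m x₀)) • z) = _
      rw [hmz, zero_sub, ← neg_smul, smul_smul, pow_succ]
  have h4 := h3 j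
  rw [hj] at h4
  have h5 : (-(τ (m x₀))) ^ j • z = 0 := h4.symm
  rcases smul_eq_zero.mp h5 with h6 | h6
  · exact hne (neg_eq_zero.mp (eq_zero_of_pow_eq_zero h6))
  · exact hz h6

/-- A map of `hh` that kills `τ = 0` is zero if no map of `hh` shifts the series. -/
theorem hh_kill (C : Cf π τ x₀ A n) {F : ℕ → Submodule ℝ E} {s : ℕ} (hF : Flg π F s)
    (h0 : hu π A F = ⊥) {X : E →L[ℝ] E} (hX : X ∈ hh π A) (hk : ∀ y, τ y = 0 → X y = 0) :
    X = 0 := by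
  have hXJ : X ∈ JJ F := by
    refine rad_mem hF _ (fun i => C.hinv hX (fun a _ => hF.inv i a)) ⟨2, ?_⟩
    intro l hl
    have h1 : (l.map (fun g => π g * X)).prod = 0 := by
      match l, hl with
      | g1 :: g2 :: l', _ =>
        ext y
        simp only [List.map_cons, List.prod_cons]
        change (π g1) (X ((π g2) (X ((l'.map (fun g => π g * X)).prod y)))) = 0
        rw [hk _ (by rw [C.sys.tau]; exact C.htau hX _), map_zero]
    rw [h1]
    exact Submodule.zero_mem _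
  have : X ∈ hu π A F := ⟨hX, hXJ⟩
  rw [h0] at this
  exact (Submodule.mem_bot ℝ).mp this

theorem finrank_ker_tau (C : Cf π τ x₀ A n) :
    finrank ℝ (LinearMap.ker (τ : E →ₗ[ℝ] ℝ)) = n + 1 := by
  have h3 := LinearMap.finrank_range_add_finrank_ker (τ : E →ₗ[ℝ] ℝ)
  have h4 : LinearMap.range (τ : E →ₗ[ℝ] ℝ) = ⊤ := by
    rw [LinearMap.range_eq_top]
    intro c
    refine ⟨c • x₀, ?_⟩
    change τ (c • x₀) = c
    rw [map_smul, C.tx, smul_eq_mul, mul_one]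
  rw [h4, finrank_top, finrank_self, C.dim] at h3
  omega

theorem soc (C : Cf π τ x₀ A n) {F : ℕ → Submodule ℝ E} {s : ℕ} (hF : Flg π F s)
    (hn : 0 < n) (h0 : hu π A F = ⊥) :
    ∃ W₀ ∈ AA π A, W₀ ≠ 0 ∧ (∀ y, τ y = 0 → W₀ y = 0) ∧ τ (W₀ x₀) = 0 ∧
      (∀ m ∈ AA π A, τ (m x₀) = 0 → ∃ c : ℝ, m - c • W₀ ∈ hh π A) ∧
      (∀ m ∈ AA π A, (∀ y, τ y = 0 → m y = 0) → ∃ c : ℝ, m = c • W₀) := by
  have hK := finrank_ker_tau C
  have hKn : ¬ LinearMap.ker (τ : E →ₗ[ℝ] ℝ) ≤ ⊥ := by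
    intro hle
    have h1 := Submodule.finrank_mono hle
    rw [hK, finrank_bot] at h1
    omega
  obtain ⟨w, hwK, hwn, hwm⟩ := minl63 C ⊥ (LinearMap.ker (τ : E →ₗ[ℝ] ℝ))
    (by
      intro u hu y hy
      have hy' : τ y = 0 := hy
      change τ (u y) = 0
      rw [C.atau hu y, hy', mul_zero]) hKn
  have hw0 : w ≠ 0 := fun h => hwn (by rw [h]; exact Submodule.zero_mem _)
  have hwt : τ w = 0 := hwK
  obtain ⟨W₀, hWA, hWx⟩ := C.asurj w
  have hW0 : W₀ ≠ 0 := by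
    intro h
    apply hw0
    rw [← hWx, h]
    rfl
  have hWk : ∀ y, τ y = 0 → W₀ y = 0 := by
    intro y hy
    obtain ⟨m, hmA, hm⟩ := C.asurj y
    have h2 : W₀ y = m w := by
      have := congrArg (fun T : E →L[ℝ] E => T x₀) (C.acomm hWA hmA).eq
      change W₀ (m x₀) = m (W₀ x₀) at this
      rw [hm, hWx] at this
      exact this
    rw [h2]
    exact (Submodule.mem_bot ℝ).mp (hwm m hmA (by rw [hm]; exact hy))
  have hWh : W₀ ∉ hh π A := fun h => hW0 (hh_kill C hF h0 h hWk)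
  -- the maximal ideal
  set Z : Submodule ℝ (E →L[ℝ] E) := Subalgebra.toSubmodule (AA π A) ⊓
    LinearMap.ker ((τ : E →ₗ[ℝ] ℝ).comp (evl63 x₀)) with hZ
  have hZm : ∀ m, m ∈ Z ↔ m ∈ AA π A ∧ τ (m x₀) = 0 := by
    intro m
    rw [hZ]
    exact Iff.rfl
  have hZf : finrank ℝ Z ≤ n + 1 := by
    rw [← hK]
    have hmap : ∀ m ∈ Z, evl63 x₀ m ∈ LinearMap.ker (τ : E →ₗ[ℝ] ℝ) := fun m hm =>
      ((hZm m).mp hm).2
    refine LinearMap.finrank_le_finrank_of_injective (f := (evl63 x₀).restrict hmap) ?_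
    rw [← LinearMap.ker_eq_bot, LinearMap.ker_eq_bot']
    rintro ⟨m, hm⟩ h
    have h1 : m x₀ = 0 := congrArg Subtype.val h
    exact Subtype.ext (C.ainj ((hZm m).mp hm).1 C.tx h1)
  have hle : hh π A ⊔ Submodule.span ℝ {W₀} ≤ Z := by
    refine sup_le ?_ ?_
    · intro X hX
      exact (hZm X).mpr ⟨Algebra.subset_adjoin hX, C.htau hX _⟩
    · rw [Submodule.span_singleton_le_iff_mem]
      exact (hZm W₀).mpr ⟨hWA, by rw [hWx]; exact hwt⟩
  have hinf : hh π A ⊓ Submodule.span ℝ {W₀} = ⊥ := by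
    rw [eq_bot_iff]
    rintro X ⟨hX1, hX2⟩
    obtain ⟨c, hc⟩ := Submodule.mem_span_singleton.mp hX2
    rw [Submodule.mem_bot, ← hc]
    by_cases hc0 : c = 0
    · rw [hc0, zero_smul]
    · exfalso
      apply hWh
      have h1 : W₀ = c⁻¹ • X := by
        rw [← hc, smul_smul, inv_mul_cancel₀ hc0, one_smul]
      rw [h1]
      exact (hh π A).smul_mem _ hX1
  have hfin := Submodule.finrank_sup_add_finrank_inf_eq (hh π A) (Submodule.span ℝ {W₀})
  rw [hinf, finrank_bot, finrank_span_singleton hW0, C.hdim] at hfin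
  have heq : hh π A ⊔ Submodule.span ℝ {W₀} = Z :=
    Submodule.eq_of_le_of_finrank_le hle (by omega)
  have hdec : ∀ m ∈ AA π A, τ (m x₀) = 0 → ∃ X ∈ hh π A, ∃ c : ℝ, m = X + c • W₀ := by
    intro m hmA hmt
    have h1 : m ∈ hh π A ⊔ Submodule.span ℝ {W₀} := by
      rw [heq]
      exact (hZm m).mpr ⟨hmA, hmt⟩
    obtain ⟨X, hX, Y, hY, hXY⟩ := Submodule.mem_sup.mp h1
    obtain ⟨c, hc⟩ := Submodule.mem_span_singleton.mp hY
    exact ⟨X, hX, c, by rw [hc, hXY]⟩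
  refine ⟨W₀, hWA, hW0, hWk, by rw [hWx]; exact hwt, ?_, ?_⟩
  · intro m hmA hmt
    obtain ⟨X, hX, c, hc⟩ := hdec m hmA hmt
    refine ⟨c, ?_⟩
    rw [hc, add_sub_cancel_right]
    exact hX
  · intro m hmA hmk
    obtain ⟨X, hX, c, hc⟩ := hdec m hmA (tau_zero_of_kill C hmA hw0 (hmk w hwt))
    refine ⟨c, ?_⟩
    have hX0 : X = 0 := by
      refine hh_kill C hF h0 hX ?_
      intro y hy
      have h1 : X = m - c • W₀ := by rw [hc, add_sub_cancel_right]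
      rw [h1]
      change m y - c • W₀ y = 0
      rw [hmk y hy, hWk y hy, smul_zero, sub_zero]
    rw [hc, hX0, zero_add]

end Pool.Agent.H30.T4
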