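import Mathlib
import Pool.Agent.H30.T4.Defs
import Pool.Agent.H30.T4.Basic
import Pool.Agent.H30.T4.Soc

/-! T4-12b: an element of `hh` of rank one on `τ = 0`. -/

set_option autoImplicit false

namespace Pool.Agent.H30.T4

open NormedSpace Module Pool.Agent.H71.AU Pool.Agent.H14.HP Pool.Agent.H14.HR

variable {E : Type*} [NormedAddCommGroup E] [NormedSpace ℝ E] [CompleteSpace E]
  [FiniteDimensional ℝ E] {Γ : Type*} [Group Γ] {π : Γ →* (E →L[ℝ] E)} {τ : E →L[ℝ] ℝ} {x₀ : E}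
  {A : Subgroup Γ} {n : ℕ}

/-- The kernel of `τ` is not contained in a line. -/
theorem ker_not_line (C : Cf π τ x₀ A n) (hn : 0 < n) (w : E) :
    ¬ ∀ y, τ y = 0 → y ∈ Submodule.span ℝ {w} := by
  classical
  intro h
  have htop : (⊤ : Submodule ℝ E) ≤ Submodule.span ℝ (({x₀, w} : Finset E) : Set E) := by
    intro y _
    have h1 : τ (y - τ y • x₀) = 0 := by
      rw [map_sub, map_smul, C.tx, smul_eq_mul, mul_one, sub_self]
    have h2 := h _ h1
    have h3 : y = τ y • x₀ + (y - τ y • x₀) := by abel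
    rw [h3]
    refine Submodule.add_mem _ (Submodule.smul_mem _ _ (Submodule.subset_span ?_))
      (Submodule.span_mono ?_ h2)
    · simp
    · simp
  have h4 : finrank ℝ (⊤ : Submodule ℝ E) ≤
      finrank ℝ (Submodule.span ℝ (({x₀, w} : Finset E) : Set E)) :=
    Submodule.finrank_mono htop
  have h5 := finrank_span_finset_le_card (R := ℝ) ({x₀, w} : Finset E)
  have h6 : ({x₀, w} : Finset E).card ≤ 2 := Finset.card_le_two
  rw [finrank_top, C.dim] at h4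
  change finrank ℝ (Submodule.span ℝ (({x₀, w} : Finset E) : Set E)) ≤ _ at h5
  omega

/-- A vector outside the line which is sent into the line by the maximal ideal. -/
theorem second_socle (C : Cf π τ x₀ A n) (hn : 0 < n) (w : E) :
    ∃ u : E, τ u = 0 ∧ u ∉ Submodule.span ℝ {w} ∧
      ∀ m ∈ AA π A, τ (m x₀) = 0 → m u ∈ Submodule.span ℝ {w} := by
  classical
  have hex : ∃ k : ℕ, ∃ U : Submodule ℝ E, finrank ℝ U = k ∧ (∀ u ∈ AA π A, ∀ y ∈ U, u y ∈ U) ∧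
      (∀ y ∈ U, τ y = 0) ∧ ¬ U ≤ Submodule.span ℝ {w} := by
    refine ⟨_, LinearMap.ker (τ : E →ₗ[ℝ] ℝ), rfl, ?_, ?_, ?_⟩
    · intro u hu y hy
      have hy' : τ y = 0 := hy
      change τ (u y) = 0
      rw [C.atau hu y, hy', mul_zero]
    · intro y hy
      exact hy
    · intro hle
      exact ker_not_line C hn w (fun y hy => hle hy)
  obtain ⟨U, hUk, hUinv, hUt, hUn⟩ := Nat.find_spec hex
  have hmin : ∀ W : Submodule ℝ E, (∀ u ∈ AA π A, ∀ y ∈ W, u y ∈ W) → (∀ y ∈ W, τ y = 0) →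
      ¬ W ≤ Submodule.span ℝ {w} → finrank ℝ U ≤ finrank ℝ W := by
    intro W h1 h2 h3
    rw [hUk]
    exact Nat.find_min' hex ⟨W, rfl, h1, h2, h3⟩
  have hm : ∀ m ∈ AA π A, τ (m x₀) = 0 → ∀ y ∈ U, m y ∈ Submodule.span ℝ {w} := by
    intro m hmA hmt
    by_contra hcon
    push Not at hcon
    obtain ⟨y0, hy0, hy0'⟩ := hcon
    have hWle : U.map (m : E →ₗ[ℝ] E) ≤ U := by
      rintro _ ⟨y, hy, rfl⟩
      exact hUinv m hmA y hy
    have h1 : finrank ℝ U ≤ finrank ℝ (U.map (m : E →ₗ[ℝ] E)) := by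
      refine hmin _ ?_ ?_ ?_
      · rintro u hu _ ⟨y, hy, rfl⟩
        refine ⟨u y, hUinv u hu y hy, ?_⟩
        have := congrArg (fun T : E →L[ℝ] E => T y) (C.acomm hmA hu).eq
        exact this
      · intro y hy
        exact hUt y (hWle hy)
      · intro hle
        exact hy0' (hle ⟨y0, hy0, rfl⟩)
    have h2 : U.map (m : E →ₗ[ℝ] E) = U := Submodule.eq_of_le_of_finrank_le hWle h1
    obtain ⟨j, hj⟩ := C.anil hmA hmt
    have h3 : ∀ i : ℕ, ∀ y ∈ U, ∃ z ∈ U, (m ^ i) z = y := by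
      intro i
      induction i with
      | zero => intro y hy; exact ⟨y, hy, by simp⟩
      | succ i ih =>
        intro y hy
        obtain ⟨z, hz, hzy⟩ := ih y hy
        rw [← h2] at hz
        obtain ⟨z', hz', hz'z⟩ := hz
        refine ⟨z', hz', ?_⟩
        rw [pow_succ]
        change (m ^ i) (m z') = y
        have : m z' = z := hz'z
        rw [this, hzy]
    apply hUn
    intro y hy
    obtain ⟨z, -, hz⟩ := h3 j y hy
    rw [hj] at hz
    have : y = 0 := hz.symm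
    rw [this]
    exact Submodule.zero_mem _
  obtain ⟨u, huU, hun⟩ := Set.not_subset.mp hUn
  exact ⟨u, hUt u huU, hun, fun m hmA hmt => hm m hmA hmt u huU⟩

theorem rankone (C : Cf π τ x₀ A n) {F : ℕ → Submodule ℝ E} {s : ℕ} (hF : Flg π F s)
    (hn : 0 < n) (h0 : hu π A F = ⊥) :
    ∃ X ∈ hh π A, ∃ w : E, w ≠ 0 ∧ τ w = 0 ∧ ∃ f : E →L[ℝ] ℝ, (∀ v, τ v = 0 → X v = f v • w) ∧
      f w = 0 ∧ ∃ v, τ v = 0 ∧ f v ≠ 0 := by
  obtain ⟨W₀, hWA, hW0, hWk, hWt, hWh, hWs⟩ := soc C hF hn h0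
  have hw0 : W₀ x₀ ≠ 0 := fun h => hW0 (C.ainj hWA C.tx h)
  obtain ⟨u, hut, hun, hum⟩ := second_socle C hn (W₀ x₀)
  obtain ⟨m1, hm1A, hm1⟩ := C.asurj u
  have hm1t : τ (m1 x₀) = 0 := by rw [hm1]; exact hut
  obtain ⟨c, hc⟩ := hWh m1 hm1A hm1t
  have hcA : m1 - c • W₀ ∈ AA π A := Algebra.subset_adjoin hc
  have hXv : ∀ v, τ v = 0 → (m1 - c • W₀) v = m1 v := by
    intro v hv
    change m1 v - c • W₀ v = m1 v
    rw [hWk v hv, smul_zero, sub_zero]
  have hline : ∀ v, τ v = 0 → (m1 - c • W₀) v ∈ Submodule.span ℝ {W₀ x₀} := by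
    intro v hv
    rw [hXv v hv]
    obtain ⟨m, hmA, hmv⟩ := C.asurj v
    have h1 : m1 v = m u := by
      have := congrArg (fun T : E →L[ℝ] E => T x₀) (C.acomm hm1A hmA).eq
      change m1 (m x₀) = m (m1 x₀) at this
      rw [hmv, hm1] at this
      exact this
    rw [h1]
    exact hum m hmA (by rw [hmv]; exact hv)
  obtain ⟨g, hg⟩ := exists_dual_vector ℝ (W₀ x₀) (norm_ne_zero_iff.mpr hw0)
  set ψ : E →L[ℝ] ℝ := (‖W₀ x₀‖⁻¹ : ℝ) • g with hψ
  have hψw : ψ (W₀ x₀) = 1 := by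
    have h2 : g (W₀ x₀) = ‖W₀ x₀‖ := by
      have := hg.2
      simpa using this
    change (‖W₀ x₀‖⁻¹ : ℝ) • g (W₀ x₀) = 1
    rw [h2, smul_eq_mul, inv_mul_cancel₀ (norm_ne_zero_iff.mpr hw0)]
  refine ⟨m1 - c • W₀, hc, W₀ x₀, hw0, hWt, ψ.comp (m1 - c • W₀), ?_, ?_, ?_⟩
  · intro v hv
    obtain ⟨b, hb⟩ := Submodule.mem_span_singleton.mp (hline v hv)
    change (m1 - c • W₀) v = ψ ((m1 - c • W₀) v) • W₀ x₀
    rw [← hb, map_smul, hψw, smul_eq_mul, mul_one]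
  · change ψ ((m1 - c • W₀) (W₀ x₀)) = 0
    rw [hXv _ hWt]
    have h1 : m1 (W₀ x₀) = W₀ u := by
      have := congrArg (fun T : E →L[ℝ] E => T x₀) (C.acomm hm1A hWA).eq
      change m1 (W₀ x₀) = W₀ (m1 x₀) at this
      rw [hm1] at this
      exact this
    rw [h1, hWk u hut, map_zero]
  · by_contra hcon
    push Not at hcon
    have h1 : ∀ y, τ y = 0 → (m1 - c • W₀) y = 0 := by
      intro y hy
      obtain ⟨b, hb⟩ := Submodule.mem_span_singleton.mp (hline y hy)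
      have h2 : ψ ((m1 - c • W₀) y) = 0 := hcon y hy
      rw [← hb, map_smul, hψw, smul_eq_mul, mul_one] at h2
      rw [← hb, h2, zero_smul]
    obtain ⟨c', hc'⟩ := hWs _ hcA h1
    apply hun
    have h3 : m1 = (c + c') • W₀ := by
      rw [add_smul, ← hc']
      abel
    rw [← hm1, h3]
    exact Submodule.mem_span_singleton.mpr ⟨c + c', rfl⟩

end Pool.Agent.H30.T4
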