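import Mathlib
import Pool.Agent.H30.T4.Defs
import Pool.Agent.H30.T4.Flag
import Pool.Agent.H30.T4.Basic
import Pool.Agent.H30.T4.Soc

/-! Project T4 (MP_68c2bd), step (6a): the kernel of `τ` is irreducible. -/

set_option autoImplicit false

namespace Pool.Agent.H30.T4

open NormedSpace Module Pool.Agent.H71.AU Pool.Agent.H14.HP Pool.Agent.H14.HR

variable {E : Type*} [NormedAddCommGroup E] [NormedSpace ℝ E] [CompleteSpace E]
  [FiniteDimensional ℝ E] {Γ : Type*} [Group Γ] {π : Γ →* (E →L[ℝ] E)} {τ : E →L[ℝ] ℝ} {x₀ : E}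
  {A : Subgroup Γ} {n : ℕ}

/-- Between two stable subspaces there is a vector killed by the maximal ideal modulo the
smaller one. -/
lemma sock (C : Cf π τ x₀ A n) {Z1 Z2 : Submodule ℝ E}
    (h1 : ∀ u ∈ AA π A, ∀ y ∈ Z1, u y ∈ Z1) (h2 : ∀ u ∈ AA π A, ∀ y ∈ Z2, u y ∈ Z2)
    (hlt : Z1 < Z2) : ∃ z ∈ Z2, z ∉ Z1 ∧ ∀ m ∈ AA π A, τ (m x₀) = 0 → m z ∈ Z1 := by
  let S : Set (Submodule ℝ E) := {Z | Z1 < Z ∧ Z ≤ Z2 ∧ ∀ u ∈ AA π A, ∀ y ∈ Z, u y ∈ Z}
  obtain ⟨Z, ⟨hZ1, hZ2, hZ3⟩, hmin⟩ :=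
    (wellFounded_lt (α := Submodule ℝ E)).has_min S ⟨Z2, hlt, le_rfl, h2⟩
  obtain ⟨z, hz, hz1⟩ := SetLike.exists_of_lt hZ1
  refine ⟨z, hZ2 hz, hz1, fun m hm hm0 => ?_⟩
  by_contra hmz
  let Z' : Submodule ℝ E := Z.map (m : E →ₗ[ℝ] E) ⊔ Z1
  have hle : Z' ≤ Z := by
    refine sup_le ?_ hZ1.le
    rintro _ ⟨y, hy, rfl⟩
    exact hZ3 m hm y hy
  have hlt' : Z1 < Z' := by
    refine lt_of_le_of_ne le_sup_right fun h => hmz ?_
    have h3 : m z ∈ Z' := Submodule.mem_sup_left ⟨z, hz, rfl⟩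
    rwa [← h] at h3
  have hst : ∀ u ∈ AA π A, ∀ y ∈ Z', u y ∈ Z' := by
    intro u hu y hy
    obtain ⟨a, ⟨b, hb, rfl⟩, c, hc, rfl⟩ := Submodule.mem_sup.1 hy
    rw [map_add]
    refine Submodule.add_mem_sup ⟨u b, hZ3 u hu b hb, ?_⟩ (h1 u hu c hc)
    exact (congrArg (fun f : E →L[ℝ] E => f b) (C.acomm hu hm)).symm
  have heq : Z' = Z := by
    by_contra hne
    exact hmin Z' ⟨hlt', hle.trans hZ2, hst⟩ (lt_of_le_of_ne hle hne)
  have hpow : ∀ k : ℕ, ∀ y ∈ Z, ∃ y' ∈ Z, ∃ z1 ∈ Z1, y = (m ^ k) y' + z1 := by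
    intro k
    induction k with
    | zero => intro y hy; exact ⟨y, hy, 0, Z1.zero_mem, by simp⟩
    | succ k ih =>
      intro y hy
      rw [← heq] at hy
      obtain ⟨a, ⟨b, hb, rfl⟩, c, hc, rfl⟩ := Submodule.mem_sup.1 hy
      obtain ⟨y', hy', z1, hz1', hyz⟩ := ih b hb
      refine ⟨y', hy', m z1 + c, Z1.add_mem (h1 m hm z1 hz1') hc, ?_⟩
      have : (m : E →ₗ[ℝ] E) b = m b := rfl
      rw [this, hyz, map_add, pow_succ', ContinuousLinearMap.mul_apply, add_assoc]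
  obtain ⟨k, hk⟩ := C.anil hm hm0
  obtain ⟨y', _, z1, hz1', hyz⟩ := hpow k z hz
  rw [hk, ContinuousLinearMap.zero_apply, zero_add] at hyz
  exact hz1 (hyz ▸ hz1')

theorem goren_irr (C : Cf π τ x₀ A n) {F : ℕ → Submodule ℝ E} {s : ℕ} (hF : Flg π F s)
    (hn : 0 < n) (h0 : hu π A F = ⊥) :
    ∀ W : Submodule ℝ E, Inv π W → (∀ y ∈ W, τ y = 0) → W = ⊥ ∨ ∀ y, τ y = 0 → y ∈ W := by
  intro W hW hWτ
  by_contra hcon
  push Not at hcon
  obtain ⟨hWbot, v₀, hv₀, hv₀W⟩ := hcon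
  obtain ⟨W₀, hW₀, hW₀ne, hW₀V, hW₀x, hsoc1, hsoc2⟩ := soc C hF hn h0
  have hWA : ∀ u ∈ AA π A, ∀ y ∈ W, u y ∈ W := fun u hu => C.ainv hu fun a _ y hy => hW a y hy
  have hWA' : ∀ u ∈ AA π A, ∀ y ∈ (LinearMap.ker (τ : E →ₗ[ℝ] ℝ)), u y ∈
      (LinearMap.ker (τ : E →ₗ[ℝ] ℝ)) := by
    intro u hu y hy
    have hy' : τ y = 0 := hy
    show τ (u y) = 0
    rw [C.atau hu, hy', mul_zero]
  have hbotA : ∀ u ∈ AA π A, ∀ y ∈ (⊥ : Submodule ℝ E), u y ∈ (⊥ : Submodule ℝ E) := by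
    intro u _ y hy
    rw [Submodule.mem_bot] at hy ⊢
    rw [hy, map_zero]
  have hcm : ∀ u ∈ AA π A, ∀ w ∈ AA π A, ∀ y, u (w y) = w (u y) := fun u hu w hw y =>
    congrArg (fun f : E →L[ℝ] E => f y) (C.acomm hu hw)
  -- a vector killed by the maximal ideal is a multiple of `W₀ x₀`
  have hkill : ∀ z : E, (∀ m ∈ AA π A, τ (m x₀) = 0 → m z = 0) → ∃ c : ℝ, z = c • W₀ x₀ := by
    intro z hz
    obtain ⟨u, hu, huz⟩ := C.asurj z
    obtain ⟨c, hc⟩ := hsoc2 u hu (by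
      intro y hy
      obtain ⟨m, hm, hmy⟩ := C.asurj y
      rw [← hmy, hcm u hu m hm, huz]
      exact hz m hm (by rw [hmy, hy]))
    refine ⟨c, ?_⟩
    rw [← huz, hc]
    rfl
  have hw : W₀ x₀ ≠ 0 := fun h => hW₀ne (C.ainj hW₀ C.tx h)
  -- stable nonzero subspaces contain `W₀ x₀`
  have hcont : ∀ Z : Submodule ℝ E, (∀ u ∈ AA π A, ∀ y ∈ Z, u y ∈ Z) → Z ≠ ⊥ → W₀ x₀ ∈ Z := by
    intro Z hZ hne
    obtain ⟨z, hz, hz0, hzm⟩ := sock C hbotA hZ (bot_lt_iff_ne_bot.2 hne)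
    obtain ⟨c, hc⟩ := hkill z (fun m hm h => (Submodule.mem_bot ℝ).1 (hzm m hm h))
    have hc0 : c ≠ 0 := by
      intro h
      rw [h, zero_smul] at hc
      exact hz0 (by rw [hc]; exact Submodule.zero_mem _)
    have : W₀ x₀ = c⁻¹ • z := by rw [hc, smul_smul, inv_mul_cancel₀ hc0, one_smul]
    rw [this]
    exact Z.smul_mem _ hz
  have hwW : W₀ x₀ ∈ W := hcont W hWA hWbot
  -- a functional
  have hsep : ∀ (P : Submodule ℝ E) (v : E), v ∉ P → ∃ f : E →ₗ[ℝ] ℝ, (∀ y ∈ P, f y = 0) ∧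
      f v = 1 := by
    intro P v hv
    obtain ⟨f, hf, hP⟩ := Submodule.exists_le_ker_of_notMem hv
    refine ⟨(f v)⁻¹ • f, fun y hy => ?_, ?_⟩
    · have : f y = 0 := hP hy
      rw [LinearMap.smul_apply, this, smul_zero]
    · rw [LinearMap.smul_apply, smul_eq_mul, inv_mul_cancel₀ hf]
  obtain ⟨Φ, -, hΦ⟩ := hsep ⊥ (W₀ x₀) (by rwa [Submodule.mem_bot])
  have hnd : ∀ y : E, y ≠ 0 → ∃ a ∈ AA π A, Φ (a y) ≠ 0 := by
    intro y hy
    let Z : Submodule ℝ E :=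
      { carrier := {z | ∃ a ∈ AA π A, a y = z}
        add_mem' := by
          rintro _ _ ⟨a, ha, rfl⟩ ⟨b, hb, rfl⟩
          exact ⟨a + b, Subalgebra.add_mem _ ha hb, rfl⟩
        zero_mem' := ⟨0, Subalgebra.zero_mem _, rfl⟩
        smul_mem' := by
          rintro c _ ⟨a, ha, rfl⟩
          exact ⟨c • a, Subalgebra.smul_mem _ ha c, rfl⟩ }
    have hZ : ∀ u ∈ AA π A, ∀ z ∈ Z, u z ∈ Z := by
      rintro u hu _ ⟨a, ha, rfl⟩
      exact ⟨u * a, Subalgebra.mul_mem _ hu ha, rfl⟩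
    have hZne : Z ≠ ⊥ := by
      intro h
      have : y ∈ Z := ⟨1, Subalgebra.one_mem _, rfl⟩
      rw [h, Submodule.mem_bot] at this
      exact hy this
    obtain ⟨a, ha, hay⟩ := hcont Z hZ hZne
    exact ⟨a, ha, by rw [hay, hΦ]; norm_num⟩
  -- duality
  let ev : AA π A →ₗ[ℝ] E :=
    { toFun := fun u => u.1 x₀
      map_add' := fun _ _ => rfl
      map_smul' := fun _ _ => rfl }
  have hevi : Function.Injective ev := by
    rw [injective_iff_map_eq_zero]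
    intro u hu
    exact Subtype.ext (C.ainj u.2 C.tx hu)
  have hevs : Function.Surjective ev := by
    intro y
    obtain ⟨u, hu, huy⟩ := C.asurj y
    exact ⟨⟨u, hu⟩, huy⟩
  let eq : AA π A ≃ₗ[ℝ] E := LinearEquiv.ofBijective ev ⟨hevi, hevs⟩
  have hfd : FiniteDimensional ℝ (AA π A) := eq.symm.finiteDimensional
  let Ψ : AA π A →ₗ[ℝ] Module.Dual ℝ E :=
    { toFun := fun u => Φ ∘ₗ ((u.1 : E →L[ℝ] E) : E →ₗ[ℝ] E)
      map_add' := by
        intro u w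
        ext y
        show Φ ((u.1 + w.1) y) = Φ (u.1 y) + Φ (w.1 y)
        rw [ContinuousLinearMap.add_apply, map_add]
      map_smul' := by
        intro c u
        ext y
        show Φ ((c • u.1) y) = c • Φ (u.1 y)
        rw [ContinuousLinearMap.smul_apply, map_smul] }
  have hΨ : ∀ u y, Ψ u y = Φ (u.1 y) := fun _ _ => rfl
  have hΨi : Function.Injective Ψ := by
    rw [injective_iff_map_eq_zero]
    intro u hu
    by_contra hne
    have hx : u.1 x₀ ≠ 0 := fun h => hne (Subtype.ext (C.ainj u.2 C.tx h))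
    obtain ⟨a, ha, haΦ⟩ := hnd _ hx
    apply haΦ
    rw [hcm a ha u.1 u.2, ← hΨ, hu]
    rfl
  have hΨs : Function.Surjective Ψ := by
    rw [← LinearMap.injective_iff_surjective_of_finrank_eq_finrank]
    · exact hΨi
    · rw [Subspace.dual_finrank_eq, eq.finrank_eq]
  -- a vector `v` in the socle of `ker τ / W`
  have hWlt : W < LinearMap.ker (τ : E →ₗ[ℝ] ℝ) := by
    refine lt_of_le_of_ne (fun y hy => hWτ y hy) fun h => hv₀W ?_
    rw [h]
    exact hv₀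
  obtain ⟨v, hv, hvW, hvm⟩ := sock C hWA hWA' hWlt
  obtain ⟨lam, hlW, hlv⟩ := hsep W v hvW
  obtain ⟨u0, hu0⟩ := hΨs lam
  have hu0W : ∀ y ∈ W, u0.1 y = 0 := by
    intro y hy
    by_contra hne
    obtain ⟨a, ha, haΦ⟩ := hnd _ hne
    apply haΦ
    rw [hcm a ha u0.1 u0.2, ← hΨ, hu0]
    exact hlW _ (hWA a ha y hy)
  have hu0v : u0.1 v ≠ 0 := by
    intro h
    have h3 : Ψ u0 v = 1 := by rw [hu0, hlv]
    rw [hΨ, h, map_zero] at h3
    exact zero_ne_one h3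
  have hu0c : ∀ c : ℝ, u0.1 ≠ c • W₀ := by
    intro c h
    apply hu0v
    rw [h, ContinuousLinearMap.smul_apply, hW₀V v hv, smul_zero]
  -- the element `m1`
  let N : Submodule ℝ E :=
    { carrier := {z | ∃ u ∈ AA π A, (∀ y ∈ W, u y = 0) ∧ u x₀ = z}
      add_mem' := by
        rintro _ _ ⟨a, ha, ha', rfl⟩ ⟨b, hb, hb', rfl⟩
        refine ⟨a + b, Subalgebra.add_mem _ ha hb, fun y hy => ?_, rfl⟩
        rw [ContinuousLinearMap.add_apply, ha' y hy, hb' y hy, add_zero]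
      zero_mem' := ⟨0, Subalgebra.zero_mem _, fun _ _ => rfl, rfl⟩
      smul_mem' := by
        rintro c _ ⟨a, ha, ha', rfl⟩
        refine ⟨c • a, Subalgebra.smul_mem _ ha c, fun y hy => ?_, rfl⟩
        rw [ContinuousLinearMap.smul_apply, ha' y hy, smul_zero] }
  have hN : ∀ u ∈ AA π A, ∀ z ∈ N, u z ∈ N := by
    rintro u hu _ ⟨a, ha, ha', rfl⟩
    refine ⟨u * a, Subalgebra.mul_mem _ hu ha, fun y hy => ?_, rfl⟩
    rw [ContinuousLinearMap.mul_apply, ha' y hy, map_zero]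
  obtain ⟨m1, hm1, hm1W, hm1c, hm1m⟩ : ∃ m1 ∈ AA π A, (∀ y ∈ W, m1 y = 0) ∧
      (∀ c : ℝ, m1 ≠ c • W₀) ∧ ∀ m ∈ AA π A, τ (m x₀) = 0 → m (m1 x₀) ∈ W := by
    by_cases hNW : N ≤ W
    · exact ⟨u0.1, u0.2, hu0W, hu0c, fun m hm _ => hNW (hN m hm _ ⟨u0.1, u0.2, hu0W, rfl⟩)⟩
    · have hlt : W < N ⊔ W := lt_of_le_of_ne le_sup_right fun h => hNW (by rw [h]; exact le_sup_left)
      have hst : ∀ u ∈ AA π A, ∀ z ∈ N ⊔ W, u z ∈ N ⊔ W := by
        intro u hu z hz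
        obtain ⟨a, ha, c, hc, rfl⟩ := Submodule.mem_sup.1 hz
        rw [map_add]
        exact Submodule.add_mem_sup (hN u hu a ha) (hWA u hu c hc)
      obtain ⟨z, hz, hzW, hzm⟩ := sock C hWA hst hlt
      obtain ⟨a, ⟨u, hu, huW, rfl⟩, c, hc, rfl⟩ := Submodule.mem_sup.1 hz
      refine ⟨u, hu, huW, fun t ht => hzW ?_, fun m hm hm0 => ?_⟩
      · refine W.add_mem ?_ hc
        rw [ht, ContinuousLinearMap.smul_apply]
        exact W.smul_mem _ hwW
      · have h3 := hzm m hm hm0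
        rw [map_add] at h3
        exact (W.add_mem_iff_left (hWA m hm c hc)).1 h3
  -- `m1` is in the maximal ideal
  have hm1τ : τ (m1 x₀) = 0 := by
    by_contra ht
    set t := τ (m1 x₀) with htdef
    have hmem : m1 - t • (1 : E →L[ℝ] E) ∈ AA π A :=
      Subalgebra.sub_mem _ hm1 (Subalgebra.smul_mem _ (Subalgebra.one_mem _) t)
    have hτ0 : τ ((m1 - t • (1 : E →L[ℝ] E)) x₀) = 0 := by
      rw [ContinuousLinearMap.sub_apply, ContinuousLinearMap.smul_apply,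
        ContinuousLinearMap.one_apply, map_sub, map_smul, C.tx, smul_eq_mul, mul_one, ← htdef,
        sub_self]
    obtain ⟨k, hk⟩ := C.anil hmem hτ0
    obtain ⟨y, hy, hy0⟩ := Submodule.exists_mem_ne_zero_of_ne_bot hWbot
    have hpow : ∀ j : ℕ, ((m1 - t • (1 : E →L[ℝ] E)) ^ j) y = (-t) ^ j • y := by
      intro j
      induction j with
      | zero => simp
      | succ j ih =>
        rw [pow_succ, ContinuousLinearMap.mul_apply, ContinuousLinearMap.sub_apply, hm1W y hy,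
          ContinuousLinearMap.smul_apply, ContinuousLinearMap.one_apply, zero_sub, map_neg,
          map_smul, ih, smul_smul, ← neg_smul, pow_succ]
        congr 1
        ring
    have h5 := hpow k
    rw [hk, ContinuousLinearMap.zero_apply] at h5
    exact hy0 ((smul_eq_zero.1 h5.symm).resolve_left (pow_ne_zero _ (neg_ne_zero.2 ht)))
  obtain ⟨c, hc⟩ := hsoc1 m1 hm1 hm1τ
  set b := m1 - c • W₀ with hb
  have hbne : b ≠ 0 := fun h => hm1c c (sub_eq_zero.1 h)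
  have hbW : ∀ y ∈ W, b y = 0 := by
    intro y hy
    rw [hb, ContinuousLinearMap.sub_apply, ContinuousLinearMap.smul_apply, hm1W y hy,
      hW₀V y (hWτ y hy), smul_zero, sub_zero]
  have hbV : ∀ y, τ y = 0 → b y ∈ W := by
    intro y hy
    obtain ⟨m, hm, hmy⟩ := C.asurj y
    rw [hb, ContinuousLinearMap.sub_apply, ContinuousLinearMap.smul_apply, hW₀V y hy, smul_zero,
      sub_zero, ← hmy, hcm m1 hm1 m hm]
    exact hm1m m hm (by rw [hmy, hy])
  have hbτ : ∀ y, τ (b y) = 0 := C.htau hc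
  have hτg : ∀ g y, τ (π g y) = τ y := fun g y => C.sys.tau g y
  have hlist : ∀ l : List Γ, (1 ≤ l.length → ∀ y, τ ((l.map (fun g => π g * b)).prod y) = 0) ∧
      (2 ≤ l.length → ∀ y, (l.map (fun g => π g * b)).prod y ∈ W) ∧
      (3 ≤ l.length → ∀ y, (l.map (fun g => π g * b)).prod y = 0) := by
    intro l
    induction l with
    | nil => refine ⟨fun h => ?_, fun h => ?_, fun h => ?_⟩ <;> simp at h
    | cons g l ih =>
      obtain ⟨i1, i2, i3⟩ := ih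
      have hcons : ∀ y, ((g :: l).map (fun g => π g * b)).prod y =
          π g (b ((l.map (fun g => π g * b)).prod y)) := fun y => by
        rw [List.map_cons, List.prod_cons]
        rfl
      refine ⟨fun _ y => ?_, fun h y => ?_, fun h y => ?_⟩
      · rw [hcons, hτg, hbτ]
      · rw [hcons]
        rw [List.length_cons] at h
        exact hW g _ (hbV _ (i1 (by omega) y))
      · rw [hcons]
        rw [List.length_cons] at h
        rw [hbW _ (i2 (by omega) y), map_zero]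
  have hbJ : b ∈ JJ F := by
    refine rad_mem hF b (fun i y hy => C.hinv hc (fun a _ z hz => hF.inv i a z hz) y hy) ⟨3, ?_⟩
    intro l hl i y _
    rw [(hlist l).2.2 hl y]
    exact Submodule.zero_mem _
  have hbu : b ∈ hu π A F := ⟨hc, hbJ⟩
  rw [h0, Submodule.mem_bot] at hbu
  exact hbne hbu

end Pool.Agent.H30.T4
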