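import Mathlib
import Pool.Agent.H30.T4.Defs
import Pool.Agent.H30.T4.Basic

/-! Project T4, row T4-10: the span `Vu` of the images of the maps of `hu` is preserved by the
group, and an element of `hh` whose long products fall in `Vu` shifts the series. -/

set_option autoImplicit false

namespace Pool.Agent.H30.T4

open NormedSpace Module Pool.Agent.H71.AU Pool.Agent.H14.HP Pool.Agent.H14.HR

section A
variable {E : Type*} [NormedAddCommGroup E] [NormedSpace ℝ E] [CompleteSpace E]
  [FiniteDimensional ℝ E] {Γ : Type*} [Group Γ] {π : Γ →* (E →L[ℝ] E)} {τ : E →L[ℝ] ℝ} {x₀ : E}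
  {A : Subgroup Γ} {n : ℕ}

/-- An element whose long products fall in `JJ F` is in `JJ F`. -/
theorem dim_rad {F : ℕ → Submodule ℝ E} {s : ℕ} (hF : Flg π F s) (b : E →L[ℝ] E)
    (hb : ∀ i, ∀ y ∈ F i, b y ∈ F i)
    (hnil : ∃ M : ℕ, ∀ l : List Γ, M ≤ l.length → (l.map (fun g => π g * b)).prod ∈ JJ F) :
    b ∈ JJ F := by
  obtain ⟨M, hM⟩ := hnil
  intro i y hy
  have hP : ∀ (j : ℕ) (l : List Γ), ∀ z ∈ F j, (l.map (fun g => π g * b)).prod z ∈ F j := by
    intro j l
    induction l with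
    | nil => intro z hz; simpa using hz
    | cons g l ih =>
      intro z hz
      rw [List.map_cons, List.prod_cons]
      exact hF.inv j g _ (hb j _ (ih z hz))
  let N : ℕ → Submodule ℝ E := fun k =>
    { carrier := {z | z ∈ F i ∧ ∀ (h : Γ) (l : List Γ), l.length = k →
        (l.map (fun g => π g * b)).prod (π h z) ∈ F (i + 1)}
      add_mem' := by
        rintro u v ⟨hu, hu'⟩ ⟨hv, hv'⟩
        refine ⟨(F i).add_mem hu hv, fun h l hl => ?_⟩
        rw [map_add, map_add]
        exact (F (i + 1)).add_mem (hu' h l hl) (hv' h l hl)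
      zero_mem' := by
        refine ⟨(F i).zero_mem, fun h l hl => ?_⟩
        rw [map_zero, map_zero]
        exact (F (i + 1)).zero_mem
      smul_mem' := by
        rintro t u ⟨hu, hu'⟩
        refine ⟨(F i).smul_mem t hu, fun h l hl => ?_⟩
        rw [map_smul, map_smul]
        exact (F (i + 1)).smul_mem t (hu' h l hl) }
  have hN : ∀ k, N k = F (i + 1) ∨ N k = F i := by
    intro k
    refine hF.irr i (N k) ?_ ?_ ?_
    · rintro g z ⟨hz, hz'⟩
      refine ⟨hF.inv i g z hz, fun h l hl => ?_⟩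
      have h2 := hz' (h * g) l hl
      rw [map_mul] at h2
      exact h2
    · intro z hz
      exact ⟨hF.anti i hz, fun h l _ => hP (i + 1) l _ (hF.inv (i + 1) h z hz)⟩
    · intro z hz
      exact hz.1
  have hNM : N M = F i := by
    apply le_antisymm
    · intro z hz
      exact hz.1
    · intro z hz
      exact ⟨hz, fun h l hl => hM l hl.ge i _ (hF.inv i h z hz)⟩
  classical
  have hex : ∃ k, N k = F i := ⟨M, hNM⟩
  let k := Nat.find hex
  have hk : N k = F i := Nat.find_spec hex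
  rcases Nat.eq_zero_or_pos k with h0 | hpos
  · have hy' : y ∈ N k := by rw [hk]; exact hy
    have h1 : ∀ z ∈ F i, z ∈ F (i + 1) := by
      intro z hz
      have hz' : z ∈ N k := by rw [hk]; exact hz
      have := hz'.2 1 [] (by rw [h0]; rfl)
      simpa using this
    exact h1 _ (hb i y hy)
  · obtain ⟨m, hm⟩ : ∃ m, k = m + 1 := ⟨k - 1, by omega⟩
    have hne : N m ≠ F i := Nat.find_min hex (by omega)
    have hm1 : N m = F (i + 1) := (hN m).resolve_right hne
    rw [← hm1]
    refine ⟨hb i y hy, fun h l hl => ?_⟩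
    have hy' : y ∈ N k := by rw [hk]; exact hy
    have h2 := hy'.2 1 (l ++ [h]) (by rw [List.length_append, List.length_singleton, hl, hm])
    simpa using h2
/-- `hu` applied `i` times to the whole space. -/
noncomputable def dimW (π : Γ →* (E →L[ℝ] E)) (A : Subgroup Γ) (F : ℕ → Submodule ℝ E) :
    ℕ → Submodule ℝ E
  | 0 => ⊤
  | i + 1 => Submodule.span ℝ {z | ∃ X ∈ hu π A F, ∃ y ∈ dimW π A F i, X y = z}

theorem dimW_le {F : ℕ → Submodule ℝ E} (hT : F 0 = ⊤) : ∀ i, dimW π A F i ≤ F i := by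
  intro i
  induction i with
  | zero => rw [hT]; exact le_top
  | succ i ih =>
    rw [dimW, Submodule.span_le]
    rintro z ⟨X, hX, y, hy, rfl⟩
    exact hX.2 i y (ih hy)

theorem vu_le_dimW {F : ℕ → Submodule ℝ E} : Vu π A F ≤ dimW π A F 1 := by
  rw [Vu, Submodule.span_le]
  rintro z ⟨X, hX, y, rfl⟩
  exact Submodule.subset_span ⟨X, hX, y, Submodule.mem_top, rfl⟩

theorem dim_pi_inv_mul (π : Γ →* (E →L[ℝ] E)) (g : Γ) : π g⁻¹ * π g = 1 := by
  rw [← map_mul, inv_mul_cancel, map_one]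

/-- A product of maps `π g * b` passes an element of `hu`. -/
theorem dim_pass (C : Cf π τ x₀ A n) {F : ℕ → Submodule ℝ E}
    (hG : ∀ g : Γ, ∀ X ∈ hu π A F, π g * X * π g⁻¹ ∈ hu π A F)
    {b : E →L[ℝ] E} (hb : b ∈ hh π A) (l : List Γ) :
    ∀ c ∈ hu π A F, ∃ c' ∈ hu π A F,
      (l.map (fun g => π g * b)).prod * c = c' * (l.map (fun g => π g * b)).prod := by
  induction l with
  | nil =>
    intro c hc
    exact ⟨c, hc, by simp⟩
  | cons g l ih =>
    intro c hc
    obtain ⟨c₁, hc₁, h₁⟩ := ih c hc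
    refine ⟨π g * c₁ * π g⁻¹, hG g c₁ hc₁, ?_⟩
    have hbc : b * c₁ = c₁ * b := (C.hcomm hb hc₁.1).eq
    rw [List.map_cons, List.prod_cons, mul_assoc, h₁]
    calc π g * b * (c₁ * (l.map (fun g => π g * b)).prod)
        = π g * (b * c₁) * (l.map (fun g => π g * b)).prod := by simp only [mul_assoc]
      _ = π g * (c₁ * b) * (l.map (fun g => π g * b)).prod := by rw [hbc]
      _ = π g * c₁ * (π g⁻¹ * π g) * b * (l.map (fun g => π g * b)).prod := by
          rw [dim_pi_inv_mul, mul_one]; simp only [mul_assoc]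
      _ = π g * c₁ * π g⁻¹ * (π g * b * (l.map (fun g => π g * b)).prod) := by
          simp only [mul_assoc]

/-- A long product maps `dimW i` to `dimW (i + 1)`. -/
theorem dimW_step (C : Cf π τ x₀ A n) {F : ℕ → Submodule ℝ E}
    (hG : ∀ g : Γ, ∀ X ∈ hu π A F, π g * X * π g⁻¹ ∈ hu π A F)
    {b : E →L[ℝ] E} (hb : b ∈ hh π A) (l : List Γ)
    (hl : ∀ y, (l.map (fun g => π g * b)).prod y ∈ Vu π A F) :
    ∀ i, ∀ y ∈ dimW π A F i, (l.map (fun g => π g * b)).prod y ∈ dimW π A F (i + 1) := by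
  intro i
  induction i with
  | zero =>
    intro y _
    exact vu_le_dimW (hl y)
  | succ i ih =>
    have hle : dimW π A F (i + 1) ≤
        (dimW π A F (i + 1 + 1)).comap ((l.map (fun g => π g * b)).prod : E →ₗ[ℝ] E) := by
      conv_lhs => rw [dimW]
      rw [Submodule.span_le]
      rintro z ⟨X, hX, y, hy, rfl⟩
      obtain ⟨c', hc', h'⟩ := dim_pass C hG hb l X hX
      have h2 : (l.map (fun g => π g * b)).prod (X y) =
          c' ((l.map (fun g => π g * b)).prod y) := by
        have := congrArg (fun f : E →L[ℝ] E => f y) h'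
        simpa using this
      show (l.map (fun g => π g * b)).prod (X y) ∈ dimW π A F (i + 1 + 1)
      rw [h2]
      exact Submodule.subset_span ⟨c', hc', _, ih y hy, rfl⟩
    intro y hy
    exact hle hy

theorem dimW_pow (C : Cf π τ x₀ A n) {F : ℕ → Submodule ℝ E}
    (hG : ∀ g : Γ, ∀ X ∈ hu π A F, π g * X * π g⁻¹ ∈ hu π A F)
    {b : E →L[ℝ] E} (hb : b ∈ hh π A) (M : ℕ)
    (hM : ∀ l : List Γ, M ≤ l.length → ∀ y, (l.map (fun g => π g * b)).prod y ∈ Vu π A F) :
    ∀ (k : ℕ) (l : List Γ), M * k ≤ l.length → ∀ y,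
      (l.map (fun g => π g * b)).prod y ∈ dimW π A F k := by
  intro k
  induction k with
  | zero =>
    intro l _ y
    exact Submodule.mem_top
  | succ k ih =>
    intro l hl y
    rw [Nat.mul_succ] at hl
    have h1 : M ≤ (l.take M).length := by
      rw [List.length_take]; omega
    have h2 : M * k ≤ (l.drop M).length := by
      rw [List.length_drop]; omega
    have h3 : (l.map (fun g => π g * b)).prod =
        ((l.take M).map (fun g => π g * b)).prod * ((l.drop M).map (fun g => π g * b)).prod := by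
      rw [← List.prod_append, ← List.map_append, List.take_append_drop]
    rw [h3]
    exact dimW_step C hG hb (l.take M) (hM _ h1) k _ (ih _ h2 y)

theorem vu_inv (C : Cf π τ x₀ A n) {F : ℕ → Submodule ℝ E}
    (hG : ∀ g : Γ, ∀ X ∈ hu π A F, π g * X * π g⁻¹ ∈ hu π A F) : Inv π (Vu π A F) := by
  intro g
  have hle : Vu π A F ≤ (Vu π A F).comap (π g : E →ₗ[ℝ] E) := by
    conv_lhs => rw [Vu]
    rw [Submodule.span_le]
    rintro z ⟨X, hX, y, rfl⟩
    show π g (X y) ∈ Vu π A F
    refine Submodule.subset_span ⟨π g * X * π g⁻¹, hG g X hX, π g y, ?_⟩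
    have h : π g⁻¹ (π g y) = y := by
      have := congrArg (fun f : E →L[ℝ] E => f y) (dim_pi_inv_mul π g)
      simpa using this
    show π g (X (π g⁻¹ (π g y))) = π g (X y)
    rw [h]
  intro y hy
  exact hle hy

theorem vu_rad (C : Cf π τ x₀ A n) {F : ℕ → Submodule ℝ E} {s : ℕ} (hF : Flg π F s)
    (hG : ∀ g : Γ, ∀ X ∈ hu π A F, π g * X * π g⁻¹ ∈ hu π A F)
    (b : E →L[ℝ] E) (hb : b ∈ hh π A)
    (hnil : ∃ M : ℕ, ∀ l : List Γ, M ≤ l.length → ∀ y, (l.map (fun g => π g * b)).prod y ∈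
      Vu π A F) : b ∈ JJ F := by
  obtain ⟨M, hM⟩ := hnil
  refine dim_rad hF b (fun i => C.hinv hb (fun a _ y hy => hF.inv i a y hy)) ⟨M * s, ?_⟩
  intro l hl i y _
  have h1 := dimW_le (π := π) (A := A) hF.top s (dimW_pow C hG hb M hM s l hl y)
  rw [hF.bot, Submodule.mem_bot] at h1
  rw [h1]
  exact (F (i + 1)).zero_mem

end A

end Pool.Agent.H30.T4
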