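import Mathlib
import Pool.Agent.H30.T4.Defs
import Pool.Agent.H30.T4.Basic
import Pool.Agent.H30.T4.Dim

/-! T4-10b: dimension count (project T4, MP_68c2bd). -/

set_option autoImplicit false

namespace Pool.Agent.H30.T4

open NormedSpace Module Pool.Agent.H71.AU Pool.Agent.H14.HP Pool.Agent.H14.HR

variable {E : Type*} [NormedAddCommGroup E] [NormedSpace ℝ E] [CompleteSpace E]
  [FiniteDimensional ℝ E] {Γ : Type*} [Group Γ] {π : Γ →* (E →L[ℝ] E)} {τ : E →L[ℝ] ℝ} {x₀ : E}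
  {A : Subgroup Γ} {n : ℕ}

/-- Evaluation at a vector. -/
private def ev (x : E) : (E →L[ℝ] E) →ₗ[ℝ] E where
  toFun X := X x
  map_add' _ _ := rfl
  map_smul' _ _ := rfl

omit [FiniteDimensional ℝ E] in
private theorem mem_Vu {F : ℕ → Submodule ℝ E} {X : E →L[ℝ] E} (hX : X ∈ hu π A F) (y : E) :
    X y ∈ Vu π A F := Submodule.subset_span ⟨X, hX, y, rfl⟩

private theorem Vu_tau (C : Cf π τ x₀ A n) {F : ℕ → Submodule ℝ E} {y : E} (hy : y ∈ Vu π A F) :
    τ y = 0 := by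
  have h : Vu π A F ≤ LinearMap.ker (τ : E →ₗ[ℝ] ℝ) := by
    refine Submodule.span_le.2 ?_
    rintro z ⟨X, hX, w, rfl⟩
    exact C.htau hX.1 w
  exact h hy

omit [FiniteDimensional ℝ E] in
private theorem AA_hh {X : E →L[ℝ] E} (hX : X ∈ hh π A) : X ∈ AA π A :=
  Algebra.subset_adjoin hX

/-- third part -/
private theorem third (C : Cf π τ x₀ A n) {F : ℕ → Submodule ℝ E} {s : ℕ} (hF : Flg π F s)
    (hG : ∀ g : Γ, ∀ X ∈ hu π A F, π g * X * π g⁻¹ ∈ hu π A F) :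
    ∀ X ∈ hh π A, (∀ y, X y ∈ Vu π A F) → X ∈ JJ F := by
  intro X hX hy
  refine vu_rad C hF hG X hX ⟨1, ?_⟩
  intro l hl y
  match l, hl with
  | g :: l, _ =>
    rw [List.map_cons, List.prod_cons, mul_assoc]
    exact vu_inv C hG g _ (hy _)

/-- elements of `hh` which map `ker τ` to `Vu` -/
private theorem second (C : Cf π τ x₀ A n) {F : ℕ → Submodule ℝ E} {s : ℕ} (hF : Flg π F s)
    (hG : ∀ g : Γ, ∀ X ∈ hu π A F, π g * X * π g⁻¹ ∈ hu π A F) :
    ∀ X ∈ hh π A, (∀ y, τ y = 0 → X y ∈ Vu π A F) → X ∈ JJ F := by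
  intro X hX hy
  refine vu_rad C hF hG X hX ⟨2, ?_⟩
  intro l hl y
  match l, hl with
  | g :: g' :: l, _ =>
    rw [List.map_cons, List.prod_cons, List.map_cons, List.prod_cons, mul_assoc, mul_assoc]
    refine vu_inv C hG g _ (hy _ ?_)
    show τ (π g' (X _)) = 0
    rw [C.sys.tau, C.htau hX]

/-- `X x₀ ∈ Vu` -/
private theorem first (C : Cf π τ x₀ A n) {F : ℕ → Submodule ℝ E} {s : ℕ} (hF : Flg π F s)
    (hG : ∀ g : Γ, ∀ X ∈ hu π A F, π g * X * π g⁻¹ ∈ hu π A F) :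
    ∀ X ∈ hh π A, X x₀ ∈ Vu π A F → X ∈ hu π A F := by
  intro X hX hx
  refine ⟨hX, third C hF hG X hX ?_⟩
  intro y
  obtain ⟨u, hu', rfl⟩ := C.asurj y
  have h1 : X (u x₀) = u (X x₀) := by
    have := C.acomm (AA_hh hX) hu'
    exact congrArg (fun T : E →L[ℝ] E => T x₀) this.eq
  rw [h1]
  exact C.ainv hu' (fun a _ => vu_inv C hG a) _ hx

/-- a vector of the socle of `ker τ / Vu` -/
private theorem socv (C : Cf π τ x₀ A n) {F : ℕ → Submodule ℝ E} {s : ℕ} (hF : Flg π F s)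
    (hG : ∀ g : Γ, ∀ X ∈ hu π A F, π g * X * π g⁻¹ ∈ hu π A F)
    (hne : ∃ X ∈ hh π A, X ∉ JJ F) :
    ∃ v, τ v = 0 ∧ v ∉ Vu π A F ∧ ∀ m ∈ AA π A, τ (m x₀) = 0 → m v ∈ Vu π A F := by
  set V : Submodule ℝ E := LinearMap.ker (τ : E →ₗ[ℝ] ℝ) with hV
  have memV : ∀ y, y ∈ V ↔ τ y = 0 := fun y => LinearMap.mem_ker
  have hVuV : Vu π A F ≤ V := fun y hy => (memV y).2 (Vu_tau C hy)
  have hVuA : ∀ u ∈ AA π A, ∀ y ∈ Vu π A F, u y ∈ Vu π A F := fun u hu' =>
    C.ainv hu' (fun a _ => vu_inv C hG a)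
  have hlt : Vu π A F < V := by
    refine lt_of_le_of_ne hVuV ?_
    intro h
    obtain ⟨X, hX, hXJ⟩ := hne
    apply hXJ
    refine third C hF hG X hX ?_
    intro y
    rw [h, memV]
    exact C.htau hX y
  let S : Set (Submodule ℝ E) := {W | Vu π A F < W ∧ W ≤ V ∧ ∀ u ∈ AA π A, ∀ y ∈ W, u y ∈ W}
  have hS : S.Nonempty := by
    refine ⟨V, hlt, le_rfl, ?_⟩
    intro u hu' y hy
    rw [memV] at hy ⊢
    rw [C.atau hu', hy, mul_zero]
  obtain ⟨W, ⟨hW1, hW2, hW3⟩, hWmin⟩ :=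
    (wellFounded_lt : WellFounded ((· < ·) : Submodule ℝ E → Submodule ℝ E → Prop)).has_min S hS
  obtain ⟨v, hvW, hvU⟩ := SetLike.exists_of_lt hW1
  refine ⟨v, (memV v).1 (hW2 hvW), hvU, ?_⟩
  intro m hm hm0
  by_contra hmv
  -- `W' = Vu + m W`
  have key : ∀ w ∈ W, ∃ w' ∈ W, w - m w' ∈ Vu π A F := by
    have hW' : Vu π A F ⊔ W.map (m : E →ₗ[ℝ] E) = W := by
      by_contra hne'
      have hle : Vu π A F ⊔ W.map (m : E →ₗ[ℝ] E) ≤ W := by
        refine sup_le hW1.le ?_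
        rintro _ ⟨w, hw, rfl⟩
        exact hW3 m hm w hw
      refine hWmin (Vu π A F ⊔ W.map (m : E →ₗ[ℝ] E)) ⟨?_, hle.trans hW2, ?_⟩
        (lt_of_le_of_ne hle hne')
      · refine lt_of_le_of_ne le_sup_left ?_
        intro h
        apply hmv
        rw [h]
        exact (le_sup_right : _ ≤ Vu π A F ⊔ W.map (m : E →ₗ[ℝ] E)) ⟨v, hvW, rfl⟩
      · intro u hu' y hy
        obtain ⟨y1, hy1, y2, ⟨w, hw, rfl⟩, rfl⟩ := Submodule.mem_sup.1 hy
        rw [map_add]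
        refine Submodule.add_mem_sup (hVuA u hu' y1 hy1) ⟨u w, hW3 u hu' w hw, ?_⟩
        exact (congrArg (fun T : E →L[ℝ] E => T w) (C.acomm hu' hm).eq).symm
    intro w hw
    rw [← hW'] at hw
    obtain ⟨y1, hy1, y2, ⟨w', hw', rfl⟩, rfl⟩ := Submodule.mem_sup.1 hw
    refine ⟨w', hw', ?_⟩
    have : y1 + (m : E →ₗ[ℝ] E) w' - m w' = y1 := by
      show y1 + m w' - m w' = y1
      rw [add_sub_cancel_right]
    rw [this]
    exact hy1
  have iter : ∀ k : ℕ, ∀ w ∈ W, ∃ w' ∈ W, w - (m ^ k) w' ∈ Vu π A F := by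
    intro k
    induction k with
    | zero =>
      intro w hw
      refine ⟨w, hw, ?_⟩
      rw [pow_zero]
      show w - w ∈ _
      rw [sub_self]
      exact Submodule.zero_mem _
    | succ k ih =>
      intro w hw
      obtain ⟨w1, hw1, h1⟩ := ih w hw
      obtain ⟨w2, hw2, h2⟩ := key w1 hw1
      refine ⟨w2, hw2, ?_⟩
      have h3 : w - (m ^ (k + 1)) w2 = (w - (m ^ k) w1) + (m ^ k) (w1 - m w2) := by
        rw [pow_succ, map_sub]
        show w - (m ^ k) (m w2) = _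
        abel
      rw [h3]
      exact Submodule.add_mem _ h1 (hVuA _ (Subalgebra.pow_mem _ hm k) _ h2)
  obtain ⟨k, hk⟩ := C.anil hm hm0
  obtain ⟨w', _, h⟩ := iter k v hvW
  rw [hk] at h
  apply hvU
  have h4 : v - (0 : E →L[ℝ] E) w' = v := by
    show v - 0 = v
    rw [sub_zero]
  rwa [h4] at h

private theorem finrank_ker (C : Cf π τ x₀ A n) :
    finrank ℝ (LinearMap.ker (τ : E →ₗ[ℝ] ℝ)) = n + 1 := by
  have h1 := LinearMap.finrank_range_add_finrank_ker (τ : E →ₗ[ℝ] ℝ)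
  have h2 : LinearMap.range (τ : E →ₗ[ℝ] ℝ) = ⊤ := by
    rw [LinearMap.range_eq_top]
    intro c
    refine ⟨c • x₀, ?_⟩
    show τ (c • x₀) = c
    rw [map_smul, C.tx, smul_eq_mul, mul_one]
  rw [h2, finrank_top, finrank_self, C.dim] at h1
  omega

private theorem finrank_map_ev (C : Cf π τ x₀ A n) {x : E} (hx : τ x = 1)
    (H : Submodule ℝ (E →L[ℝ] E)) (hH : H ≤ hh π A) :
    finrank ℝ (H.map (ev x)) = finrank ℝ H := by
  have h1 : Function.Injective ((ev x).domRestrict H) := by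
    rw [← LinearMap.ker_eq_bot, LinearMap.ker_eq_bot']
    intro X hX
    apply Subtype.ext
    exact C.hinj (hH X.2) hx hX
  have h2 := LinearMap.finrank_range_of_inj h1
  rw [LinearMap.range_domRestrict] at h2
  exact h2

theorem vu_all (C : Cf π τ x₀ A n) {F : ℕ → Submodule ℝ E} {s : ℕ} (hF : Flg π F s)
    (hG : ∀ g : Γ, ∀ X ∈ hu π A F, π g * X * π g⁻¹ ∈ hu π A F)
    (hne : ∃ X ∈ hh π A, X ∉ JJ F) :
    finrank ℝ (Vu π A F) = finrank ℝ (hu π A F) ∧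
    (∀ x, τ x = 1 → ∀ v ∈ Vu π A F, ∃ X ∈ hu π A F, X x = v) ∧
    (∀ X ∈ hh π A, (∀ y, X y ∈ Vu π A F) → X ∈ JJ F) := by
  have hle : ∀ x : E, (hu π A F).map (ev x) ≤ Vu π A F := by
    rintro x _ ⟨X, hX, rfl⟩
    exact mem_Vu hX x
  have hq : ∀ x : E, τ x = 1 → finrank ℝ ((hu π A F).map (ev x)) = finrank ℝ (hu π A F) :=
    fun x hx => finrank_map_ev C hx _ inf_le_left
  have h1 : finrank ℝ (hu π A F) ≤ finrank ℝ (Vu π A F) := by
    rw [← hq x₀ C.tx]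
    exact Submodule.finrank_mono (hle x₀)
  have h2 : finrank ℝ (Vu π A F) ≤ finrank ℝ (hu π A F) := by
    obtain ⟨v, hv0, hvU, hvm⟩ := socv C hF hG hne
    have hinf : (hh π A).map (ev x₀) ⊓ Vu π A F = (hu π A F).map (ev x₀) := by
      apply le_antisymm
      · rintro _ ⟨⟨X, hX, rfl⟩, h⟩
        exact ⟨X, first C hF hG X hX h, rfl⟩
      · rintro _ ⟨X, hX, rfl⟩
        exact ⟨⟨X, hX.1, rfl⟩, mem_Vu hX x₀⟩
    have hlt : (hh π A).map (ev x₀) ⊔ Vu π A F < LinearMap.ker (τ : E →ₗ[ℝ] ℝ) := by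
      refine lt_of_le_of_ne (sup_le ?_ ?_) ?_
      · rintro _ ⟨X, hX, rfl⟩
        exact C.htau hX x₀
      · intro y hy
        exact Vu_tau C hy
      · intro h
        have hv : v ∈ (hh π A).map (ev x₀) ⊔ Vu π A F := by
          rw [h]
          exact hv0
        obtain ⟨_, ⟨X, hX, rfl⟩, w, hw, hvw⟩ := Submodule.mem_sup.1 hv
        have hvw' : X x₀ + w = v := hvw
        have hmX : ∀ m ∈ AA π A, τ (m x₀) = 0 → m (X x₀) ∈ Vu π A F := by
          intro m hm hm0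
          have h5 : X x₀ = v - w := by rw [← hvw', add_sub_cancel_right]
          rw [h5, map_sub]
          exact Submodule.sub_mem _ (hvm m hm hm0)
            (C.ainv hm (fun a _ => vu_inv C hG a) _ hw)
        have hXJ : X ∈ JJ F := by
          refine second C hF hG X hX ?_
          intro y hy
          obtain ⟨m, hm, rfl⟩ := C.asurj y
          have h6 : X (m x₀) = m (X x₀) :=
            congrArg (fun T : E →L[ℝ] E => T x₀) (C.acomm (AA_hh hX) hm).eq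
          rw [h6]
          exact hmX m hm hy
        apply hvU
        rw [← hvw']
        exact Submodule.add_mem _ (mem_Vu ⟨hX, hXJ⟩ x₀) hw
    have h3 := Submodule.finrank_sup_add_finrank_inf_eq ((hh π A).map (ev x₀)) (Vu π A F)
    have h4 := Submodule.finrank_lt_finrank_of_lt hlt
    rw [hinf, hq x₀ C.tx, finrank_map_ev C C.tx _ le_rfl, C.hdim] at h3
    rw [finrank_ker C] at h4
    omega
  refine ⟨le_antisymm h2 h1, ?_, third C hF hG⟩
  intro x hx v hv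
  have h5 : (hu π A F).map (ev x) = Vu π A F := by
    refine Submodule.eq_of_le_of_finrank_le (hle x) ?_
    rw [hq x hx]
    exact h2
  rw [← h5] at hv
  obtain ⟨X, hX, h⟩ := hv
  exact ⟨X, hX, h⟩

end Pool.Agent.H30.T4
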