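import Mathlib
import Pool.Agent.H30.T4.Defs
import Pool.Agent.H30.T4.Basic
import Pool.Agent.H14.TA.Zass

/-! T4-7: the maps of `hh` that shift the series are real combinations of the logarithms of the
elements of `A` that shift the series. -/

set_option autoImplicit false

namespace Pool.Agent.H30.T4

open NormedSpace Module Pool.Agent.H71.AU Pool.Agent.H14.HP Pool.Agent.H14.HR

variable {E : Type*} [NormedAddCommGroup E] [NormedSpace ℝ E] [CompleteSpace E]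
  [FiniteDimensional ℝ E] {Γ : Type*} [Group Γ] {π : Γ →* (E →L[ℝ] E)} {τ : E →L[ℝ] ℝ} {x₀ : E}
  {A : Subgroup Γ} {n : ℕ}

omit [CompleteSpace E] [FiniteDimensional ℝ E] in
theorem cap_pow {b : E →L[ℝ] E} {W : Submodule ℝ E} (hb : ∀ y ∈ W, b y ∈ W) (k : ℕ) :
    ∀ y ∈ W, (b ^ k) y ∈ W := by
  induction k with
  | zero => intro y hy; simpa using hy
  | succ k ih =>
    intro y hy
    rw [pow_succ, mul_apply_eq_comp]
    exact ih _ (hb y hy)

omit [FiniteDimensional ℝ E] in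
/-- The exponential of a nilpotent map preserves the subspaces that the map preserves. -/
theorem cap_exp {b : E →L[ℝ] E} (hn : IsNilpotent b) {W : Submodule ℝ E}
    (hb : ∀ y ∈ W, b y ∈ W) : ∀ y ∈ W, exp b y ∈ W := by
  obtain ⟨m, hm⟩ := hn
  intro y hy
  rw [exp_eq_sum_of_pow hm, ContinuousLinearMap.sum_apply]
  refine W.sum_mem fun i _ => ?_
  exact W.smul_mem _ (cap_pow hb i y hy)

omit [FiniteDimensional ℝ E] in
/-- The exponential of a nilpotent map that shifts the series. -/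
theorem cap_exp_JJ {F : ℕ → Submodule ℝ E} (hanti : ∀ i, F (i + 1) ≤ F i) {b : E →L[ℝ] E}
    (hn : IsNilpotent b) (hb : b ∈ JJ F) : exp b - 1 ∈ JJ F := by
  obtain ⟨m, hm⟩ := hn
  have h1 : exp b - 1 =
      ∑ i ∈ Finset.range m, (((i + 1).factorial : ℝ)⁻¹) • b ^ (i + 1) := by
    rw [exp_eq_sum_of_pow (m := m + 1) (by rw [pow_succ, hm, zero_mul]),
      Finset.sum_range_succ']
    simp
  rw [h1]
  refine (JJ F).sum_mem fun i _ => (JJ F).smul_mem _ ?_
  intro k y hy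
  rw [pow_succ', mul_apply_eq_comp]
  exact hb k _ (cap_pow (fun z hz => hanti k (hb k z hz)) i y hy)

theorem cap (C : Cf π τ x₀ A n) {F : ℕ → Submodule ℝ E} {s : ℕ} (hF : Flg π F s) :
    ∀ X ∈ hh π A, X ∈ JJ F →
      X ∈ Submodule.span ℝ {Y | ∃ a ∈ A, π a - 1 ∈ JJ F ∧ Y = lg (π a)} := by
  intro X hX hXJ
  set S1 : Submodule ℝ (E →L[ℝ] E) :=
    Submodule.span ℝ {Y | ∃ a ∈ A, π a - 1 ∈ JJ F ∧ Y = lg (π a)} with hS1
  obtain ⟨ε₀, hε₀, hz⟩ := zass C.sys ⟨x₀, C.tx⟩ hF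
  -- the exponential is close to `1` near `0`
  obtain ⟨δ, hδ, hexp⟩ : ∃ δ : ℝ, 0 < δ ∧ ∀ b : E →L[ℝ] E, ‖b‖ < δ → ‖exp b - 1‖ < ε₀ := by
    have h1 := Metric.continuous_iff.1 (continuous_exp' (𝔸 := E →L[ℝ] E)) 0 ε₀ hε₀
    obtain ⟨δ, hδ, h2⟩ := h1
    refine ⟨δ, hδ, fun b hb => ?_⟩
    have h3 := h2 b (by rwa [dist_zero_right])
    rwa [exp_zero, dist_eq_norm] at h3
  obtain ⟨R, hR⟩ := cobounded (core_Lam π A C.comm C.uni)
  have hmem : ∀ m : ℕ, (m : ℝ) • X ∈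
      Submodule.span ℝ (core_Lam π A C.comm C.uni : Set (E →L[ℝ] E)) :=
    fun m => Submodule.smul_mem _ _ hX
  choose l hl hlR using fun m : ℕ => hR _ (hmem m)
  have hcl : IsClosed (S1 : Set (E →L[ℝ] E)) := S1.closed_of_finiteDimensional
  -- near points of `S1`
  suffices h : ∀ ε : ℝ, 0 < ε → ∃ Y ∈ S1, ‖X - Y‖ < ε by
    have h1 : X ∈ closure (S1 : Set (E →L[ℝ] E)) := by
      rw [Metric.mem_closure_iff]
      intro ε hε
      obtain ⟨Y, hY, hXY⟩ := h ε hε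
      exact ⟨Y, hY, by rwa [dist_eq_norm]⟩
    rwa [hcl.closure_eq] at h1
  intro ε hε
  have hprop : ProperSpace (E →L[ℝ] E) := FiniteDimensional.proper_real _
  obtain ⟨r, -, φ, hφ, hlim⟩ := (isCompact_closedBall (0 : E →L[ℝ] E) R).tendsto_subseq
    (x := fun m : ℕ => (m : ℝ) • X - l m) (fun m => by
      rw [mem_closedBall_zero_iff]
      exact hlR m)
  obtain ⟨N, hN⟩ := Metric.tendsto_atTop.1 hlim (min ε δ / 2) (by positivity)
  have h1 := hN N le_rfl
  have h2 := hN (N + 1) (Nat.le_succ N)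
  set m := φ N
  set m' := φ (N + 1)
  have hlt : m < m' := hφ (Nat.lt_succ_self N)
  set b : E →L[ℝ] E := ((m : ℝ) • X - l m) - ((m' : ℝ) • X - l m') with hb
  have hbn : ‖b‖ < min ε δ := by
    have h3 : dist ((m : ℝ) • X - l m) ((m' : ℝ) • X - l m') < min ε δ := by
      calc _ ≤ dist ((m : ℝ) • X - l m) r + dist ((m' : ℝ) • X - l m') r := dist_triangle_right _ _ _
        _ < min ε δ / 2 + min ε δ / 2 := add_lt_add h1 h2
        _ = min ε δ := by ring
    rwa [dist_eq_norm] at h3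
  -- the lattice point
  obtain ⟨a, ha, hal⟩ : ∃ a ∈ A, l m' - l m = lg (π a) :=
    (core_Lam π A C.comm C.uni).sub_mem (hl m') (hl m)
  set d : ℝ := (m' : ℝ) - m with hd
  have hd1 : 1 ≤ d := by
    have : (m : ℝ) + 1 ≤ m' := by exact_mod_cast hlt
    linarith
  have hlg : lg (π a) = d • X + b := by
    rw [← hal, hb, hd, sub_smul]
    abel
  have hah : lg (π a) ∈ hh π A := Submodule.subset_span ⟨a, ha, rfl⟩
  have hdX : d • X ∈ hh π A := Submodule.smul_mem _ _ hX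
  have hbh : b ∈ hh π A := by
    have : b = lg (π a) - d • X := by rw [hlg]; abel
    rw [this]
    exact Submodule.sub_mem _ hah hdX
  have hpa : π a = exp (d • X) * exp b := by
    rw [← exp_add_comm' (C.hcomm hdX hbh), ← hlg, exp_lg (C.uni a ha)]
  have hJ : (exp (d • X) - 1) * exp b ∈ JJ F := by
    intro k y hy
    rw [mul_apply_eq_comp]
    exact cap_exp_JJ hF.anti (C.hnil hdX) ((JJ F).smul_mem _ hXJ) k _
      (cap_exp (C.hnil hbh) (C.hinv hbh (fun a _ => hF.inv k a)) y hy)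
  have hπ : π a - 1 ∈ JJ F := by
    refine hz a (C.uni a ha) ⟨_, hJ, ?_⟩
    have h3 : π a - 1 - (exp (d • X) - 1) * exp b = exp b - 1 := by
      rw [hpa]
      noncomm_ring
    rw [h3]
    exact hexp b (hbn.trans_le (min_le_right _ _))
  have hS : lg (π a) ∈ S1 := Submodule.subset_span ⟨a, ha, hπ, rfl⟩
  refine ⟨d⁻¹ • lg (π a), S1.smul_mem _ hS, ?_⟩
  have hd0 : d ≠ 0 := by linarith
  have h3 : X - d⁻¹ • lg (π a) = -(d⁻¹ • b) := by
    rw [hlg, smul_add, smul_smul, inv_mul_cancel₀ hd0, one_smul]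
    abel
  rw [h3, norm_neg, norm_smul, Real.norm_eq_abs, abs_of_pos (by positivity)]
  calc d⁻¹ * ‖b‖ ≤ 1 * ‖b‖ :=
        mul_le_mul_of_nonneg_right (inv_le_one_of_one_le₀ hd1) (norm_nonneg _)
    _ = ‖b‖ := one_mul _
    _ < ε := hbn.trans_le (min_le_left _ _)

end Pool.Agent.H30.T4
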