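import Mathlib
import Pool.Agent.H30.T4.Defs
import Pool.Agent.H30.T4.Basic
import Pool.Agent.H30.T4.Cap
import Pool.Agent.H71.AU.Cob
import Pool.Agent.H71.AU.OrbA

/-! Row T4-11a (MP_68c2bd): the elements `a` of `A` with `π a - 1` in `JJ F` are uniformly
cocompact on the fibres `y + Vu`. -/

set_option autoImplicit false

namespace Pool.Agent.H30.T4

open NormedSpace Module Pool.Agent.H71.AU Pool.Agent.H14.HP Pool.Agent.H14.HR

variable {E : Type*} [NormedAddCommGroup E] [NormedSpace ℝ E] [CompleteSpace E]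
  [FiniteDimensional ℝ E] {Γ : Type*} [Group Γ] {π : Γ →* (E →L[ℝ] E)} {τ : E →L[ℝ] ℝ} {x₀ : E}
  {A : Subgroup Γ} {n : ℕ}

omit [CompleteSpace E] [FiniteDimensional ℝ E] in
theorem fib_mul {F : ℕ → Submodule ℝ E} (hinv : ∀ i, Inv π (F i)) {a b : Γ}
    (ha : π a - 1 ∈ JJ F) (hb : π b - 1 ∈ JJ F) : π (a * b) - 1 ∈ JJ F := by
  intro i y hy
  have h1 := ha i (π b y) (hinv i b y hy)
  have h2 := hb i y hy
  have h3 : (π (a * b) - 1) y = (π a - 1) (π b y) + (π b - 1) y := by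
    rw [map_mul]
    simp only [sub_apply, mul_apply_eq_comp,
      one_apply_eq_self]
    abel
  rw [h3]
  exact (F (i + 1)).add_mem h1 h2

omit [CompleteSpace E] [FiniteDimensional ℝ E] in
theorem fib_inv {F : ℕ → Submodule ℝ E} (hinv : ∀ i, Inv π (F i)) {a : Γ}
    (ha : π a - 1 ∈ JJ F) : π a⁻¹ - 1 ∈ JJ F := by
  intro i y hy
  have h1 := ha i (π a⁻¹ y) (hinv i a⁻¹ y hy)
  have h4 : π a (π a⁻¹ y) = y := by
    rw [← mul_apply_eq_comp, ← map_mul, mul_inv_cancel, map_one,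
      one_apply_eq_self]
  have h3 : (π a⁻¹ - 1) y = -((π a - 1) (π a⁻¹ y)) := by
    simp only [sub_apply, one_apply_eq_self, h4]
    abel
  rw [h3]
  exact (F (i + 1)).neg_mem h1

/-- The logarithm of an element of `A` that is `1` on the factors shifts the series. -/
theorem fib_lg (C : Cf π τ x₀ A n) {F : ℕ → Submodule ℝ E} (hinv : ∀ i, Inv π (F i)) {a : Γ}
    (haA : a ∈ A) (ha : π a - 1 ∈ JJ F) : lg (π a) ∈ JJ F := by
  set X : E →L[ℝ] E := lg (π a) with hXdef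
  have hXh : X ∈ hh π A := Submodule.subset_span ⟨a, haA, rfl⟩
  have hXn : IsNilpotent X := C.hnil hXh
  have hexp : exp X = π a := exp_lg (C.uni a haA)
  obtain ⟨m, hm⟩ := hXn
  intro i y hy
  have hXi : ∀ j : ℕ, (X ^ j) y ∈ F i := fun j =>
    pow_mem_of (C.hinv hXh (fun b _ z hz => hinv i b z hz)) j hy
  have key : ∀ d k : ℕ, m ≤ d + (k + 1) → (X ^ (k + 1)) y ∈ F (i + 1) := by
    intro d
    induction d with
    | zero =>
      intro k hk
      rw [pow_eq_zero_of_le (by omega) hm]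
      exact (F (i + 1)).zero_mem
    | succ d ih =>
      intro k hk
      have h1 : exp X ((X ^ k) y) - (X ^ k) y ∈ F (i + 1) := by
        rw [hexp]
        exact ha i _ (hXi k)
      have h2 : exp X ((X ^ k) y) - (X ^ k) y - X ((X ^ k) y) ∈ F (i + 1) := by
        apply exp_sub_sub_mem ⟨m, hm⟩
        intro j
        have h3 : (X ^ (j + 2)) ((X ^ k) y) = (X ^ ((j + 1 + k) + 1)) y := by
          rw [show (j + 1 + k) + 1 = (j + 2) + k by omega, pow_add X (j + 2) k]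
          rfl
        rw [h3]
        exact ih _ (by omega)
      have h4 : (X ^ (k + 1)) y = X ((X ^ k) y) := by
        rw [pow_succ']
        rfl
      rw [h4]
      have h5 := (F (i + 1)).sub_mem h1 h2
      rwa [sub_sub_cancel] at h5
  have h6 := key m 0 (by omega)
  simpa using h6

/-- The logarithms of the elements of `A` that are `1` on the factors. -/
noncomputable def fib_Lam (C : Cf π τ x₀ A n) {F : ℕ → Submodule ℝ E}
    (hinv : ∀ i, Inv π (F i)) : AddSubgroup (E →L[ℝ] E) where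
  carrier := {X | ∃ a ∈ A, π a - 1 ∈ JJ F ∧ X = lg (π a)}
  zero_mem' := ⟨1, A.one_mem, by rw [map_one, sub_self]; exact (JJ F).zero_mem,
    by rw [map_one, core_lg_one]⟩
  add_mem' := by
    rintro _ _ ⟨a, ha, ha', rfl⟩ ⟨b, hb, hb', rfl⟩
    exact ⟨a * b, A.mul_mem ha hb, fib_mul hinv ha' hb', (core_lg_mul C.comm C.uni ha hb).symm⟩
  neg_mem' := by
    rintro _ ⟨a, ha, ha', rfl⟩
    exact ⟨a⁻¹, A.inv_mem ha, fib_inv hinv ha', (core_lg_inv C.comm C.uni ha).symm⟩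

theorem fib_lin (C : Cf π τ x₀ A n) {F : ℕ → Submodule ℝ E} {y : E} (hy : τ y = 1) :
    Lin (Vu π A F) y (hu π A F) where
  comm X hX Y hY := C.hcomm hX.1 hY.1
  nil X hX := C.hnil hX.1
  hx X hX := Submodule.subset_span ⟨X, hX, y, rfl⟩
  hW X hX w _ := Submodule.subset_span ⟨X, hX, w, rfl⟩
  inj X hX w hw h0 := by
    have hle : Vu π A F ≤ LinearMap.ker τ.toLinearMap := by
      apply Submodule.span_le.2
      rintro _ ⟨Y, hY, z, rfl⟩
      exact LinearMap.mem_ker.2 (C.htau hY.1 z)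
    have hτw : τ w = 0 := LinearMap.mem_ker.1 (hle hw)
    exact C.hinj hX.1 (x := y + w) (by rw [map_add, hy, hτw, add_zero]) h0

theorem fib (C : Cf π τ x₀ A n) {F : ℕ → Submodule ℝ E} {s : ℕ} (hF : Flg π F s)
    (hd : finrank ℝ (Vu π A F) = finrank ℝ (hu π A F)) :
    ∀ R : ℝ, ∃ R' : ℝ, ∀ y v : E, τ y = 1 → ‖y‖ ≤ R → v ∈ Vu π A F →
      ∃ a ∈ A, π a - 1 ∈ JJ F ∧ (∀ z, π a z - z ∈ Vu π A F) ∧ ‖π a (y + v)‖ ≤ R' := by
  intro R
  obtain ⟨R0, hR0⟩ := cobounded (fib_Lam C hF.inv)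
  obtain ⟨K, hK⟩ := core_exp_bdd (M := E) R0
  refine ⟨K * R, ?_⟩
  intro y v hy hyR hv
  obtain ⟨X, hX, hXe⟩ := trans (fib_lin C hy) hd.le v hv
  obtain ⟨l, ⟨a, haA, haJ, rfl⟩, hl⟩ := hR0 X (cap C hF X hX.1 hX.2)
  have hlh : lg (π a) ∈ hh π A := Submodule.subset_span ⟨a, haA, rfl⟩
  have hlu : lg (π a) ∈ hu π A F := ⟨hlh, fib_lg C hF.inv haA haJ⟩
  have hinv1 : π a⁻¹ = exp (-lg (π a)) := by
    rw [← core_lg_inv C.comm C.uni haA, exp_lg (C.uni _ (A.inv_mem haA))]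
  refine ⟨a⁻¹, A.inv_mem haA, fib_inv hF.inv haJ, ?_, ?_⟩
  · intro z
    rw [hinv1]
    have hneg : -lg (π a) ∈ hu π A F := (hu π A F).neg_mem hlu
    apply exp_sub_mem (C.hnil hneg.1)
    intro i
    rw [pow_succ']
    exact Submodule.subset_span ⟨-lg (π a), hneg, ((-lg (π a)) ^ i) z, rfl⟩
  · have h2 : π a⁻¹ (y + v) = exp (X - lg (π a)) y := by
      rw [← hXe, hinv1]
      have h3 : exp (X - lg (π a)) = exp (-lg (π a)) * exp X := by
        rw [← exp_add_comm' (C.hcomm ((hh π A).neg_mem hlh) hX.1)]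
        congr 1
        abel
      rw [h3]
      rfl
    rw [h2]
    have h4 := hK _ hl
    exact (ContinuousLinearMap.le_opNorm _ _).trans
      (mul_le_mul h4 hyR (norm_nonneg _) ((norm_nonneg _).trans h4))

end Pool.Agent.H30.T4
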