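import Mathlib
import Pool.Agent.H30.T4.Dim2
import Pool.Agent.H30.T4.Fib
import Pool.Agent.H36.T4.QuoC
import Pool.Agent.H1.T4.QuoZ

/-! Project T4: the reduction to the quotient. -/

set_option autoImplicit false

namespace Pool.Agent.H30.T4

open NormedSpace Module Pool.Agent.H71.AU Pool.Agent.H14.HP Pool.Agent.H14.HR

theorem quo' {E : Type} [NormedAddCommGroup E] [NormedSpace ℝ E] [CompleteSpace E]
    [FiniteDimensional ℝ E] {Γ : Type} [Group Γ] {π : Γ →* (E →L[ℝ] E)} {τ : E →L[ℝ] ℝ} {x₀ : E}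
    {A : Subgroup Γ} {n : ℕ} (C : Cf π τ x₀ A n) {F : ℕ → Submodule ℝ E} {s : ℕ}
    (hF : Flg π F s)
    (hG : ∀ g : Γ, ∀ X ∈ hu π A F, π g * X * π g⁻¹ ∈ hu π A F)
    (hne : ∃ X ∈ hh π A, X ∉ JJ F) (h0 : hu π A F ≠ ⊥) (ih : ∀ k < n, Thm k) : VS Γ := by
  have hV := vu_inv C (F := F) hG
  obtain ⟨hd, -, hall⟩ := vu_all C hF hG hne
  exact Pool.Agent.H36.T4.quo_core C C.hdim hV hd (fib C hF hd)
    (Pool.Agent.H1.T4.quoZ C C.hdim hall) h0 ih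

end Pool.Agent.H30.T4
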