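import Mathlib
import Pool.Agent.H30.T4.Defs
import Pool.Agent.H14.HP.HypEx
import Pool.Agent.H14.HR.Final

/-! T4-15: reduction to a unipotent group without invariant proper subspace. -/

set_option autoImplicit false

namespace Pool.Agent.H30.T4

open NormedSpace Module Pool.Agent.H71.AU Pool.Agent.H14.HP Pool.Agent.H14.HR

section B
variable {E : Type} [NormedAddCommGroup E] [NormedSpace ℝ E] [CompleteSpace E]
  [FiniteDimensional ℝ E] {Γ : Type} [Group Γ] {π : Γ →* (E →L[ℝ] E)} {τ : E →L[ℝ] ℝ} {x₀ : E}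
  {A : Subgroup Γ} {n : ℕ}

private theorem red_le (φ : E →L[ℝ] ℝ) (hφ : φ ≠ 0) (H : Hyp π τ A φ) : A ≤ St π φ := by
  intro a ha
  obtain ⟨μ, hμ⟩ := H.inv a ha
  refine ⟨μ, ?_, hμ⟩
  rintro rfl
  apply hφ
  ext y
  have h1 := hμ (π a⁻¹ y)
  rw [pi_inv', zero_mul] at h1
  exact h1

private theorem red_fin (S : Sys π τ) (φ : E →L[ℝ] ℝ) (hφ : φ ≠ 0) (x : E) (hx : τ x = 1)
    (hφx : φ x = 0) (H : Hyp π τ A φ) : (A.subgroupOf (St π φ)).FiniteIndex := by
  have hle := red_le φ hφ H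
  obtain ⟨R, hR⟩ := H.coc
  have hfin := S.prop (max R ‖x‖)
  obtain ⟨F, hF⟩ : ∃ F : Set Γ, F = {g : Γ | ∃ y, τ y = 1 ∧ ‖y‖ ≤ max R ‖x‖ ∧
    ‖π g y‖ ≤ max R ‖x‖} := ⟨_, rfl⟩
  rw [← hF] at hfin
  have hfin' : Finite {h : St π φ // (h : Γ) ∈ F} :=
    (hfin.preimage (f := (Subtype.val : St π φ → Γ)) Subtype.val_injective.injOn).to_subtype
  have hs : Function.Surjective (fun h : {h : St π φ // (h : Γ) ∈ F} =>
      (QuotientGroup.mk (h.1⁻¹) : St π φ ⧸ A.subgroupOf (St π φ))) := by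
    intro q
    obtain ⟨g, rfl⟩ := QuotientGroup.mk_surjective q
    have h1 : φ (π (g : Γ)⁻¹ x) = 0 := by
      obtain ⟨μ, -, hμ⟩ := mem_St.1 ((St π φ).inv_mem g.2)
      rw [hμ, hφx, mul_zero]
    have h2 : τ (π (g : Γ)⁻¹ x) = 1 := by rw [S.tau, hx]
    obtain ⟨a, ha, hn⟩ := hR _ h1 h2
    rw [← pi_mul] at hn
    refine ⟨⟨⟨a, hle ha⟩ * g⁻¹, ?_⟩, ?_⟩
    · rw [hF]
      exact ⟨x, hx, le_max_right _ _, hn.trans (le_max_left _ _)⟩
    · rw [QuotientGroup.eq]
      rw [Subgroup.mem_subgroupOf]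
      simpa using ha
  have := Finite.of_surjective _ hs
  exact Subgroup.finiteIndex_of_finite_quotient

theorem hyp_vs (S : Sys π τ) (φ : E →L[ℝ] ℝ) (hφ : φ ≠ 0) (x : E) (hx : τ x = 1)
    (hφx : φ x = 0) (H : Hyp π τ A φ) : VS Γ := by
  have hle := red_le φ hφ H
  have C : Cfg π τ φ := by
    refine ⟨S, fun s => ?_, ?_⟩
    · by_contra hcon
      push Not at hcon
      have h1 := hcon x
      rw [hφx, hx, mul_one] at h1
      apply hφ
      ext y
      rw [hcon y, ← h1, zero_mul]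
      rfl
    · obtain ⟨R, hR⟩ := H.coc
      refine ⟨R, fun y hy hy1 => ?_⟩
      obtain ⟨a, ha, hn⟩ := hR y hy hy1
      exact ⟨a, hle ha, hn⟩
  refine (final_iff C ⟨x, hx⟩).2 ⟨A.subgroupOf (St π φ), red_fin S φ hφ x hx hφx H, ?_⟩
  have hc : ∀ a b : A.subgroupOf (St π φ), a * b = b * a := by
    intro a b
    apply Subtype.ext
    apply Subtype.ext
    exact H.comm _ (Subgroup.mem_subgroupOf.1 a.2) _ (Subgroup.mem_subgroupOf.1 b.2)
  exact Group.isSolvable_of_comm hc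

private theorem red_sub (A : Subgroup Γ)
    (hf : ∃ f : (Fin n → ℤ) →+ Additive A, Function.Injective f) :
    ∃ A' : Subgroup Γ, A' ≤ A ∧ ∃ f : (Fin n → ℤ) →+ Additive A', Function.Bijective f := by
  obtain ⟨f, hf⟩ := hf
  let F : Multiplicative (Fin n → ℤ) →* Γ :=
    { toFun := fun v => ((Additive.toMul (f (Multiplicative.toAdd v)) : A) : Γ)
      map_one' := by
        rw [toAdd_one, map_zero]
        rfl
      map_mul' := fun v w => by
        rw [toAdd_mul, map_add]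
        rfl }
  have hF : ∀ v, F v = ((Additive.toMul (f (Multiplicative.toAdd v)) : A) : Γ) := fun v => rfl
  let f' : (Fin n → ℤ) →+ Additive F.range :=
    { toFun := fun v => Additive.ofMul ⟨F (Multiplicative.ofAdd v), ⟨_, rfl⟩⟩
      map_zero' := by
        apply Additive.toMul.injective
        apply Subtype.ext
        change F (Multiplicative.ofAdd 0) = 1
        rw [ofAdd_zero, map_one]
      map_add' := fun v w => by
        apply Additive.toMul.injective
        apply Subtype.ext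
        change F (Multiplicative.ofAdd (v + w)) =
          F (Multiplicative.ofAdd v) * F (Multiplicative.ofAdd w)
        rw [ofAdd_add, map_mul] }
  refine ⟨F.range, ?_, f', ?_, ?_⟩
  · rintro _ ⟨v, rfl⟩
    rw [hF]
    exact Subtype.prop _
  · intro v w h
    have h1 : F (Multiplicative.ofAdd v) = F (Multiplicative.ofAdd w) :=
      congrArg (fun u : Additive F.range => ((Additive.toMul u : F.range) : Γ)) h
    rw [hF, hF] at h1
    exact hf (Additive.toMul.injective (Subtype.ext h1))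
  · intro u
    obtain ⟨v, hv⟩ := (Additive.toMul u).2
    refine ⟨Multiplicative.toAdd v, ?_⟩
    apply Additive.toMul.injective
    apply Subtype.ext
    exact hv

theorem red (n : ℕ) (S : Sys π τ) (hinj : Function.Injective π) (hx : ∃ x, τ x = 1)
    (hA : ∀ a ∈ A, ∀ b ∈ A, a * b = b * a)
    (hf : ∃ f : (Fin n → ℤ) →+ Additive A, Function.Injective f) (hE : finrank ℝ E = n + 2)
    (hV : ¬ VS Γ) : ∃ (A' : Subgroup Γ) (x₀ : E), Cf π τ x₀ A' n := by
  obtain ⟨A', hle, f, hf⟩ := red_sub A hf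
  obtain ⟨x₀, hx₀⟩ := hx
  have hA' : ∀ a ∈ A', ∀ b ∈ A', a * b = b * a := fun a ha b hb => hA a (hle ha) b (hle hb)
  have hcyc : ∀ M : Submodule ℝ E, (∀ a ∈ A', ∀ y ∈ M, π a y ∈ M) → (∃ x ∈ M, τ x = 1) →
      M = ⊤ := by
    rintro M hM ⟨x, hxM, hx1⟩
    by_contra hne
    obtain ⟨φ, h1, h2, h3⟩ := hyp_exists S A' hA' n f hf.1 hE M hM hne x hxM hx1
    exact hV (hyp_vs S φ h1 x hx1 h2 h3)
  have huni : ∀ a ∈ A', IsNilpotent (π a - 1) := by
    have hM := hcyc (hypEx_sub π A' ⊤ (finrank ℝ E + 1))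
      (hypEx_sub_inv π A' hA' ⊤ (fun _ _ _ _ => Submodule.mem_top) _) (by
        obtain ⟨x₁, hx₁, hx₁A⟩ := fit
          (Set.range (fun a : A' => ((π (a : Γ) : E →L[ℝ] E) : E →ₗ[ℝ] E)))
          (by
            rintro _ ⟨a, rfl⟩ _ ⟨b, rfl⟩
            apply LinearMap.ext
            intro y
            change π (a : Γ) (π (b : Γ) y) = π (b : Γ) (π (a : Γ) y)
            rw [← pi_mul, ← pi_mul, hA' a a.2 b b.2])
          (τ : E →ₗ[ℝ] ℝ)
          (by
            rintro _ ⟨a, rfl⟩ y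
            exact S.tau a y)
          (by
            intro h
            have h2 : τ x₀ = 0 := congrArg (fun φ : E →ₗ[ℝ] ℝ => φ x₀) h
            rw [hx₀] at h2
            exact one_ne_zero h2)
        refine ⟨x₁, ⟨Submodule.mem_top, fun a ha => ?_⟩, hx₁⟩
        have h1 := hx₁A _ ⟨⟨a, ha⟩, rfl⟩
        rw [hypEx_lin_pow] at h1
        exact h1)
    intro a ha
    refine ⟨finrank ℝ E + 1, ?_⟩
    ext y
    have hy : y ∈ hypEx_sub π A' ⊤ (finrank ℝ E + 1) := by
      rw [hM]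
      exact Submodule.mem_top
    exact hy.2 a ha
  exact ⟨A', x₀, S, hinj, hx₀, hA', huni, ⟨f, hf⟩, hE, hcyc⟩

end B

end Pool.Agent.H30.T4
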