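import Mathlib
import Pool.Agent.H30.T4.Defs
import Pool.Agent.H71.AU.Core

/-! Project T4: restriction to an invariant subspace. -/

set_option autoImplicit false

namespace Pool.Agent.H30.T4

open NormedSpace Module Pool.Agent.H71.AU Pool.Agent.H14.HP Pool.Agent.H14.HR

variable {E : Type*} [NormedAddCommGroup E] [NormedSpace ℝ E] {Γ : Type*} [Group Γ]

/-- The restriction of the representation to an invariant subspace. -/
noncomputable def resV (π : Γ →* (E →L[ℝ] E)) (M : Submodule ℝ E) (hM : Inv π M) :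
    Γ →* (M →L[ℝ] M) where
  toFun g := ((π g).comp M.subtypeL).codRestrict M (fun y => hM g y y.2)
  map_one' := by
    ext x
    simp
  map_mul' a b := by
    ext x
    simp

theorem resV_apply (π : Γ →* (E →L[ℝ] E)) (M : Submodule ℝ E) (hM : Inv π M) (g : Γ) (x : M) :
    ((resV π M hM g x : M) : E) = π g x := rfl

variable {V : Type*} [NormedAddCommGroup V] [NormedSpace ℝ V]

/-- The maps of `V` that extend to maps of `h` along `ι`. -/
def resH (h : Submodule ℝ (E →L[ℝ] E)) (ι : V →L[ℝ] E) : Submodule ℝ (V →L[ℝ] V) where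
  carrier := {Y | ∃ X ∈ h, ∀ v : V, ι (Y v) = X (ι v)}
  add_mem' := by
    rintro Y Z ⟨X, hX, h1⟩ ⟨X', hX', h2⟩
    refine ⟨X + X', h.add_mem hX hX', fun v => ?_⟩
    rw [add_apply, add_apply, map_add, h1, h2]
  zero_mem' := ⟨0, h.zero_mem, fun v => map_zero ι⟩
  smul_mem' := by
    rintro t Y ⟨X, hX, h1⟩
    refine ⟨t • X, h.smul_mem t hX, fun v => ?_⟩
    change ι (t • Y v) = t • X (ι v)
    rw [map_smul, h1]

theorem res_pow {ι : V →L[ℝ] E} {Y : V →L[ℝ] V} {X : E →L[ℝ] E}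
    (h : ∀ v : V, ι (Y v) = X (ι v)) (k : ℕ) (v : V) :
    ι ((Y ^ k) v) = (X ^ k) (ι v) := by
  induction k generalizing v with
  | zero => simp
  | succ k ih =>
    rw [pow_succ, pow_succ]
    change ι ((Y ^ k) (Y v)) = (X ^ k) (X (ι v))
    rw [ih, h]

theorem res_pow_zero {ι : V →L[ℝ] E} (hι : Function.Injective ι) {Y : V →L[ℝ] V}
    {X : E →L[ℝ] E} (h : ∀ v : V, ι (Y v) = X (ι v)) {m : ℕ} (hX : X ^ m = 0) : Y ^ m = 0 := by
  ext1 v
  apply hι
  rw [res_pow h, hX]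
  simp

theorem res_nil {ι : V →L[ℝ] E} (hι : Function.Injective ι) {Y : V →L[ℝ] V} {X : E →L[ℝ] E}
    (h : ∀ v : V, ι (Y v) = X (ι v)) (hX : IsNilpotent X) : IsNilpotent Y := by
  obtain ⟨m, hm⟩ := hX
  exact ⟨m, res_pow_zero hι h hm⟩

variable [CompleteSpace E] [FiniteDimensional ℝ E] [CompleteSpace V] [FiniteDimensional ℝ V]

theorem res_exp {ι : V →L[ℝ] E} (hι : Function.Injective ι) {Y : V →L[ℝ] V} {X : E →L[ℝ] E}
    (h : ∀ v : V, ι (Y v) = X (ι v)) (hX : IsNilpotent X) (v : V) :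
    ι (exp Y v) = exp X (ι v) := by
  obtain ⟨m, hm⟩ := hX
  rw [exp_sum_pow hm, exp_sum_pow (res_pow_zero hι h hm), sum_apply, sum_apply, map_sum]
  apply Finset.sum_congr rfl
  intro i _
  change ι (((i.factorial : ℝ)⁻¹) • ((Y ^ i) v)) = ((i.factorial : ℝ)⁻¹) • (X ^ i) (ι v)
  rw [map_smul, res_pow h]

theorem res_pr {π : Γ →* (E →L[ℝ] E)} {ρ : Γ →* (V →L[ℝ] V)} {ι : V →L[ℝ] E}
    (hι : Function.Injective ι) (hρ : ∀ g v, ι (ρ g v) = π g (ι v))
    {h : Submodule ℝ (E →L[ℝ] E)} (hn : ∀ X ∈ h, IsNilpotent X)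
    (l : List (Γ × (V →L[ℝ] V))) (hl : ∀ q ∈ l, q.2 ∈ resH h ι) :
    ∃ l' : List (Γ × (E →L[ℝ] E)), (∀ q ∈ l', q.2 ∈ h) ∧
      ∀ v : V, ι (pr ρ l v) = pr π l' (ι v) := by
  induction l with
  | nil =>
    refine ⟨[], by simp, fun v => ?_⟩
    simp [pr]
  | cons q l ih =>
    obtain ⟨l', h1, h2⟩ := ih (fun q hq => hl q (List.mem_cons_of_mem _ hq))
    obtain ⟨X, hX, h3⟩ := hl q List.mem_cons_self
    refine ⟨(q.1, X) :: l', ?_, fun v => ?_⟩
    · intro q' hq'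
      rcases List.mem_cons.1 hq' with rfl | hq'
      · exact hX
      · exact h1 q' hq'
    · have e1 : pr ρ (q :: l) v = ρ q.1 (exp q.2 (ρ q.1⁻¹ (pr ρ l v))) := by
        simp only [pr, List.map_cons, List.prod_cons]
        rfl
      have e2 : pr π ((q.1, X) :: l') (ι v) = π q.1 (exp X (π q.1⁻¹ (pr π l' (ι v)))) := by
        simp only [pr, List.map_cons, List.prod_cons]
        rfl
      rw [e1, e2, hρ, res_exp hι h3 (hn X hX), hρ, h2]

end Pool.Agent.H30.T4
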