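import Mathlib
import Pool.Agent.H30.T4.Defs
import Pool.Agent.H30.T4.Res
import Pool.Agent.H30.T4.Flag
import Pool.Agent.H30.T4.Basic
import Pool.Agent.H30.T4.Gam
import Pool.Agent.H30.T4.GamNe
import Pool.Agent.H30.T4.Quo
import Pool.Agent.H30.T4.Irr
import Pool.Agent.H30.T4.Goren
import Pool.Agent.H30.T4.Gen
import Pool.Agent.H30.T4.Fin
import Pool.Agent.H30.T4.Red

/-! Project T4: the theorem in the linear model. -/

set_option autoImplicit false

namespace Pool.Agent.H30.T4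

open NormedSpace Module Pool.Agent.H71.AU Pool.Agent.H14.HP Pool.Agent.H14.HR

theorem main_last {E : Type} [NormedAddCommGroup E] [NormedSpace ℝ E] [CompleteSpace E]
    [FiniteDimensional ℝ E] {Γ : Type} [Group Γ] {π : Γ →* (E →L[ℝ] E)} {τ : E →L[ℝ] ℝ} {x₀ : E}
    {A : Subgroup Γ} {n : ℕ} (C : Cf π τ x₀ A n) {F : ℕ → Submodule ℝ E} {s : ℕ}
    (hF : Flg π F s) (hn : 0 < n) (h0 : hu π A F = ⊥) : False := by
  have hirr := goren_irr C hF hn h0
  obtain ⟨X, hX, w, hw, hτw, f, hf, hfw, v₀, hv₀, hfv₀⟩ := rankone C hF hn h0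
  obtain ⟨M, hMdef⟩ : ∃ M : Submodule ℝ E, M = LinearMap.ker (τ : E →ₗ[ℝ] ℝ) := ⟨_, rfl⟩
  have hmem : ∀ y, y ∈ M ↔ τ y = 0 := by
    intro y
    rw [hMdef, LinearMap.mem_ker]
    exact Iff.rfl
  have hM : Inv π M := by
    intro g y hy
    rw [hmem] at hy ⊢
    rw [C.sys.tau, hy]
  have : CompleteSpace M := FiniteDimensional.complete ℝ M
  have hXM : ∀ v : M, X v ∈ M := fun v => (hmem _).2 (C.htau hX v)
  obtain ⟨Y, hY⟩ : ∃ Y : M →L[ℝ] M, ∀ v : M, ((Y v : M) : E) = X v :=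
    ⟨(X.comp M.subtypeL).codRestrict M hXM, fun v => rfl⟩
  have hwM : w ∈ M := (hmem w).2 hτw
  obtain ⟨l, hl, hl'⟩ := gen_inj (resV π M hM)
    (by
      intro W hW
      have h1 : Inv π (W.map M.subtype) := by
        rintro g _ ⟨y, hy, rfl⟩
        exact ⟨resV π M hM g y, hW g y hy, rfl⟩
      have h2 : ∀ y ∈ W.map M.subtype, τ y = 0 := by
        rintro _ ⟨y, -, rfl⟩
        exact (hmem _).1 y.2
      rcases hirr _ h1 h2 with h3 | h3
      · left
        rw [Submodule.eq_bot_iff]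
        intro y hy
        have h4 : (y : E) ∈ W.map M.subtype := ⟨y, hy, rfl⟩
        rw [h3, Submodule.mem_bot] at h4
        exact Subtype.ext h4
      · right
        rw [Submodule.eq_top_iff']
        intro y
        obtain ⟨z, hz, hzy⟩ := h3 y ((hmem _).1 y.2)
        have h4 : z = y := Subtype.ext hzy
        rw [← h4]
        exact hz)
    (resH (hh π A) M.subtypeL)
    (by
      rintro Z ⟨X', hX', h1⟩
      exact res_nil (ι := M.subtypeL) Subtype.val_injective h1 (C.hnil hX'))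
    Y ⟨X, hX, hY⟩ (f.comp M.subtypeL) ⟨w, hwM⟩
    (by
      intro v
      apply Subtype.ext
      rw [hY, hf v ((hmem _).1 v.2)]
      rfl)
    (by
      intro h
      have h1 := congrArg (fun φ : M →L[ℝ] ℝ => φ ⟨v₀, (hmem v₀).2 hv₀⟩) h
      exact hfv₀ h1)
    (by
      intro h
      exact hw (congrArg Subtype.val h))
    hfw
  obtain ⟨l', hl1, hl2⟩ := res_pr (π := π) (ρ := resV π M hM) (ι := M.subtypeL)
    Subtype.val_injective (fun g v => rfl) (fun X hX => C.hnil hX) l hl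
  refine contra C.sys ⟨x₀, C.tx⟩ C.comm C.uni ⟨w, hw, hτw⟩ l' hl1 ?_
  intro v hv hpr
  have h1 : pr (resV π M hM) l ⟨v, (hmem v).2 hv⟩ = ⟨v, (hmem v).2 hv⟩ := by
    apply Subtype.ext
    have h2 := hl2 ⟨v, (hmem v).2 hv⟩
    exact h2.trans hpr
  exact congrArg Subtype.val (hl' _ h1)

theorem thm_all' (n : ℕ) : Thm n := by
  induction n using Nat.strong_induction_on with
  | _ n ih =>
    intro E _ _ _ _ Γ _ π τ A S hinj hx hA hf hE
    by_contra hV
    obtain ⟨A', x₀, C⟩ := red n S hinj hx hA hf hE hV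
    obtain ⟨F, s, hF⟩ := flg_exists π
    have hm := gam_fin C hF hV
    have hG := gam_inv C hF hm
    have hne := gam_ne C hF hm hV
    by_cases h0 : hu π A' F = ⊥
    · rcases Nat.eq_zero_or_pos n with hn | hn
      · obtain ⟨X, hX, hXJ⟩ := hne
        have h1 := C.hdim
        rw [hn, Submodule.finrank_eq_zero] at h1
        rw [h1, Submodule.mem_bot] at hX
        exact hXJ (hX ▸ (JJ F).zero_mem)
      · exact main_last C hF hn h0
    · exact hV (quo' C hF hG hne h0 ih)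

end Pool.Agent.H30.T4
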