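import Mathlib
import Pool.Agent.H14.HR.Aff
import Pool.Agent.H30.T4.Main

/-! Project T4: from the affine group to the linear model. -/

set_option autoImplicit false

namespace Pool.Agent.H30.T4

open NormedSpace Module Pool.Agent.H71.AU Pool.Agent.H14.HP Pool.Agent.H14.HR

theorem aff_inj (n : ℕ) (Γ : Subgroup ((Fin n → ℝ) ≃ᵃ[ℝ] (Fin n → ℝ))) :
    Function.Injective (aff_rep Γ) := by
  intro g _ hgh
  apply Subtype.ext
  apply AffineEquiv.ext
  intro x
  have h1 := congrArg (fun T : ((Fin n → ℝ) × ℝ) →L[ℝ] ((Fin n → ℝ) × ℝ) => (T (x, 1)).1) hgh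
  have e1 : ∀ g : Γ, (aff_rep Γ g (x, 1)).1 =
      (g : (Fin n → ℝ) ≃ᵃ[ℝ] (Fin n → ℝ)) x := by
    intro g
    rw [aff_rep_apply, main_hat_one _ _ rfl]
  simp only [e1] at h1
  exact h1

/-- Extension by zero. -/
def ext0 {m k : ℕ} (_ : m ≤ k) : (Fin m → ℤ) →+ (Fin k → ℤ) where
  toFun z i := if hi : (i : ℕ) < m then z ⟨i, hi⟩ else 0
  map_zero' := by
    funext i
    simp
  map_add' z w := by
    funext i
    by_cases hi : (i : ℕ) < m <;> simp [hi]

theorem ext0_inj {m k : ℕ} (h : m ≤ k) : Function.Injective (ext0 h) := by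
  intro z w hzw
  funext i
  have h1 := congrFun hzw (Fin.castLE h i)
  simpa [ext0] using h1

theorem aff_main (n k : ℕ) (hk : n ≤ k + 1)
    (Γ : Subgroup ((Fin n → ℝ) ≃ᵃ[ℝ] (Fin n → ℝ)))
    (hprop : ∀ K : Set (Fin n → ℝ), IsCompact K →
      {g : (Fin n → ℝ) ≃ᵃ[ℝ] (Fin n → ℝ) | g ∈ Γ ∧ (⇑g '' K ∩ K).Nonempty}.Finite)
    (f : Multiplicative (Fin k → ℤ) →* Γ) (hf : Function.Injective f) : VS Γ := by
  classical
  rcases Nat.eq_zero_or_pos n with hn | hn
  · subst hn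
    have h1 : ∀ g h : Γ, g = h := by
      intro g h
      apply Subtype.ext
      apply AffineEquiv.ext
      intro x
      exact Subsingleton.elim _ _
    exact ⟨⊤, inferInstance, Group.isSolvable_of_comm (fun a b => Subtype.ext (h1 _ _))⟩
  · obtain ⟨m, rfl⟩ : ∃ m, n = m + 1 := ⟨n - 1, by omega⟩
    have hmk : m ≤ k := by omega
    obtain ⟨g, hg⟩ : ∃ g : Multiplicative (Fin m → ℤ) →* Γ,
        g = f.comp (AddMonoidHom.toMultiplicative (ext0 hmk)) := ⟨_, rfl⟩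
    have hginj : Function.Injective g := by
      rw [hg]
      intro z w hzw
      have h1 := hf hzw
      exact ext0_inj hmk h1
    refine thm_all' m ((Fin (m + 1) → ℝ) × ℝ) Γ (aff_rep Γ)
      (ContinuousLinearMap.snd ℝ (Fin (m + 1) → ℝ) ℝ) g.range (aff_sys (m + 1) Γ hprop)
      (aff_inj _ Γ) ⟨(0, 1), rfl⟩ ?_ ?_ ?_
    · rintro _ ⟨x, rfl⟩ _ ⟨y, rfl⟩
      rw [← map_mul, ← map_mul, mul_comm]
    · refine ⟨MonoidHom.toAdditiveRight g.rangeRestrict, ?_⟩
      intro z w hzw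
      apply hginj
      exact congrArg (fun q : g.range => (q : Γ)) hzw
    · simp

end Pool.Agent.H30.T4
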