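import Mathlib

/-! The matroid intersection theorem, for two rank functions. -/

set_option autoImplicit false

namespace Pool.Agent.H30.T4.Gen

open Finset

theorem mi {ι : Type*} [DecidableEq ι] (r₁ r₂ : Finset ι → ℕ)
    (m₁ : ∀ X Y, X ⊆ Y → r₁ X ≤ r₁ Y) (m₂ : ∀ X Y, X ⊆ Y → r₂ X ≤ r₂ Y)
    (s₁ : ∀ X Y, r₁ (X ∪ Y) + r₁ (X ∩ Y) ≤ r₁ X + r₁ Y)
    (s₂ : ∀ X Y, r₂ (X ∪ Y) + r₂ (X ∩ Y) ≤ r₂ X + r₂ Y)
    (o₁ : ∀ X e, r₁ (insert e X) ≤ r₁ X + 1) (o₂ : ∀ X e, r₂ (insert e X) ≤ r₂ X + 1)
    (E : Finset ι) : ∀ (C : Finset ι) (k : ℕ), Disjoint E C → r₁ C = C.card → r₂ C = C.card →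
      (∀ A B, A ∪ B = E → k + 2 * C.card ≤ r₁ (A ∪ C) + r₂ (B ∪ C)) →
      ∃ S, S ⊆ E ∧ S.card = k ∧ r₁ (S ∪ C) = k + C.card ∧ r₂ (S ∪ C) = k + C.card := by
  induction E using Finset.induction_on with
  | empty =>
    intro C k _ h1 h2 h
    have := h ∅ ∅ (by simp)
    rw [Finset.empty_union, h1, h2] at this
    have hk : k = 0 := by omega
    subst hk
    exact ⟨∅, by simp, by simp, by simpa using h1, by simpa using h2⟩
  | insert e E he ih =>
    intro C k hd h1 h2 h
    have hd' : Disjoint E C := Finset.disjoint_of_subset_left (Finset.subset_insert e E) hd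
    have heC : e ∉ C := fun h => (Finset.disjoint_left.1 hd) (Finset.mem_insert_self e E) h
    by_cases hc : ∀ A B, A ∪ B = E → k + 2 * C.card ≤ r₁ (A ∪ C) + r₂ (B ∪ C)
    · obtain ⟨S, hS, h3⟩ := ih C k hd' h1 h2 hc
      exact ⟨S, hS.trans (Finset.subset_insert e E), h3⟩
    push Not at hc
    obtain ⟨A, B, hAB, hlt⟩ := hc
    -- loops
    have loop : ∀ r : Finset ι → ℕ, (∀ X Y, X ⊆ Y → r X ≤ r Y) →
        (∀ X Y, r (X ∪ Y) + r (X ∩ Y) ≤ r X + r Y) → r C = C.card →
        r (insert e C) ≤ C.card → ∀ A, r (insert e A ∪ C) ≤ r (A ∪ C) := by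
      intro r m s hC hle A
      have h3 := s (A ∪ C) (insert e C)
      have h4 : C ⊆ (A ∪ C) ∩ insert e C :=
        Finset.subset_inter Finset.subset_union_right (Finset.subset_insert e C)
      have h5 := m _ _ h4
      have h6 : insert e A ∪ C ⊆ (A ∪ C) ∪ insert e C := by
        intro y hy
        simp only [Finset.mem_union, Finset.mem_insert] at hy ⊢
        tauto
      have h7 := m _ _ h6
      omega
    by_cases hl1 : r₁ (insert e C) ≤ C.card
    · exfalso
      have h3 := loop r₁ m₁ s₁ h1 hl1 A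
      have h4 := h (insert e A) B (by rw [← hAB, Finset.insert_union])
      omega
    by_cases hl2 : r₂ (insert e C) ≤ C.card
    · exfalso
      have h3 := loop r₂ m₂ s₂ h2 hl2 B
      have h4 := h A (insert e B) (by rw [← hAB, Finset.union_insert])
      omega
    have hcard : (insert e C).card = C.card + 1 := Finset.card_insert_of_notMem heC
    have h1' : r₁ (insert e C) = (insert e C).card := by
      have := o₁ C e
      omega
    have h2' : r₂ (insert e C) = (insert e C).card := by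
      have := o₂ C e
      omega
    rcases Nat.eq_zero_or_pos k with hk | hk
    · exfalso
      have h3 := m₁ C (A ∪ C) Finset.subset_union_right
      have h4 := m₂ C (B ∪ C) Finset.subset_union_right
      omega
    obtain ⟨k', rfl⟩ : ∃ k', k = k' + 1 := ⟨k - 1, by omega⟩
    by_cases hc' : ∀ A B, A ∪ B = E →
        k' + 2 * (insert e C).card ≤ r₁ (A ∪ insert e C) + r₂ (B ∪ insert e C)
    · have hd'' : Disjoint E (insert e C) := by
        rw [Finset.disjoint_insert_right]
        exact ⟨he, hd'⟩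
      obtain ⟨S, hS, hcS, h3, h4⟩ := ih (insert e C) k' hd'' h1' h2' hc'
      have heS : e ∉ S := fun h => he (hS h)
      refine ⟨insert e S, Finset.insert_subset_insert e hS, ?_, ?_, ?_⟩
      · rw [Finset.card_insert_of_notMem heS, hcS]
      · rw [Finset.insert_union, ← Finset.union_insert, h3, hcard]
        omega
      · rw [Finset.insert_union, ← Finset.union_insert, h4, hcard]
        omega
    push Not at hc'
    obtain ⟨A', B', hAB', hlt'⟩ := hc'
    exfalso
    have key : ∀ (r : Finset ι → ℕ), (∀ X Y, X ⊆ Y → r X ≤ r Y) →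
        (∀ X Y, r (X ∪ Y) + r (X ∩ Y) ≤ r X + r Y) → ∀ A A' : Finset ι,
        r (insert e (A ∪ A') ∪ C) + r ((A ∩ A') ∪ C) ≤ r (A ∪ C) + r (A' ∪ insert e C) := by
      intro r m s A A'
      have h3 := s (A ∪ C) (A' ∪ insert e C)
      have h4 : insert e (A ∪ A') ∪ C ⊆ (A ∪ C) ∪ (A' ∪ insert e C) := by
        intro y hy
        simp only [Finset.mem_union, Finset.mem_insert] at hy ⊢
        tauto
      have h5 : (A ∩ A') ∪ C ⊆ (A ∪ C) ∩ (A' ∪ insert e C) := by
        intro y hy
        simp only [Finset.mem_union, Finset.mem_insert, Finset.mem_inter] at hy ⊢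
        tauto
      have h6 := m _ _ h4
      have h7 := m _ _ h5
      omega
    have k1 := key r₁ m₁ s₁ A A'
    have k2 := key r₂ m₂ s₂ B B'
    have mem1 : ∀ y, y ∈ E ↔ y ∈ A ∨ y ∈ B := fun y => by rw [← hAB, Finset.mem_union]
    have mem2 : ∀ y, y ∈ E ↔ y ∈ A' ∨ y ∈ B' := fun y => by rw [← hAB', Finset.mem_union]
    have c1 := h (insert e (A ∪ A')) (B ∩ B') (by
      ext y
      have := mem1 y
      have := mem2 y
      simp only [Finset.mem_union, Finset.mem_insert, Finset.mem_inter]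
      tauto)
    have c2 := h (A ∩ A') (insert e (B ∪ B')) (by
      ext y
      have := mem1 y
      have := mem2 y
      simp only [Finset.mem_union, Finset.mem_insert, Finset.mem_inter]
      tauto)
    omega

end Pool.Agent.H30.T4.Gen
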