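import Mathlib
import Pool.Agent.H30.T4.Defs
import Pool.Agent.H30.T4.GenMat

/-! Linear part of the row T4-13. -/

set_option autoImplicit false

namespace Pool.Agent.H30.T4.Gen

open Module

section Rank

variable {V : Type*} [AddCommGroup V] [Module ℝ V] [FiniteDimensional ℝ V] {ι : Type*}
  [DecidableEq ι] (u : ι → V)

/-- The rank of a finite set of indices. -/
noncomputable def rk (X : Finset ι) : ℕ := finrank ℝ (Submodule.span ℝ (u '' (X : Set ι)))

omit [DecidableEq ι] in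
theorem rk_mono (X Y : Finset ι) (h : X ⊆ Y) : rk u X ≤ rk u Y := by
  apply Submodule.finrank_mono
  apply Submodule.span_mono
  apply Set.image_mono
  exact_mod_cast h

theorem rk_sub (X Y : Finset ι) : rk u (X ∪ Y) + rk u (X ∩ Y) ≤ rk u X + rk u Y := by
  have h1 : Submodule.span ℝ (u '' ((X ∪ Y : Finset ι) : Set ι)) =
      Submodule.span ℝ (u '' (X : Set ι)) ⊔ Submodule.span ℝ (u '' (Y : Set ι)) := by
    rw [Finset.coe_union, Set.image_union, Submodule.span_union]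
  have h2 : Submodule.span ℝ (u '' ((X ∩ Y : Finset ι) : Set ι)) ≤
      Submodule.span ℝ (u '' (X : Set ι)) ⊓ Submodule.span ℝ (u '' (Y : Set ι)) := by
    rw [Finset.coe_inter]
    exact le_inf (Submodule.span_mono (Set.image_mono Set.inter_subset_left))
      (Submodule.span_mono (Set.image_mono Set.inter_subset_right))
  have h3 := Submodule.finrank_sup_add_finrank_inf_eq (Submodule.span ℝ (u '' (X : Set ι)))
    (Submodule.span ℝ (u '' (Y : Set ι)))
  have h4 := Submodule.finrank_mono h2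
  unfold rk
  rw [h1]
  omega

theorem rk_one (X : Finset ι) (e : ι) : rk u (insert e X) ≤ rk u X + 1 := by
  have h1 : Submodule.span ℝ (u '' ((insert e X : Finset ι) : Set ι)) =
      Submodule.span ℝ {u e} ⊔ Submodule.span ℝ (u '' (X : Set ι)) := by
    rw [Finset.coe_insert, Set.image_insert_eq, Submodule.span_insert]
  have h3 := Submodule.finrank_sup_add_finrank_inf_eq (Submodule.span ℝ {u e})
    (Submodule.span ℝ (u '' (X : Set ι)))
  have h4 : finrank ℝ (Submodule.span ℝ {u e}) ≤ 1 := by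
    have := finrank_span_le_card (R := ℝ) ({u e} : Set V)
    simpa using this
  unfold rk
  rw [h1]
  omega

omit [FiniteDimensional ℝ V] [DecidableEq ι] in
theorem rk_empty : rk u ∅ = 0 := by
  unfold rk
  rw [Finset.coe_empty, Set.image_empty, Submodule.span_empty, finrank_bot]

/-- In a set of full rank, the vectors are independent. -/
theorem rk_indep {S : Finset ι} (hS : rk u S = S.card) {X : Finset ι} (hX : X ⊆ S) :
    rk u X = X.card := by
  have up : ∀ Z : Finset ι, ∀ Y, rk u (Z ∪ Y) ≤ rk u Y + Z.card := by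
    intro Z
    induction Z using Finset.induction_on with
    | empty =>
      intro Y
      simp
    | insert e Z he ih =>
      intro Y
      have h1 := ih Y
      have h2 := rk_one u (Z ∪ Y) e
      rw [Finset.insert_union, Finset.card_insert_of_notMem he]
      omega
  have h1 := up (S \ X) X
  rw [Finset.sdiff_union_of_subset hX, hS, Finset.card_sdiff_of_subset hX] at h1
  have h2 := Finset.card_le_card hX
  have h3 := up X ∅
  rw [Finset.union_empty, rk_empty] at h3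
  omega

theorem notMem_of_rk {S : Finset ι} (hS : rk u S = S.card) {X : Finset ι} {e : ι} (he : e ∉ X)
    (hX : insert e X ⊆ S) : u e ∉ Submodule.span ℝ (u '' (X : Set ι)) := by
  intro hmem
  have h1 := rk_indep u hS hX
  have h2 := rk_indep u hS ((Finset.subset_insert e X).trans hX)
  have h3 : rk u (insert e X) = rk u X := by
    have h4 : Submodule.span ℝ (u '' ((insert e X : Finset ι) : Set ι)) =
        Submodule.span ℝ (u '' (X : Set ι)) := by
      rw [Finset.coe_insert, Set.image_insert_eq, Submodule.span_insert_eq_span hmem]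
    unfold rk
    rw [h4]
  rw [Finset.card_insert_of_notMem he] at h1
  omega

end Rank

theorem exists_max {α : Type*} (P : α → Prop) (h0 : ∃ a, P a) (φ : α → ℕ) (N : ℕ)
    (hN : ∀ a, φ a ≤ N) : ∃ a, P a ∧ ∀ b, P b → φ b ≤ φ a := by
  obtain ⟨a, ha⟩ := h0
  have hne : {n | ∃ a, P a ∧ φ a = n}.Nonempty := ⟨φ a, a, ha, rfl⟩
  have hb : BddAbove {n | ∃ a, P a ∧ φ a = n} := by
    refine ⟨N, ?_⟩
    rintro n ⟨b, _, rfl⟩
    exact hN b
  obtain ⟨b, hb1, hb2⟩ := Nat.sSup_mem hne hb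
  refine ⟨b, hb1, fun c hc => ?_⟩
  rw [hb2]
  exact le_csSup hb ⟨c, hc, rfl⟩

section Inv

variable {V : Type*} [NormedAddCommGroup V] [NormedSpace ℝ V] [CompleteSpace V]
  [FiniteDimensional ℝ V] {Γ : Type*} [Group Γ] (ρ : Γ →* (V →L[ℝ] V)) (X₀ : V →L[ℝ] V)

omit [CompleteSpace V] [FiniteDimensional ℝ V] in
theorem rho_inv (g : Γ) (v : V) : ρ g (ρ g⁻¹ v) = v := by
  have h : ρ g * ρ g⁻¹ = 1 := by rw [← map_mul, mul_inv_cancel, map_one]
  exact congrArg (fun (T : V →L[ℝ] V) => T v) h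

omit [CompleteSpace V] [FiniteDimensional ℝ V] in
theorem inv_rho (g : Γ) (v : V) : ρ g⁻¹ (ρ g v) = v := by
  have h : ρ g⁻¹ * ρ g = 1 := by rw [← map_mul, inv_mul_cancel, map_one]
  exact congrArg (fun (T : V →L[ℝ] V) => T v) h

omit [CompleteSpace V] [FiniteDimensional ℝ V] in
theorem rho_mul (g h : Γ) (v : V) : ρ (g * h) v = ρ g (ρ h v) := by
  rw [map_mul]
  rfl

/-- The span of the images of `W` under the conjugates of `X₀`. -/
def TT (W : Submodule ℝ V) : Submodule ℝ V :=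
  Submodule.span ℝ {z | ∃ g : Γ, ∃ v ∈ W, z = ρ g (X₀ (ρ g⁻¹ v))}

omit [CompleteSpace V] [FiniteDimensional ℝ V] in
theorem TT_mono {W W' : Submodule ℝ V} (h : W ≤ W') : TT ρ X₀ W ≤ TT ρ X₀ W' := by
  apply Submodule.span_mono
  rintro z ⟨g, v, hv, rfl⟩
  exact ⟨g, v, h hv, rfl⟩

omit [CompleteSpace V] [FiniteDimensional ℝ V] in
theorem TT_sup (W W' : Submodule ℝ V) : TT ρ X₀ (W ⊔ W') ≤ TT ρ X₀ W ⊔ TT ρ X₀ W' := by
  apply Submodule.span_le.2
  rintro z ⟨g, v, hv, rfl⟩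
  obtain ⟨a, ha, b, hb, rfl⟩ := Submodule.mem_sup.1 hv
  rw [map_add, map_add, map_add]
  exact Submodule.add_mem_sup (Submodule.subset_span ⟨g, a, ha, rfl⟩)
    (Submodule.subset_span ⟨g, b, hb, rfl⟩)

omit [CompleteSpace V] [FiniteDimensional ℝ V] in
theorem TT_map (h : Γ) (W : Submodule ℝ V) :
    TT ρ X₀ (W.map (ρ h : V →ₗ[ℝ] V)) ≤ (TT ρ X₀ W).map (ρ h : V →ₗ[ℝ] V) := by
  apply Submodule.span_le.2
  rintro z ⟨g, v, hv, rfl⟩
  obtain ⟨a, ha, rfl⟩ := Submodule.mem_map.1 hv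
  refine Submodule.mem_map.2 ⟨ρ (h⁻¹ * g) (X₀ (ρ (h⁻¹ * g)⁻¹ a)),
    Submodule.subset_span ⟨h⁻¹ * g, a, ha, rfl⟩, ?_⟩
  change ρ h _ = ρ g (X₀ (ρ g⁻¹ (ρ h a)))
  rw [rho_mul, rho_inv, mul_inv_rev, inv_inv, rho_mul]

omit [CompleteSpace V] [FiniteDimensional ℝ V] in
theorem dim_map (h : Γ) (W : Submodule ℝ V) :
    finrank ℝ (W.map (ρ h : V →ₗ[ℝ] V)) = finrank ℝ W := by
  have hinj : Function.Injective (ρ h : V →ₗ[ℝ] V) := by
    intro a b hab
    have h1 : ρ h a = ρ h b := hab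
    rw [← inv_rho ρ h a, h1, inv_rho]
  exact (Submodule.equivMapOfInjective _ hinj W).finrank_eq.symm

omit [CompleteSpace V] in
theorem dim_le (hirr : ∀ W : Submodule ℝ V, Inv ρ W → W = ⊥ ∨ W = ⊤)
    (h0 : TT ρ X₀ ⊤ ≠ ⊥) (W : Submodule ℝ V) : finrank ℝ W ≤ finrank ℝ (TT ρ X₀ W) := by
  by_contra hcon
  push Not at hcon
  have hN : ∀ W : Submodule ℝ V, finrank ℝ W ≤ finrank ℝ V := fun W => Submodule.finrank_le W
  obtain ⟨W₁, -, hW₁⟩ := exists_max (fun _ : Submodule ℝ V => True) ⟨W, trivial⟩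
    (fun W => finrank ℝ W + (finrank ℝ V - finrank ℝ (TT ρ X₀ W))) (finrank ℝ V + finrank ℝ V)
    (fun W => by have := hN W; omega)
  obtain ⟨W₂, hW₂, hmax⟩ := exists_max (fun W' : Submodule ℝ V =>
    finrank ℝ W' + (finrank ℝ V - finrank ℝ (TT ρ X₀ W')) =
      finrank ℝ W₁ + (finrank ℝ V - finrank ℝ (TT ρ X₀ W₁))) ⟨W₁, rfl⟩
    (fun W => finrank ℝ W) (finrank ℝ V) hN
  have hgt : finrank ℝ (TT ρ X₀ W₂) < finrank ℝ W₂ := by
    have h1 := hW₁ W trivial
    have h2 := hN (TT ρ X₀ W)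
    have h3 := hN (TT ρ X₀ W₂)
    omega
  have hinv : Inv ρ W₂ := by
    intro h y hy
    have e1 := dim_map ρ h W₂
    have e2 : finrank ℝ (TT ρ X₀ (W₂.map (ρ h : V →ₗ[ℝ] V))) ≤ finrank ℝ (TT ρ X₀ W₂) := by
      rw [← dim_map ρ h (TT ρ X₀ W₂)]
      exact Submodule.finrank_mono (TT_map ρ X₀ h W₂)
    set W₃ := W₂.map (ρ h : V →ₗ[ℝ] V) with hW₃
    have a1 := Submodule.finrank_sup_add_finrank_inf_eq W₂ W₃
    have a2 := Submodule.finrank_sup_add_finrank_inf_eq (TT ρ X₀ W₂) (TT ρ X₀ W₃)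
    have a3 := Submodule.finrank_mono (TT_sup ρ X₀ W₂ W₃)
    have a4 : finrank ℝ (TT ρ X₀ (W₂ ⊓ W₃)) ≤ finrank ℝ (TT ρ X₀ W₂ ⊓ TT ρ X₀ W₃ :
        Submodule ℝ V) := by
      apply Submodule.finrank_mono
      exact le_inf (TT_mono ρ X₀ inf_le_left) (TT_mono ρ X₀ inf_le_right)
    have b1 := hW₁ (W₂ ⊔ W₃) trivial
    have b2 := hW₁ (W₂ ⊓ W₃) trivial
    have c1 := hN (TT ρ X₀ (W₂ ⊔ W₃))
    have c2 := hN (TT ρ X₀ (W₂ ⊓ W₃))
    have c3 := hN (TT ρ X₀ W₂)
    have c4 := hN (TT ρ X₀ W₁)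
    have c5 := hN (TT ρ X₀ W₂ ⊔ TT ρ X₀ W₃)
    have d1 := hmax (W₂ ⊔ W₃) (by omega)
    have d2 : W₂ = W₂ ⊔ W₃ := Submodule.eq_of_le_of_finrank_le le_sup_left d1
    rw [d2]
    exact Submodule.mem_sup_right (Submodule.mem_map_of_mem hy)
  rcases hirr W₂ hinv with h | h
  · rw [h, finrank_bot] at hgt
    omega
  · have h1 : Inv ρ (TT ρ X₀ ⊤) := by
      intro g y hy
      have h2 : TT ρ X₀ ⊤ ≤ (TT ρ X₀ ⊤).comap (ρ g : V →ₗ[ℝ] V) := by
        apply Submodule.span_le.2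
        rintro z ⟨h, v, _, rfl⟩
        change ρ g (ρ h (X₀ (ρ h⁻¹ v))) ∈ TT ρ X₀ ⊤
        apply Submodule.subset_span
        refine ⟨g * h, ρ g v, trivial, ?_⟩
        rw [rho_mul, mul_inv_rev, rho_mul, inv_rho]
      exact h2 hy
    rcases hirr _ h1 with h2 | h2
    · exact h0 h2
    · rw [h, h2] at hgt
      omega

end Inv

end Pool.Agent.H30.T4.Gen
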