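import Mathlib
import Pool.Agent.H30.T4.Defs
import Pool.Agent.H85.MA.LemZ

/-! Project T4: Lemma Z in the form that is used. -/

set_option autoImplicit false

namespace Pool.Agent.H30.T4

open NormedSpace Module

variable {E : Type*} [NormedAddCommGroup E] [NormedSpace ℝ E] [FiniteDimensional ℝ E]

theorem cl_iff {G : Type*} [Group G] (S : Set G) (k : ℕ) (g : G) :
    g ∈ cl S k ↔ Pool.Agent.H85.MA.LN S k g := by
  induction k generalizing g with
  | zero => exact Iff.rfl
  | succ k ih =>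
    constructor
    · rintro ⟨s, hs, u, hu, rfl⟩
      exact ⟨s, hs, u, (ih u).1 hu, rfl⟩
    · rintro ⟨s, hs, u, hu, rfl⟩
      exact ⟨s, hs, u, (ih u).2 hu, rfl⟩

theorem lemZ {G : Type*} [Group G] (ρ : G →* (E →L[ℝ] E)) (S : Set G)
    (hS : ∀ s ∈ S, IsNilpotent (ρ s - 1)) (hk : ∃ k, ∀ u ∈ cl S k, ρ u = 1) :
    ∀ l : List G, (∀ s ∈ l, s ∈ S) → finrank ℝ E ≤ l.length →
      (l.map (fun s => ρ s - 1)).prod = 0 := by
  intro l hl hlen
  obtain ⟨k, hk⟩ := hk
  have h1 := Pool.Agent.H85.MA.lemZ_cont ρ S hS ⟨k, fun g hg => hk g ((cl_iff S k g).2 hg)⟩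
    (l.take (finrank ℝ E)) (fun s hs => hl s (List.mem_of_mem_take hs))
    (by rw [List.length_take, min_eq_left hlen])
  have h2 : l.map (fun s => ρ s - 1) =
      (l.take (finrank ℝ E)).map (fun s => ρ s - 1) ++
        (l.drop (finrank ℝ E)).map (fun s => ρ s - 1) := by
    rw [← List.map_append, List.take_append_drop]
  rw [h2, List.prod_append, h1, zero_mul]

end Pool.Agent.H30.T4
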